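import Mathlib
import Pool.Agent.Work.MP_974d84_co_log.Tree

/-!
# Partitions into the cells of the nearest points of a set
-/

set_option linter.unusedSectionVars false

namespace Pool.Agent.Iso5

open Finset SimpleGraph Pool.Agent.Exp Pool.Agent.Log5

variable {V : Type} [Fintype V] [DecidableEq V] {G : SimpleGraph V} [DecidableRel G.Adj]

/-- Distance, cut off at `ρ + 1`. -/
theorem exists_lev (G : SimpleGraph V) (ρ : ℕ) (v y : V) :
    ∃ j, y ∈ Bl G.Adj j v ∨ j = ρ + 1 := ⟨ρ + 1, Or.inr rfl⟩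

open Classical in
/-- Distance, cut off at `ρ + 1`. -/
noncomputable def lev (G : SimpleGraph V) (ρ : ℕ) (v y : V) : ℕ := Nat.find (exists_lev G ρ v y)

theorem lev_le (ρ : ℕ) (v y : V) : lev G ρ v y ≤ ρ + 1 := by
  classical exact Nat.find_min' _ (Or.inr rfl)

theorem lev_le_of_mem {ρ : ℕ} {v y : V} {j : ℕ} (h : y ∈ Bl G.Adj j v) : lev G ρ v y ≤ j := by
  classical exact Nat.find_min' _ (Or.inl h)

theorem mem_of_lev {ρ : ℕ} {v y : V} (h : lev G ρ v y ≤ ρ) : y ∈ Bl G.Adj (lev G ρ v y) v := by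
  classical
  rcases Nat.find_spec (exists_lev G ρ v y) with h1 | h1
  · exact h1
  · exfalso
    have h2 : lev G ρ v y = ρ + 1 := h1
    omega

theorem lev_adj {ρ : ℕ} {u v y : V} (h : G.Adj u v) : lev G ρ u y ≤ lev G ρ v y + 1 := by
  by_cases h1 : lev G ρ v y ≤ ρ
  · have h2 := mem_of_lev h1
    have h3 : v ∈ Bl G.Adj 1 u := mem_Bl_succ.2 (Or.inr ⟨u, mem_Bl_zero.2 rfl, h⟩)
    have := Bl_comp h3 h2
    have := lev_le_of_mem (ρ := ρ) this
    omega
  · have := lev_le (G := G) ρ u y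
    omega

theorem Bl_symm' {n : ℕ} {v w : V} (h : w ∈ Bl G.Adj n v) : v ∈ Bl G.Adj n w :=
  Bl_symm (fun _ _ h => h.symm) h

/-- The first step of a shortest path. -/
theorem exists_step {ρ j : ℕ} {v y : V} (h : lev G ρ v y = j + 1) (hj : j + 1 ≤ ρ) :
    ∃ u, G.Adj u v ∧ lev G ρ u y ≤ j := by
  have h1 := mem_of_lev (G := G) (ρ := ρ) (v := v) (y := y) (by omega)
  rw [h] at h1
  have h2 := Bl_symm' h1
  rw [mem_Bl_succ] at h2
  rcases h2 with h2 | ⟨u, hu, huv⟩
  · have := lev_le_of_mem (ρ := ρ) (Bl_symm' h2)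
    omega
  · exact ⟨u, huv, lev_le_of_mem (Bl_symm' hu)⟩

/-- Somewhere on the way the side changes. -/
theorem exists_cross {S : Finset V} {v y : V} {j : ℕ} (h : y ∈ Bl G.Adj j v)
    (hne : ¬ (v ∈ S ↔ y ∈ S)) : ∃ i < j, ∃ x x', G.Adj x x' ∧ x ∈ Bl G.Adj i v ∧
      y ∈ Bl G.Adj (j - 1 - i) x' ∧ (v ∈ S ↔ x ∈ S) ∧ ¬ (v ∈ S ↔ x' ∈ S) := by
  induction j generalizing y with
  | zero =>
    rw [mem_Bl_zero] at h
    subst h
    exact absurd Iff.rfl hne
  | succ j ih =>
    rw [mem_Bl_succ] at h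
    rcases h with h | ⟨u, hu, huy⟩
    · obtain ⟨i, hi, x, x', h1, h2, h3, h4, h5⟩ := ih h hne
      exact ⟨i, by omega, x, x', h1, h2, Bl_mono (by omega) _ h3, h4, h5⟩
    · by_cases hs : (v ∈ S ↔ u ∈ S)
      · exact ⟨j, by omega, u, y, huy, hu, by rw [show j + 1 - 1 - j = 0 by omega]; exact Bl_self _ _,
          hs, hne⟩
      · obtain ⟨i, hi, x, x', h1, h2, h3, h4, h5⟩ := ih hu hs
        refine ⟨i, by omega, x, x', h1, h2, ?_, h4, h5⟩
        rw [show j + 1 - 1 - i = (j - 1 - i) + 1 by omega]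
        exact mem_Bl_succ.2 (Or.inr ⟨u, h3, huy⟩)

/-- A vertex set in which every vertex can go down to one fixed vertex is joined. -/
theorem joined_of_descent {W : Finset V} (y : V) (hy : y ∈ W) (l : V → ℕ)
    (h : ∀ v ∈ W, v ≠ y → ∃ u ∈ W, G.Adj u v ∧ l u < l v) : Joined G W := by
  intro A hA hne hAW
  by_cases hyA : y ∈ A
  · have hd : (W \ A).Nonempty := by
      rw [sdiff_nonempty]
      intro h1
      exact hAW (subset_antisymm hA h1)
    obtain ⟨v, hv, hmin⟩ := exists_min_image (W \ A) l hd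
    rw [mem_sdiff] at hv
    obtain ⟨u, hu, huv, hl⟩ := h v hv.1 (by rintro rfl; exact hv.2 hyA)
    refine ⟨u, ?_, v, hv.1, hv.2, huv⟩
    by_contra hu'
    have := hmin u (mem_sdiff.2 ⟨hu, hu'⟩)
    omega
  · obtain ⟨v, hv, hmin⟩ := exists_min_image A l hne
    obtain ⟨u, hu, huv, hl⟩ := h v (hA hv) (by rintro rfl; exact hyA hv)
    refine ⟨v, hv, u, hu, fun hu' => ?_, huv.symm⟩
    have := hmin u hu'
    omega

/-- Cells of the nearest points. -/
theorem exists_nearest {ρ s : ℕ} (hs : s ≤ ρ) (Y : Finset V)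
    (hcov : ∀ v, ∃ y ∈ Y, y ∈ Bl G.Adj ρ v)
    (hsep : ∀ y ∈ Y, ∀ y' ∈ Y, y ≠ y' → y' ∉ Bl G.Adj (2 * s) y) :
    ∃ c : V → V, (∀ v, c v ∈ Y) ∧ (∀ v, c v ∈ Bl G.Adj ρ v) ∧
      (∀ v, Joined G (univ.filter fun y => c y = c v)) ∧
      (∀ v, Bl G.Adj s (c v) ⊆ univ.filter fun y => c y = c v) := by
  classical
  let e : V → ℕ := fun v => (Fintype.equivFin V v : ℕ)
  have he : ∀ v, e v < Fintype.card V := fun v => (Fintype.equivFin V v).2
  have hinj : ∀ v w, e v = e w → v = w := fun v w h =>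
    (Fintype.equivFin V).injective (Fin.ext h)
  set M := Fintype.card V with hM
  let key : V → V → ℕ := fun v y => lev G ρ v y * M + e y
  have hkey : ∀ v y y', key v y ≤ key v y' → lev G ρ v y ≤ lev G ρ v y' := by
    intro v y y' h
    by_contra h1
    push_neg at h1
    have h2 : (lev G ρ v y' + 1) * M ≤ lev G ρ v y * M := Nat.mul_le_mul_right _ h1
    have h3 := he y'
    simp only [key] at h
    rw [add_mul, one_mul] at h2
    omega
  have hkey2 : ∀ v y y', key v y = key v y' → y = y' := by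
    intro v y y' h
    have h1 := hkey v y y' h.le
    have h2 := hkey v y' y h.ge
    have h3 : lev G ρ v y = lev G ρ v y' := le_antisymm h1 h2
    apply hinj
    simp only [key, h3] at h
    omega
  have hc : ∀ v, ∃ y ∈ Y, ∀ y' ∈ Y, key v y ≤ key v y' := by
    intro v
    obtain ⟨y, hy, -⟩ := hcov v
    exact exists_min_image Y (key v) ⟨y, hy⟩
  choose c hcY hcmin using hc
  have hcρ : ∀ v, lev G ρ v (c v) ≤ ρ := by
    intro v
    obtain ⟨y, hy, hyv⟩ := hcov v
    exact (hkey v _ _ (hcmin v y hy)).trans (lev_le_of_mem hyv)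
  refine ⟨c, hcY, fun v => Bl_mono (hcρ v) _ (mem_of_lev (hcρ v)), fun v0 => ?_, fun v => ?_⟩
  · have hself : c (c v0) = c v0 := by
      have h1 : key (c v0) (c (c v0)) ≤ key (c v0) (c v0) := hcmin (c v0) (c v0) (hcY v0)
      have h2 := hkey _ _ _ h1
      have h3 : lev G ρ (c v0) (c v0) = 0 :=
        Nat.le_zero.1 (lev_le_of_mem (j := 0) (mem_Bl_zero.2 rfl))
      rw [h3, Nat.le_zero] at h2
      have h4 := mem_of_lev (G := G) (ρ := ρ) (v := c v0) (y := c (c v0)) (by omega)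
      rw [h2, mem_Bl_zero] at h4
      exact h4
    refine joined_of_descent (c v0) (by simp [hself]) (fun v => lev G ρ v (c v0)) ?_
    intro v hv hne
    rw [mem_filter] at hv
    have hv := hv.2
    have h1 : lev G ρ v (c v0) ≤ ρ := by rw [← hv]; exact hcρ v
    rcases Nat.eq_zero_or_pos (lev G ρ v (c v0)) with h0 | h0
    · exfalso
      have h4 := mem_of_lev (G := G) (ρ := ρ) (v := v) (y := c v0) (by omega)
      rw [h0, mem_Bl_zero] at h4
      exact hne h4.symm
    · obtain ⟨u, huv, hu⟩ := exists_step (G := G) (ρ := ρ) (v := v) (y := c v0)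
        (j := lev G ρ v (c v0) - 1) (by omega) (by omega)
      refine ⟨u, ?_, huv, by omega⟩
      rw [mem_filter]
      refine ⟨mem_univ _, ?_⟩
      have h5 : key u (c v0) ≤ key u (c u) := by
        have h6 : key v (c v0) ≤ key v (c u) := by
          have := hcmin v (c u) (hcY u)
          rw [hv] at this
          exact this
        have h7 : lev G ρ v (c u) ≤ lev G ρ u (c u) + 1 := lev_adj huv.symm
        simp only [key] at h6 ⊢
        have h8 : lev G ρ v (c u) * M ≤ (lev G ρ u (c u) + 1) * M := Nat.mul_le_mul_right _ h7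
        have h9 : (lev G ρ u (c v0) + 1) * M ≤ lev G ρ v (c v0) * M :=
          Nat.mul_le_mul_right _ (by omega)
        rw [add_mul, one_mul] at h8 h9
        omega
      exact hkey2 u _ _ (le_antisymm (hcmin u (c v0) (hcY v0)) h5)
  · intro u hu
    rw [mem_filter]
    refine ⟨mem_univ _, ?_⟩
    by_contra hne
    have h1 : lev G ρ u (c v) ≤ s := lev_le_of_mem (Bl_symm' hu)
    have h2 : lev G ρ u (c u) ≤ s := (hkey u _ _ (hcmin u (c v) (hcY v))).trans h1
    have h3 := mem_of_lev (G := G) (ρ := ρ) (v := u) (y := c u) (by omega)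
    have h4 := Bl_comp hu h3
    exact hsep (c v) (hcY v) (c u) (hcY u) (fun h => hne h.symm) (Bl_mono (by omega) _ h4)

end Pool.Agent.Iso5
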