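import Mathlib
import Pool.Agent.Work.MP_974d84_co_log.Cluster

/-!
# The isoperimetric flow theorem: basic notions
-/

set_option linter.unusedSectionVars false

namespace Pool.Agent.Iso5

open Finset SimpleGraph Pool.Agent.Exp Pool.Agent.Log5 Pool.Agent.Log5.Clu

variable {V : Type} [Fintype V] [DecidableEq V] (G : SimpleGraph V) [DecidableRel G.Adj]

/-- The isoperimetric condition. -/
def Iso (δ C : ℝ) (w : ℕ) : Prop := ∀ S : Finset V, 2 * S.card ≤ Fintype.card V →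
  ¬ (G.induce (S : Set V)).IsAcyclic → ¬ (G.induce ((Sᶜ : Finset V) : Set V)).IsAcyclic →
  C * min ((1 + Real.log S.card) ^ (1 + δ)) (1 + Real.log w) ≤ dd G S

/-- The closed bonds with `D` edges and a given vertex in the small side, and with different
traces on `W`, are at most `exp (κ * D)` in number. -/
def LocBd (W : Finset V) (D₁ : ℕ) (κ : ℝ) (c : V → V) : Prop :=
  ∀ (t : V) (D : ℕ) (F : Finset (Finset V)), D₁ ≤ D →
    (∀ S ∈ F, t ∈ S ∧ 2 * S.card ≤ Fintype.card V ∧ Joined G S ∧ Joined G Sᶜ ∧ Clo c S ∧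
      dd G S = D) →
    (∀ S ∈ F, ∀ S' ∈ F, (∀ v ∈ W, (v ∈ S ↔ v ∈ S')) → S = S') →
    (F.card : ℝ) ≤ Real.exp (κ * D)

/-- The set `S` splits the ball. -/
def Spl (r : ℕ) (S : Finset V) (v : V) : Prop := ∃ x ∈ Bl G.Adj r v, ¬ (x ∈ S ↔ v ∈ S)

end Pool.Agent.Iso5
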