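import Mathlib
import Pool.Agent.Work.MP_974d84_co_iso.Defs3
import Pool.Agent.Work.MP_974d84_co_log.ChooseLocal

/-!
# The choice of the terminals
-/

set_option linter.unusedSectionVars false

namespace Pool.Agent.Iso5

open Finset SimpleGraph Pool.Agent.Exp Pool.Agent.Log5 Pool.Agent.Log5.Clu

variable {V : Type} [Fintype V] [DecidableEq V] {G : SimpleGraph V} [DecidableRel G.Adj]

theorem spl_compl {r : ℕ} {S : Finset V} {v : V} : Spl G r Sᶜ v ↔ Spl G r S v := by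
  unfold Spl
  refine exists_congr fun x => and_congr_right fun _ => not_congr ?_
  rw [mem_compl, mem_compl]
  tauto

/-- A set which splits a ball cuts an edge of the ball. -/
theorem exists_cut_of_spl {n : ℕ} {v : V} {S : Finset V} (h : Spl G n S v) :
    ∃ x y, x ∈ Bl G.Adj n v ∧ y ∈ Bl G.Adj n v ∧ G.Adj x y ∧ x ∈ S ∧ y ∉ S := by
  have key : ∀ m z, z ∈ Bl G.Adj m v → ¬ (z ∈ S ↔ v ∈ S) →
      ∃ x y, x ∈ Bl G.Adj m v ∧ y ∈ Bl G.Adj m v ∧ G.Adj x y ∧ x ∈ S ∧ y ∉ S := by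
    intro m
    induction m with
    | zero =>
      intro z hz hne
      rw [mem_Bl_zero] at hz
      exact absurd (by rw [hz]) hne
    | succ m ih =>
      intro z hz hne
      rw [mem_Bl_succ] at hz
      have hsub := Bl_mono (R := G.Adj) (Nat.le_succ m) v
      rcases hz with hz | ⟨u, hu, huz⟩
      · obtain ⟨x, y, hx, hy, h1⟩ := ih z hz hne
        exact ⟨x, y, hsub hx, hsub hy, h1⟩
      · by_cases hus : u ∈ S ↔ v ∈ S
        · have hzm : z ∈ Bl G.Adj (m + 1) v := mem_Bl_succ.2 (Or.inr ⟨u, hu, huz⟩)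
          by_cases huS : u ∈ S
          · refine ⟨u, z, hsub hu, hzm, huz, huS, fun hzS => hne ?_⟩
            exact ⟨fun _ => hus.1 huS, fun _ => hzS⟩
          · refine ⟨z, u, hzm, hsub hu, huz.symm, ?_, huS⟩
            by_contra hzS
            exact hne ⟨fun h => absurd h hzS, fun h => absurd (hus.2 h) huS⟩
        · obtain ⟨x, y, hx, hy, h1⟩ := ih u hu hus
          exact ⟨x, y, hsub hx, hsub hy, h1⟩
  obtain ⟨x, hx, hne⟩ := h
  exact key n x hx hne

/-- Few disjoint balls are split. -/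
theorem spl_card {κ : Type} [DecidableEq κ] {ρ : ℕ} (u : κ → V)
    (hu : ∀ x y, x ≠ y → Disjoint (Bl G.Adj ρ (u x)) (Bl G.Adj ρ (u y)))
    (S : Finset V) (X : Finset κ) (hX : ∀ x ∈ X, Spl G ρ S (u x)) :
    X.card ≤ dd G S := by
  have key : ∀ x : κ, ∃ p : V × V, x ∈ X → p.1 ∈ Bl G.Adj ρ (u x) ∧
      p ∈ Pool.Agent.Work.MP_314beb_co.cut G S := by
    intro x
    by_cases hx : x ∈ X
    · obtain ⟨a, b, ha, -, had, haS, hbS⟩ := exists_cut_of_spl (hX x hx)
      exact ⟨(a, b), fun _ => ⟨ha, (mem_cut G).2 ⟨haS, hbS, had⟩⟩⟩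
    · exact ⟨(u x, u x), fun h => absurd h hx⟩
  choose p hp using key
  refine card_le_card_of_injOn p (fun x hx => (hp x hx).2) ?_
  intro x hx y hy hxy
  by_contra hne
  have h1 := (hp x hx).1
  have h2 := (hp y hy).1
  rw [hxy] at h1
  exact disjoint_left.1 (hu x y hne) h1 h2

theorem sum_third (L : Finset ℕ) (hL : ∀ d ∈ L, 1 ≤ d) : ∑ d ∈ L, (1 / 3 : ℝ) ^ d ≤ 1 := by
  have hs := hasSum_geometric_of_lt_one (r := (1 / 3 : ℝ)) (by norm_num) (by norm_num)
  have h0 : 0 ∉ L := fun h => by have := hL 0 h; omega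
  have h1 : ∑ d ∈ insert 0 L, (1 / 3 : ℝ) ^ d ≤ (1 - 1 / 3)⁻¹ :=
    sum_le_hasSum _ (fun _ _ => by positivity) hs
  rw [sum_insert h0] at h1
  norm_num at h1 ⊢
  linarith

theorem pick_num {k q ρ h D : ℕ} {κ : ℝ} (hh : 0 < h) (hkD : k ≤ D) (hκ : 0 ≤ κ + 3)
    (hq : 2 * Real.exp ((κ + 3) * h) ≤ q) (hk : 3 * 2 ^ ρ * (q : ℝ) ≤ Real.exp k) :
    (3 * 2 ^ ρ * (q : ℝ) * Real.exp (κ * D)) * 2 ^ D * (2 / (q : ℝ)) ^ (D / h + 1)
      ≤ (1 / 3) ^ D := by
  have hq0 : (0 : ℝ) < q := lt_of_lt_of_le (by positivity) hq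
  have hD : (k : ℝ) ≤ D := by exact_mod_cast hkD
  have e1 : 2 / (q : ℝ) ≤ Real.exp (-((κ + 3) * h)) := by
    rw [div_le_iff₀ hq0, Real.exp_neg, inv_mul_eq_div, le_div_iff₀ (Real.exp_pos _)]
    exact hq
  have e2 : (2 / (q : ℝ)) ^ (D / h + 1) ≤ Real.exp (-((κ + 3) * D)) := by
    refine (pow_le_pow_left₀ (by positivity) e1 _).trans ?_
    rw [← Real.exp_nat_mul, Real.exp_le_exp]
    have h1 : D ≤ h * (D / h + 1) := by
      have e1 := Nat.div_add_mod D h
      have e2 := Nat.mod_lt D hh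
      nlinarith
    have h2 : (D : ℝ) ≤ h * ((D / h + 1 : ℕ) : ℝ) := by exact_mod_cast h1
    nlinarith
  have e3 : (2 : ℝ) ^ D ≤ Real.exp (7 / 10 * D) := by
    have : (2 : ℝ) ≤ Real.exp (7 / 10) := by
      rw [← Real.log_le_iff_le_exp (by norm_num)]
      have := Real.log_two_lt_d9
      linarith
    calc (2 : ℝ) ^ D ≤ (Real.exp (7 / 10)) ^ D := pow_le_pow_left₀ (by norm_num) this _
      _ = Real.exp (7 / 10 * D) := by rw [← Real.exp_nat_mul]; ring_nf
  have e4 : Real.exp (-(13 / 10 * D)) ≤ (1 / 3) ^ D := by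
    have h1 : Real.exp (-(13 / 10)) ≤ 1 / 3 := by
      rw [Real.exp_neg, inv_le_comm₀ (Real.exp_pos _) (by norm_num), one_div, inv_inv]
      rw [← Real.log_le_iff_le_exp (by norm_num)]
      have h3 : Real.log 3 ≤ 13 / 10 := by
        have h4 : Real.log 3 = Real.log 2 + Real.log (3 / 2) := by
          rw [← Real.log_mul (by norm_num) (by norm_num)]
          norm_num
        have h5 : Real.log (3 / 2) ≤ 3 / 2 - 1 := Real.log_le_sub_one_of_pos (by norm_num)
        have h6 := Real.log_two_lt_d9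
        linarith
      exact h3
    calc Real.exp (-(13 / 10 * D)) = (Real.exp (-(13 / 10))) ^ D := by
          rw [← Real.exp_nat_mul]; ring_nf
      _ ≤ (1 / 3) ^ D := pow_le_pow_left₀ (Real.exp_pos _).le h1 _
  calc (3 * 2 ^ ρ * (q : ℝ) * Real.exp (κ * D)) * 2 ^ D * (2 / (q : ℝ)) ^ (D / h + 1)
      ≤ (Real.exp D * Real.exp (κ * D)) * Real.exp (7 / 10 * D) * Real.exp (-((κ + 3) * D)) := by
        have h1 : 3 * 2 ^ ρ * (q : ℝ) ≤ Real.exp D := hk.trans (Real.exp_le_exp.2 hD)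
        gcongr
    _ = Real.exp (-(13 / 10 * D)) := by
        rw [← Real.exp_add, ← Real.exp_add, ← Real.exp_add]
        ring_nf
    _ ≤ (1 / 3) ^ D := e4

/-- P3: the choice of the terminals. -/
theorem pick (ρ h : ℕ) (hh : 0 < h) (κ : ℝ) : ∃ q D₀ : ℕ, 0 < q ∧
    ∀ {V : Type} [Fintype V] [DecidableEq V] (G : SimpleGraph V) [DecidableRel G.Adj],
    (∀ v, G.degree v = 3) → ∀ (w : ℕ) (u : Fin w → Fin q → V),
    (∀ i a j b, (i, a) ≠ (j, b) → Disjoint (Bl G.Adj ρ (u i a)) (Bl G.Adj ρ (u j b))) →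
    ∀ D₁, D₀ ≤ D₁ →
    LocBd G (univ.biUnion fun p : Fin w × Fin q => Bl G.Adj ρ (u p.1 p.2)) D₁ κ id →
    ∃ t : Fin w → Fin q, ∀ S, Joined G S → Joined G Sᶜ → D₁ ≤ dd G S →
      ∀ A : Finset (Fin w), (∀ i ∈ A, Spl G ρ S (u i (t i))) → h * A.card ≤ dd G S := by
  classical
  -- the constants, with a nonnegative exponent
  set κ' : ℝ := max κ 0 with hκ'
  have hκ0 : 0 ≤ κ' := le_max_right _ _
  obtain ⟨q, hq⟩ := exists_nat_ge (2 * Real.exp ((κ' + 3) * h))
  obtain ⟨k, hk⟩ := exists_nat_ge (Real.log (3 * 2 ^ ρ * (q : ℝ)) + 1)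
  have hqr : (0 : ℝ) < q := lt_of_lt_of_le (by positivity) hq
  have hq0 : 0 < q := by exact_mod_cast hqr
  have hk' : 3 * 2 ^ ρ * (q : ℝ) ≤ Real.exp k := by
    rw [← Real.log_le_iff_le_exp (by positivity)]
    linarith
  have hk1 : 1 ≤ k := by
    have h1 : (1 : ℝ) ≤ q := by exact_mod_cast hq0
    have h2 : (1 : ℝ) ≤ 2 ^ ρ := one_le_pow₀ (by norm_num)
    have h3 : (1 : ℝ) ≤ 2 ^ ρ * q := one_le_mul_of_one_le_of_one_le h2 h1
    have h4 : 0 ≤ Real.log (3 * 2 ^ ρ * (q : ℝ)) := Real.log_nonneg (by nlinarith)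
    have h5 : (1 : ℝ) ≤ k := by linarith
    exact_mod_cast h5
  refine ⟨q, k, hq0, ?_⟩
  intro V _ _ G _ h3 w u hu D₁ hD₁ hloc₀
  have : Nonempty (Fin q) := ⟨⟨0, hq0⟩⟩
  -- the pattern of a set
  let XX : Finset V → Finset (Fin w × Fin q) := fun S =>
    univ.filter fun p => Spl G ρ S (u p.1 p.2)
  let F : ℕ → Finset (Finset (Fin w × Fin q)) := fun D =>
    (univ.filter fun S : Finset V => (Joined G S ∧ Joined G Sᶜ) ∧
      2 * S.card ≤ Fintype.card V ∧ dd G S = D).image XX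
  let L : Finset ℕ := (range (Fintype.card (V × V) + 1)).filter fun D => D₁ ≤ D
  have hXXtr : ∀ S S' : Finset V, (∀ v ∈ (univ : Finset (Fin w × Fin q)).biUnion fun p =>
      Bl G.Adj ρ (u p.1 p.2), (v ∈ S ↔ v ∈ S')) → XX S = XX S' := by
    intro S S' h
    ext p
    simp only [XX, mem_filter, mem_univ, true_and]
    have hb : ∀ x ∈ Bl G.Adj ρ (u p.1 p.2), (x ∈ S ↔ x ∈ S') := fun x hx =>
      h x (mem_biUnion.2 ⟨p, mem_univ _, hx⟩)
    unfold Spl
    refine exists_congr fun x => and_congr_right fun hx => not_congr ?_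
    rw [hb x hx, hb _ (Bl_self ρ _)]
  have hloc : ∀ D, D₁ ≤ D → ∀ i : Fin w,
      (((F D).filter fun X => ∃ a, (i, a) ∈ X).card : ℝ) ≤
        3 * 2 ^ ρ * (q : ℝ) * Real.exp (κ' * D) := by
    intro D hD i
    let P : Finset V := (univ : Finset (Fin q)).biUnion fun a => Bl G.Adj ρ (u i a)
    let Fam : V → Finset (Finset (Fin w × Fin q)) := fun t₀ => (F D).filter fun X =>
      ∃ S : Finset V, (t₀ ∈ S ∧ 2 * S.card ≤ Fintype.card V ∧ Joined G S ∧ Joined G Sᶜ ∧
        Clo id S ∧ dd G S = D) ∧ XX S = X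
    have hFam : ∀ t₀, ((Fam t₀).card : ℝ) ≤ Real.exp (κ' * D) := by
      intro t₀
      have hex : ∀ X : Finset (Fin w × Fin q), ∃ S : Finset V, X ∈ Fam t₀ →
          ((t₀ ∈ S ∧ 2 * S.card ≤ Fintype.card V ∧ Joined G S ∧ Joined G Sᶜ ∧
            Clo id S ∧ dd G S = D) ∧ XX S = X) := by
        intro X
        by_cases hX : X ∈ Fam t₀
        · obtain ⟨S, hS⟩ := (mem_filter.1 hX).2
          exact ⟨S, fun _ => hS⟩
        · exact ⟨∅, fun h => absurd h hX⟩
      choose g hg using hex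
      have hcard : ((Fam t₀).image g).card = (Fam t₀).card := by
        refine card_image_of_injOn ?_
        intro X hX X' hX' he
        have he' : g X = g X' := he
        rw [← (hg X hX).2, ← (hg X' hX').2, he']
      rw [← hcard]
      have h1 := hloc₀ t₀ D ((Fam t₀).image g) hD
        (by
          intro S hS
          obtain ⟨X, hX, rfl⟩ := mem_image.1 hS
          exact (hg X hX).1)
        (by
          intro S hS S' hS' htr
          obtain ⟨X, hX, rfl⟩ := mem_image.1 hS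
          obtain ⟨X', hX', rfl⟩ := mem_image.1 hS'
          have h1 := hXXtr _ _ htr
          rw [(hg X hX).2, (hg X' hX').2] at h1
          rw [h1])
      refine h1.trans (Real.exp_le_exp.2 ?_)
      exact mul_le_mul_of_nonneg_right (le_max_left _ _) (Nat.cast_nonneg _)
    have hsub : ((F D).filter fun X => ∃ a, (i, a) ∈ X) ⊆ P.biUnion Fam := by
      intro X hX
      obtain ⟨hXF, a, ha⟩ := mem_filter.1 hX
      obtain ⟨S, hS, rfl⟩ := mem_image.1 hXF
      have hS' := (mem_filter.1 hS).2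
      obtain ⟨x, y, hx, hy, -, h1, h2⟩ := exists_cut_of_spl (mem_filter.1 ha).2
      refine mem_biUnion.2 ⟨x, mem_biUnion.2 ⟨a, mem_univ _, hx⟩,
        mem_filter.2 ⟨hXF, S, ⟨h1, hS'.2.1, hS'.1.1, hS'.1.2, ?_, hS'.2.2⟩, rfl⟩⟩
      intro x y hxy
      have : x = y := hxy
      rw [this]
    have hP : P.card ≤ q * (3 * 2 ^ ρ) := by
      refine (card_biUnion_le_card_mul _ _ (3 * 2 ^ ρ) ?_).trans (by simp)
      intro a _
      have := Bl_card G h3 ρ (u i a)
      omega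
    have hPr : (P.card : ℝ) ≤ q * (3 * 2 ^ ρ) := by exact_mod_cast hP
    calc (((F D).filter fun X => ∃ a, (i, a) ∈ X).card : ℝ)
        ≤ ((P.biUnion Fam).card : ℝ) := by exact_mod_cast card_le_card hsub
      _ ≤ ∑ t₀ ∈ P, ((Fam t₀).card : ℝ) := by exact_mod_cast card_biUnion_le
      _ ≤ ∑ t₀ ∈ P, Real.exp (κ' * D) := sum_le_sum fun t₀ _ => hFam t₀
      _ = P.card * Real.exp (κ' * D) := by rw [sum_const, nsmul_eq_mul]
      _ ≤ (q * (3 * 2 ^ ρ)) * Real.exp (κ' * D) :=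
          mul_le_mul_of_nonneg_right hPr (Real.exp_pos _).le
      _ = 3 * 2 ^ ρ * (q : ℝ) * Real.exp (κ' * D) := by ring
  obtain ⟨a, ha⟩ := choose_local (I := Fin w) (A := Fin q) L F (fun D => D) (fun D => D / h + 1)
    (fun _ _ => Nat.le_add_left 1 _)
    (by
      intro D _ X hX
      obtain ⟨S, hS, rfl⟩ := mem_image.1 hX
      have hS' := (mem_filter.1 hS).2
      have := spl_card (κ := Fin w × Fin q) (fun p => u p.1 p.2)
        (fun x y hxy => hu x.1 x.2 y.1 y.2 hxy) S (XX S) fun x hx => (mem_filter.1 hx).2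
      rw [hS'.2.2] at this
      exact this)
    (by
      intro i
      refine le_trans (sum_le_sum fun D hD => ?_) (sum_third L fun D hD =>
        hk1.trans (hD₁.trans (mem_filter.1 hD).2))
      rw [Fintype.card_fin]
      refine le_trans ?_ (pick_num hh (hD₁.trans (mem_filter.1 hD).2) (by linarith) hq hk')
      have h1 := hloc D (mem_filter.1 hD).2 i
      refine mul_le_mul_of_nonneg_right (mul_le_mul_of_nonneg_right
        (le_trans (le_of_eq ?_) h1) (by positivity)) (by positivity)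
      congr!)
  refine ⟨a, ?_⟩
  have key : ∀ S, Joined G S → Joined G Sᶜ → 2 * S.card ≤ Fintype.card V → D₁ ≤ dd G S →
      ∀ A : Finset (Fin w), (∀ i ∈ A, Spl G ρ S (u i (a i))) → h * A.card ≤ dd G S := by
    intro S hS hSc hS2 hkS A hA
    have hL : dd G S ∈ L := by
      refine mem_filter.2 ⟨mem_range.2 ?_, hkS⟩
      have : dd G S ≤ Fintype.card (V × V) := card_le_univ _
      omega
    have h1 := ha (dd G S) hL (XX S)
      (mem_image.2 ⟨S, mem_filter.2 ⟨mem_univ _, ⟨hS, hSc⟩, hS2, rfl⟩, rfl⟩)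
    have h2 : A ⊆ (univ.filter fun i => (i, a i) ∈ XX S) := by
      intro i hi
      exact mem_filter.2 ⟨mem_univ _, mem_filter.2 ⟨mem_univ _, hA i hi⟩⟩
    have h4 := card_le_card h2
    have h3 : A.card ≤ dd G S / h := by omega
    calc h * A.card ≤ h * (dd G S / h) := Nat.mul_le_mul_left _ h3
      _ ≤ dd G S := Nat.mul_div_le _ _
  intro S hS hSc hkS A hA
  by_cases h2 : 2 * S.card ≤ Fintype.card V
  · exact key S hS hSc h2 hkS A hA
  · have h4 : 2 * Sᶜ.card ≤ Fintype.card V := by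
      rw [card_compl]
      omega
    have := key Sᶜ hSc (by rw [compl_compl]; exact hS) h4 (by rw [dd_compl]; exact hkS) A
      (fun i hi => spl_compl.2 (hA i hi))
    rw [dd_compl] at this
    exact this

end Pool.Agent.Iso5
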