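import Mathlib
import Pool.Agent.Work.MP_974d84_co_log.Cluster

/-!
# The local cluster lemma

Bonds through a given vertex, counted by merging the smallest class of a partition along all its
boundary edges.
-/

set_option linter.unusedSectionVars false

namespace Pool.Agent.Iso5

open Finset SimpleGraph
open Pool.Agent.Exp Pool.Agent.Log5 Pool.Agent.Log5.Clu
open Pool.Agent.Work.MP_314beb_co

/-- The merging inequality, from the value of `D`. -/
theorem merge_num {m q : ℕ} (hq : q + 1 ≤ m) {D : ℝ}
    (hD : Real.log m ≤ ((m : ℝ) - 1) * D) : (m : ℝ) ≤ ((m : ℝ) - q) * Real.exp (q * D) := by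
  have hm1' : (1 : ℝ) ≤ m := by exact_mod_cast (by omega : 1 ≤ m)
  rcases Nat.lt_or_ge 1 m with hm | hm
  swap
  · have h1 : m = 1 := by omega
    have h2 : q = 0 := by omega
    subst h1
    subst h2
    simp
  have hm1 : (1 : ℝ) < m := by exact_mod_cast hm
  have hm0 : (0 : ℝ) < (m : ℝ) - 1 := by linarith
  have hqm : (q : ℝ) ≤ (m : ℝ) - 1 := by
    have : ((q + 1 : ℕ) : ℝ) ≤ m := by exact_mod_cast hq
    push_cast at this; linarith
  set t : ℝ := q / ((m : ℝ) - 1) with ht
  have ht0 : 0 ≤ t := by positivity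
  have ht1 : t ≤ 1 := by rw [ht, div_le_one hm0]; exact hqm
  have hAG := Real.geom_mean_le_arith_mean2_weighted (w₁ := 1 - t) (w₂ := t) (p₁ := (m : ℝ))
    (p₂ := 1) (by linarith) ht0 (by linarith) (by norm_num) (by ring)
  rw [Real.one_rpow, mul_one, mul_one] at hAG
  have e1 : (1 - t) * (m : ℝ) + t = (m : ℝ) - q := by
    have : t * ((m : ℝ) - 1) = q := by rw [ht]; field_simp
    linarith
  rw [e1] at hAG
  have h2 : (m : ℝ) ^ t ≤ Real.exp (q * D) := by
    rw [Real.rpow_def_of_pos (by linarith)]
    apply Real.exp_le_exp.2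
    have : (q : ℝ) * D = t * (((m : ℝ) - 1) * D) := by rw [ht]; field_simp
    rw [this, mul_comm]
    exact mul_le_mul_of_nonneg_left hD ht0
  have h3 : (m : ℝ) ^ (1 - t) * (m : ℝ) ^ t = m := by
    rw [← Real.rpow_add (by linarith)]
    simp
  calc (m : ℝ) = (m : ℝ) ^ (1 - t) * (m : ℝ) ^ t := h3.symm
    _ ≤ ((m : ℝ) - q) * Real.exp (q * D) := by
        refine mul_le_mul hAG h2 (by positivity) ?_
        linarith

variable {V : Type} [Fintype V] [DecidableEq V] (G : SimpleGraph V) [DecidableRel G.Adj]

/-- Potential of an edge. -/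
def gh (h : ℕ → ℝ) (c : V → V) (p : V × V) : ℝ :=
  h (cls c p.1).card + h (cls c p.2).card

/-- Potential of a vertex set. -/
def PhiH (h : ℕ → ℝ) (c : V → V) (S : Finset V) : ℝ := ∑ p ∈ cut G S, gh h c p

variable {G}

theorem PhiH_compl (h : ℕ → ℝ) (c : V → V) (S : Finset V) : PhiH G h c Sᶜ = PhiH G h c S := by
  unfold PhiH
  rw [cut_compl, sum_image (fun a _ b _ h => Prod.swap_injective h)]
  exact sum_congr rfl fun p _ => by unfold gh; simp [add_comm]

theorem PhiH_nonneg {h : ℕ → ℝ} (h0 : ∀ a, 0 ≤ h a) (c : V → V) (S : Finset V) :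
    0 ≤ PhiH G h c S := sum_nonneg fun p _ => add_nonneg (h0 _) (h0 _)

/-- The potential for classes of size at least `K`. -/
theorem PhiH_le {h : ℕ → ℝ} (hanti : ∀ a b, 1 ≤ a → a ≤ b → h b ≤ h a) {K : ℕ} (hK : 1 ≤ K)
    {c : V → V} (hc : ∀ x, K ≤ (cls c x).card) (S : Finset V) :
    PhiH G h c S ≤ 2 * h K * dd G S := by
  unfold PhiH dd
  have h1 : ∀ p ∈ cut G S, gh h c p ≤ 2 * h K := by
    intro p _
    unfold gh
    have h2 := hanti K _ hK (hc p.1)
    have h3 := hanti K _ hK (hc p.2)
    linarith
  refine (sum_le_sum h1).trans (le_of_eq ?_)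
  rw [sum_const, nsmul_eq_mul, mul_comm]

theorem PhiH_merge_aux {h : ℕ → ℝ} (hanti : ∀ a b, 1 ≤ a → a ≤ b → h b ≤ h a) {c : V → V}
    {x0 y : V} (hy : c y ≠ c x0) (hsm : (cls c x0).card ≤ (cls c y).card) {S : Finset V}
    (hAS : cls c x0 ⊆ S) :
    PhiH G h (mrg c x0 y) S
      + (qq G (cls c x0) S).card * (h (cls c x0).card - h (2 * (cls c x0).card))
      ≤ PhiH G h c S := by
  set A := cls c x0 with hA
  have hmono : ∀ z, h (cls (mrg c x0 y) z).card ≤ h (cls c z).card := fun z =>
    hanti _ _ (cls_card_pos c z) (card_le_card (cls_sub_mrg c x0 y z))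
  have hAz : ∀ z ∈ A, h (cls (mrg c x0 y) z).card + (h A.card - h (2 * A.card))
      ≤ h (cls c z).card := by
    intro z hz
    have hz' : c z = c x0 := mem_cls.1 hz
    have h1 : cls c z = A := by ext w; rw [mem_cls, hA, mem_cls, hz']
    have h2 : cls (mrg c x0 y) z = A ∪ cls c y := cls_mrg_of (Or.inl hz')
    have h3 : Disjoint A (cls c y) := by
      rw [Finset.disjoint_left]
      intro w hw hw'
      rw [hA, mem_cls] at hw
      rw [mem_cls] at hw'
      exact hy (hw'.symm.trans hw)
    rw [h1, h2, card_union_of_disjoint h3]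
    have h4 : h (A.card + (cls c y).card) ≤ h (2 * A.card) := by
      apply hanti
      · have := cls_card_pos c x0
        rw [← hA] at this
        omega
      · omega
    linarith
  have hQ : qq G A S = (cut G S).filter fun p => p.1 ∈ A := by
    ext p
    unfold qq
    rw [mem_filter, mem_filter, mem_cut, mem_cut]
    constructor
    · rintro ⟨⟨h1, h2, h3⟩, h4⟩
      have h5 : p.1 ∈ S := hAS h1
      have h6 : p.2 ∉ S := fun h => h4 ⟨fun _ => h, fun _ => h5⟩
      exact ⟨⟨h5, h6, h3⟩, h1⟩
    · rintro ⟨⟨h1, h2, h3⟩, h4⟩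
      exact ⟨⟨h4, fun h => h2 (hAS h), h3⟩, fun h => h2 (h.1 h1)⟩
  have h1 : ∀ p ∈ cut G S, gh h (mrg c x0 y) p
      + (if p.1 ∈ A then (h A.card - h (2 * A.card)) else 0) ≤ gh h c p := by
    intro p hp
    unfold gh
    by_cases h5 : p.1 ∈ A
    · rw [if_pos h5]
      have := hAz p.1 h5
      have := hmono p.2
      linarith
    · rw [if_neg h5]
      have := hmono p.1
      have := hmono p.2
      linarith
  have h2 := sum_le_sum h1
  rw [sum_add_distrib, ← sum_filter, sum_const, nsmul_eq_mul, ← hQ] at h2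
  exact h2

theorem PhiH_merge {h : ℕ → ℝ} (hanti : ∀ a b, 1 ≤ a → a ≤ b → h b ≤ h a) {c : V → V}
    {x0 y : V} (hy : c y ≠ c x0) (hsm : (cls c x0).card ≤ (cls c y).card) {S : Finset V}
    (hAS : cls c x0 ⊆ S ∨ cls c x0 ⊆ Sᶜ) :
    PhiH G h (mrg c x0 y) S
      + (qq G (cls c x0) S).card * (h (cls c x0).card - h (2 * (cls c x0).card))
      ≤ PhiH G h c S := by
  rcases hAS with h' | h'
  · exact PhiH_merge_aux hanti hy hsm h'
  · have := PhiH_merge_aux (G := G) hanti hy hsm h'
    rwa [PhiH_compl, PhiH_compl, qq_compl] at this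

/-- The number of doublings which are left. -/
def Lg (N a : ℕ) : ℕ := if a < N then Nat.log 2 N + 1 - Nat.log 2 a else 0

theorem Lg_pos {N a : ℕ} (h : a < N) : 1 ≤ Lg N a := by
  unfold Lg
  rw [if_pos h]
  have := Nat.log_mono_right (b := 2) h.le
  omega

theorem Lg_anti {N a b : ℕ} (h : a ≤ b) : Lg N b ≤ Lg N a := by
  unfold Lg
  have := Nat.log_mono_right (b := 2) h
  split_ifs <;> omega

theorem Lg_double {N a b : ℕ} (ha : 1 ≤ a) (haN : a < N) (h : 2 * a ≤ b) :
    Lg N b + 1 ≤ Lg N a := by
  have h1 : Nat.log 2 (2 * a) = Nat.log 2 a + 1 := by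
    rw [mul_comm]
    exact Nat.log_mul_base (by norm_num) (by omega)
  have h2 := Nat.log_mono_right (b := 2) h
  have h3 := Nat.log_mono_right (b := 2) haN.le
  unfold Lg
  rw [if_pos haN]
  split_ifs with h4
  · have h5 := Nat.log_mono_right (b := 2) h4.le
    omega
  · omega

theorem Lg_le {N a : ℕ} : Lg N a ≤ Nat.log 2 N + 1 := by
  unfold Lg
  split_ifs <;> omega

open Classical in
/-- The local cluster lemma. -/
theorem local_cluster_aux {h : ℕ → ℝ} (h0 : ∀ a, 0 ≤ h a)
    (hanti : ∀ a b, 1 ≤ a → a ≤ b → h b ≤ h a) {K N : ℕ}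
    (hstep : ∀ A : Finset V, A.Nonempty → Joined G A → K ≤ A.card → A.card < N →
      2 * A.card ≤ Fintype.card V → ∀ q : ℕ, q + 1 ≤ dd G A →
      (dd G A : ℝ) ≤ ((dd G A : ℝ) - q) * Real.exp (q * (h A.card - h (2 * A.card))))
    (hpos : ∀ A : Finset V, A.Nonempty → Aᶜ.Nonempty → 1 ≤ dd G A)
    (t0 : V) (Fam : Finset (Finset V))
    (hF : ∀ S ∈ Fam, t0 ∈ S ∧ Joined G S ∧ Joined G Sᶜ ∧ 2 * S.card ≤ Fintype.card V)
    {c0 : V → V} {M : ℝ} (hM0 : 0 ≤ M)
    (hM : ∀ c : V → V, (∀ x, Joined G (cls c x)) → (∀ x, N ≤ (cls c x).card) →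
      (∀ x, cls c0 x ⊆ cls c x) → ((Fam.filter fun S => Clo c S).card : ℝ) ≤ M) :
    ∀ n : ℕ, ∀ c : V → V, (univ.image c).card ≤ n → (∀ x, Joined G (cls c x)) →
      (∀ x, K ≤ (cls c x).card) → (∀ x, cls c0 x ⊆ cls c x) →
      ∑ S ∈ Fam.filter (fun S => Clo c S), Real.exp (- PhiH G h c S)
        ≤ M + Lg N (cls c t0).card := by
  intro n
  induction n with
  | zero =>
    intro c hc hj _ _
    have h0 : univ.image c = (∅ : Finset V) := card_eq_zero.1 (by omega)
    have : c t0 ∈ (∅ : Finset V) := h0 ▸ mem_image_of_mem c (mem_univ t0)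
    simp at this
  | succ n ih =>
    intro c hc hj hcK hc0
    have hLg0 : (0 : ℝ) ≤ Lg N (cls c t0).card := Nat.cast_nonneg _
    by_cases hbig : ∀ x, N ≤ (cls c x).card
    · refine (le_trans ?_ (hM c hj hbig hc0)).trans (by linarith)
      rw [← nsmul_one, ← sum_const]
      refine sum_le_sum fun S _ => ?_
      rw [← Real.exp_zero]
      apply Real.exp_le_exp.2
      have := PhiH_nonneg (G := G) h0 c S
      linarith
    push Not at hbig
    obtain ⟨x1, hx1⟩ := hbig
    obtain ⟨x0, -, hx0⟩ := exists_min_image (univ : Finset V) (fun x => (cls c x).card)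
      ⟨x1, mem_univ x1⟩
    have hx0N : (cls c x0).card < N := lt_of_le_of_lt (hx0 x1 (mem_univ x1)) hx1
    set A := cls c x0 with hA
    have hAne : A.Nonempty := ⟨x0, self_mem_cls c x0⟩
    have hs1 : 1 ≤ A.card := hAne.card_pos
    have hAlab : ∀ z, z ∈ A ↔ c z = c x0 := fun z => mem_cls
    -- two classes
    by_cases h2n : Fintype.card V < 2 * A.card
    · -- one class only
      have hone : ∀ z, c z = c x0 := by
        intro z
        by_contra hne
        have h1 := hx0 z (mem_univ z)
        have h2 : Disjoint A (cls c z) := by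
          rw [Finset.disjoint_left]
          intro w hw hw'
          rw [hAlab] at hw
          rw [mem_cls] at hw'
          exact hne (hw'.symm.trans hw)
        have h3 := card_le_univ (A ∪ cls c z)
        rw [card_union_of_disjoint h2] at h3
        omega
      have hemp : Fam.filter (fun S => Clo c S) = ∅ := by
        rw [filter_eq_empty_iff]
        intro S hS hcl
        obtain ⟨k1, -, -, k4⟩ := hF S hS
        have hSu : S = univ := by
          rw [eq_univ_iff_forall]
          intro z
          exact (hcl z t0 ((hone z).trans (hone t0).symm)).2 k1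
        rw [hSu, card_univ] at k4
        have : 0 < Fintype.card V := Fintype.card_pos_iff.2 ⟨t0⟩
        omega
      rw [hemp, sum_empty]
      linarith
    push Not at h2n
    have hAc : Aᶜ.Nonempty := by
      rw [← card_pos]
      have := card_add_card_compl A
      omega
    set m := dd G A with hmdef
    have hm0 : 1 ≤ m := hpos A hAne hAc
    by_cases hAS : ∃ S ∈ Fam, Clo c S ∧ Sᶜ = A
    · -- two classes: the family is a single set
      obtain ⟨S0, hS0, hS0c, hS0A⟩ := hAS
      obtain ⟨k1, k2, k3, k4⟩ := hF S0 hS0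
      have hcA : 2 * A.card = Fintype.card V ∧ S0.card = A.card := by
        have h1 := card_add_card_compl S0
        rw [hS0A] at h1
        omega
      have hcls : ∀ z ∉ A, cls c z = S0 := by
        intro z hz
        have hzS : z ∈ S0 := by
          by_contra h
          exact hz (hS0A ▸ mem_compl.2 h)
        refine eq_of_subset_of_card_le ?_ ?_
        · intro w hw
          exact (hS0c w z (mem_cls.1 hw)).2 hzS
        · rw [hcA.2]
          exact hx0 z (mem_univ z)
      have ht0A : t0 ∉ A := by
        rw [← hS0A, mem_compl, not_not]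
        exact k1
      have hsub : Fam.filter (fun S => Clo c S) ⊆ {S0} := by
        intro S hS
        rw [mem_filter] at hS
        obtain ⟨j1, j2, j3, j4⟩ := hF S hS.1
        rw [mem_singleton]
        symm
        refine eq_of_subset_of_card_le ?_ ?_
        · intro w hw
          rw [← hcls t0 ht0A, mem_cls] at hw
          exact (hS.2 w t0 hw).2 j1
        · omega
      have h1 : ∑ S ∈ Fam.filter (fun S => Clo c S), Real.exp (- PhiH G h c S) ≤ 1 := by
        refine (sum_le_sum_of_subset_of_nonneg hsub fun _ _ _ => (Real.exp_pos _).le).trans ?_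
        rw [sum_singleton, ← Real.exp_zero]
        apply Real.exp_le_exp.2
        have := PhiH_nonneg (G := G) h0 c S0
        linarith
      have h2 : (1 : ℝ) ≤ Lg N (cls c t0).card := by
        rw [hcls t0 ht0A, hcA.2]
        exact_mod_cast Lg_pos hx0N
      linarith
    push Not at hAS
    -- merged partitions
    set L' : ℝ := (Lg N (cls c t0).card : ℝ) - (if t0 ∈ A then 1 else 0) with hL'
    have hstep' : ∀ p ∈ cut G A,
        ∑ S ∈ Fam.filter (fun S => Clo (mrg c x0 p.2) S), Real.exp (- PhiH G h (mrg c x0 p.2) S)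
          ≤ M + L' := by
      intro p hp
      rw [mem_cut] at hp
      have hne : c x0 ≠ c p.2 := fun h => hp.2.1 ((hAlab _).2 h.symm)
      have hih := ih (mrg c x0 p.2) (by have := mrg_card hne; omega)
        (by
          intro z
          by_cases hz : c z = c x0 ∨ c z = c p.2
          · rw [cls_mrg_of hz]
            exact joined_union (hj x0) (hj p.2) hp.1 (self_mem_cls c p.2) hp.2.2
          · push Not at hz
            rw [cls_mrg_of_not hz.1 hz.2]
            exact hj z)
        (fun z => (hcK z).trans (card_le_card (cls_sub_mrg c x0 p.2 z)))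
        (fun z => (hc0 z).trans (cls_sub_mrg c x0 p.2 z))
      refine hih.trans ?_
      have h1 : (Lg N (cls (mrg c x0 p.2) t0).card : ℝ) ≤ L' := by
        rw [hL']
        by_cases ht : t0 ∈ A
        · rw [if_pos ht]
          have ht' := (hAlab t0).1 ht
          have e1 : cls c t0 = A := by ext w; rw [mem_cls, hAlab, ht']
          have e2 : cls (mrg c x0 p.2) t0 = A ∪ cls c p.2 := cls_mrg_of (Or.inl ht')
          have e3 : Disjoint A (cls c p.2) := by
            rw [Finset.disjoint_left]
            intro w hw hw'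
            rw [hAlab] at hw
            rw [mem_cls] at hw'
            exact hne (hw.symm.trans hw')
          have e4 : 2 * A.card ≤ (cls (mrg c x0 p.2) t0).card := by
            rw [e2, card_union_of_disjoint e3]
            have := hx0 p.2 (mem_univ _)
            omega
          have e5 := Lg_double hs1 hx0N e4
          rw [e1]
          have : ((Lg N (cls (mrg c x0 p.2) t0).card + 1 : ℕ) : ℝ) ≤ Lg N A.card := by
            exact_mod_cast e5
          push_cast at this
          linarith
        · rw [if_neg ht, sub_zero]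
          exact_mod_cast Lg_anti (card_le_card (cls_sub_mrg c x0 p.2 t0))
      linarith
    -- each closed set
    have hS : ∀ S ∈ Fam.filter (fun S => Clo c S), (m : ℝ) * Real.exp (- PhiH G h c S)
        ≤ (∑ p ∈ cut G A, if Clo (mrg c x0 p.2) S then Real.exp (- PhiH G h (mrg c x0 p.2) S)
          else 0) + (if S = A then (m : ℝ) else 0) := by
      intro S hS
      rw [mem_filter] at hS
      obtain ⟨hSF, hSc⟩ := hS
      obtain ⟨ht0S, hj1, hj2, hk1⟩ := hF S hSF
      have hnn : 0 ≤ ∑ p ∈ cut G A, if Clo (mrg c x0 p.2) S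
          then Real.exp (- PhiH G h (mrg c x0 p.2) S) else 0 :=
        sum_nonneg fun p _ => by
          split
          · positivity
          · exact le_refl _
      by_cases hSA : S = A
      · rw [if_pos hSA]
        have h1 : Real.exp (- PhiH G h c S) ≤ 1 := by
          rw [← Real.exp_zero]
          apply Real.exp_le_exp.2
          have := PhiH_nonneg (G := G) h0 c S
          linarith
        have h2 : (m : ℝ) * Real.exp (- PhiH G h c S) ≤ m * 1 :=
          mul_le_mul_of_nonneg_left h1 (Nat.cast_nonneg _)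
        linarith
      rw [if_neg hSA, add_zero]
      have hsplit : A ⊆ S ∨ A ⊆ Sᶜ := by
        by_cases h : x0 ∈ S
        · left
          intro z hz
          exact (hSc z x0 ((hAlab z).1 hz)).2 h
        · right
          intro z hz
          rw [mem_compl]
          exact fun hz' => h ((hSc z x0 ((hAlab z).1 hz)).1 hz')
      have hq : (qq G A S).card + 1 ≤ m := by
        have key : ∀ T : Finset V, A ⊆ T → Joined G T → A ≠ T → (qq G A T).card + 1 ≤ m := by
          intro T hAT hT hKT
          obtain ⟨u, hu, v, hv, hvA, huv⟩ := hT A hAT hAne hKT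
          have h1 : (u, v) ∈ cut G A := (mem_cut G).2 ⟨hu, hvA, huv⟩
          have h2 : qq G A T ⊂ cut G A := by
            refine (ssubset_iff_of_subset (filter_subset _ _)).2 ⟨(u, v), h1, ?_⟩
            rw [mem_filter]
            rintro ⟨-, h⟩
            exact h ⟨fun _ => hv, fun _ => hAT hu⟩
          have := card_lt_card h2
          rw [hmdef]
          unfold dd
          omega
        rcases hsplit with h | h
        · exact key S h hj1 (Ne.symm hSA)
        · have := key Sᶜ h hj2 (fun he => hAS S hSF hSc he.symm)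
          rwa [qq_compl] at this
      set q := (qq G A S).card with hqdef
      set D := h A.card - h (2 * A.card) with hD
      have hmi := hstep A hAne (hj x0) (hcK x0) hx0N h2n q hq
      have h1 : ∑ p ∈ cut G A \ qq G A S, Real.exp (- PhiH G h c S + q * D)
          ≤ ∑ p ∈ cut G A, if Clo (mrg c x0 p.2) S then Real.exp (- PhiH G h (mrg c x0 p.2) S)
            else 0 := by
        refine le_trans (sum_le_sum fun p hp => ?_)
          (sum_le_sum_of_subset_of_nonneg sdiff_subset fun p _ _ => by
            split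
            · positivity
            · exact le_refl _)
        rw [mem_sdiff] at hp
        obtain ⟨hp1, hp2⟩ := hp
        have hp3 : p.1 ∈ S ↔ p.2 ∈ S := by
          by_contra h
          exact hp2 (mem_filter.2 ⟨hp1, h⟩)
        rw [mem_cut] at hp1
        have hclo : Clo (mrg c x0 p.2) S := by
          rw [clo_mrg]
          refine ⟨hSc, ?_⟩
          rw [← hp3]
          exact (hSc x0 p.1 ((hAlab p.1).1 hp1.1).symm)
        rw [if_pos hclo]
        apply Real.exp_le_exp.2
        have := PhiH_merge (G := G) hanti (c := c) (x0 := x0) (y := p.2)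
          (fun h => hp1.2.1 ((hAlab _).2 h)) (hx0 p.2 (mem_univ _)) (S := S) hsplit
        linarith
      refine le_trans ?_ h1
      have hqsub : qq G A S ⊆ cut G A := filter_subset _ _
      rw [sum_const, nsmul_eq_mul, card_sdiff_of_subset hqsub]
      have h2 : (((cut G A).card - (qq G A S).card : ℕ) : ℝ) = (m : ℝ) - q := by
        rw [Nat.cast_sub (card_le_card hqsub)]
        rfl
      rw [h2, Real.exp_add]
      calc (m : ℝ) * Real.exp (- PhiH G h c S)
          ≤ (((m : ℝ) - q) * Real.exp (q * D)) * Real.exp (- PhiH G h c S) :=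
            mul_le_mul_of_nonneg_right hmi (Real.exp_pos _).le
        _ = ((m : ℝ) - q) * (Real.exp (- PhiH G h c S) * Real.exp (q * D)) := by ring
    have hsum : (m : ℝ) * ∑ S ∈ Fam.filter (fun S => Clo c S), Real.exp (- PhiH G h c S)
        ≤ (m : ℝ) * (M + Lg N (cls c t0).card) := by
      rw [mul_sum]
      refine (sum_le_sum hS).trans ?_
      rw [sum_add_distrib, sum_comm]
      have h1 : ∀ p ∈ cut G A, (∑ S ∈ Fam.filter (fun S => Clo c S),
          if Clo (mrg c x0 p.2) S then Real.exp (- PhiH G h (mrg c x0 p.2) S) else 0)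
            ≤ M + L' := by
        intro p hp
        refine le_trans ?_ (hstep' p hp)
        rw [← sum_filter]
        refine sum_le_sum_of_subset_of_nonneg ?_ fun S _ _ => (Real.exp_pos _).le
        intro S hS
        rw [mem_filter, mem_filter] at hS
        exact mem_filter.2 ⟨hS.1.1, hS.2⟩
      have h2 : ∑ S ∈ Fam.filter (fun S => Clo c S), (if S = A then (m : ℝ) else 0)
          ≤ if t0 ∈ A then (m : ℝ) else 0 := by
        rw [← sum_filter]
        by_cases ht : t0 ∈ A
        · rw [if_pos ht]
          have hsub : (Fam.filter fun S => Clo c S).filter (fun S => S = A) ⊆ {A} := by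
            intro S hS
            rw [mem_singleton]
            exact (mem_filter.1 hS).2
          refine (sum_le_sum_of_subset_of_nonneg hsub fun _ _ _ => Nat.cast_nonneg _).trans ?_
          rw [sum_singleton]
        · rw [if_neg ht]
          refine le_of_eq (sum_eq_zero fun S hS => ?_)
          rw [mem_filter, mem_filter] at hS
          exact absurd (hS.2 ▸ (hF S hS.1.1).1) ht
      have h3 := add_le_add (sum_le_sum h1) h2
      refine h3.trans (le_of_eq ?_)
      rw [sum_const, nsmul_eq_mul, hL']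
      have h4 : ((cut G A).card : ℝ) = m := rfl
      rw [h4]
      split_ifs <;> ring
    have hm0' : (0 : ℝ) < m := by exact_mod_cast hm0
    exact le_of_mul_le_mul_left hsum hm0'

open Classical in
/-- The local cluster lemma. -/
theorem local_cluster {h : ℕ → ℝ} (h0 : ∀ a, 0 ≤ h a)
    (hanti : ∀ a b, 1 ≤ a → a ≤ b → h b ≤ h a) {K N : ℕ}
    (hstep : ∀ A : Finset V, A.Nonempty → Joined G A → K ≤ A.card → A.card < N →
      2 * A.card ≤ Fintype.card V → ∀ q : ℕ, q + 1 ≤ dd G A →
      (dd G A : ℝ) ≤ ((dd G A : ℝ) - q) * Real.exp (q * (h A.card - h (2 * A.card))))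
    (hpos : ∀ A : Finset V, A.Nonempty → Aᶜ.Nonempty → 1 ≤ dd G A)
    (t0 : V) (Fam : Finset (Finset V))
    (hF : ∀ S ∈ Fam, t0 ∈ S ∧ Joined G S ∧ Joined G Sᶜ ∧ 2 * S.card ≤ Fintype.card V)
    {c0 : V → V} (hc0 : ∀ x, Joined G (cls c0 x)) (hcK : ∀ x, K ≤ (cls c0 x).card)
    {M : ℝ} (hM0 : 0 ≤ M)
    (hM : ∀ c : V → V, (∀ x, Joined G (cls c x)) → (∀ x, N ≤ (cls c x).card) →
      (∀ x, cls c0 x ⊆ cls c x) → ((Fam.filter fun S => Clo c S).card : ℝ) ≤ M) :
    ∑ S ∈ Fam.filter (fun S => Clo c0 S), Real.exp (- PhiH G h c0 S)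
      ≤ M + (Nat.log 2 N + 1 : ℕ) := by
  refine (local_cluster_aux h0 hanti hstep hpos t0 Fam hF hM0 hM _ c0 le_rfl hc0 hcK
    (fun x => Subset.refl _)).trans ?_
  have h1 : (Lg N (cls c0 t0).card : ℝ) ≤ ((Nat.log 2 N + 1 : ℕ) : ℝ) := by
    exact_mod_cast Lg_le
  linarith

end Pool.Agent.Iso5
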