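import Mathlib
import Pool.Agent.Work.MP_974d84_co_iso.LocalCluster

/-!
# The potential for squared logarithmic isoperimetry
-/

set_option linter.unusedSectionVars false

namespace Pool.Agent.Iso5

open Finset SimpleGraph
open Pool.Agent.Exp Pool.Agent.Log5 Pool.Agent.Log5.Clu
open Pool.Agent.Work.MP_314beb_co

/-- The potential. -/
noncomputable def hI (c : ℝ) (a : ℕ) : ℝ := hh a + c / Real.sqrt (1 + Real.log a)

theorem log_nat_nonneg (a : ℕ) : 0 ≤ Real.log (a : ℝ) := Real.log_natCast_nonneg a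

theorem hI_nonneg {c : ℝ} (hc : 0 ≤ c) (a : ℕ) : 0 ≤ hI c a := by
  unfold hI
  have := hh_nonneg a
  positivity

theorem hI_anti {c : ℝ} (hc : 0 ≤ c) (a b : ℕ) (ha : 1 ≤ a) (hab : a ≤ b) : hI c b ≤ hI c a := by
  unfold hI
  have h1 := hh_anti ha hab
  have h2 : Real.log (a : ℝ) ≤ Real.log b :=
    Real.log_le_log (by exact_mod_cast ha) (by exact_mod_cast hab)
  have h3 : (0 : ℝ) < Real.sqrt (1 + Real.log a) :=
    Real.sqrt_pos.2 (by have := log_nat_nonneg a; linarith)
  have h4 : c / Real.sqrt (1 + Real.log b) ≤ c / Real.sqrt (1 + Real.log a) :=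
    div_le_div_of_nonneg_left hc h3 (Real.sqrt_le_sqrt (by linarith))
  linarith

theorem hI_one (c : ℝ) : hI c 1 = 4 + c := by
  unfold hI
  rw [hh_one]
  simp

/-- `4 log u ≤ 4 (u⁴ - 1) / u³`. -/
theorem log_le_quart {m : ℝ} (hm : 1 ≤ m) :
    Real.log m ≤ (m - 1) * (4 / Real.sqrt (Real.sqrt m) ^ 3) := by
  set u := Real.sqrt (Real.sqrt m) with hu
  have hs : 1 ≤ Real.sqrt m := by
    rw [show (1 : ℝ) = Real.sqrt 1 by simp]; exact Real.sqrt_le_sqrt hm
  have hu1 : 1 ≤ u := by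
    rw [show (1 : ℝ) = Real.sqrt 1 by simp]; exact Real.sqrt_le_sqrt hs
  have hu0 : 0 < u := by linarith
  have e1 : u ^ 2 = Real.sqrt m := Real.sq_sqrt (by linarith)
  have e2 : u ^ 4 = m := by
    have : u ^ 4 = (u ^ 2) ^ 2 := by ring
    rw [this, e1]
    exact Real.sq_sqrt (by linarith)
  have h1 : Real.log m = 4 * Real.log u := by
    rw [← e2, Real.log_pow]; push_cast; ring
  have h2 : Real.log u ≤ u - 1 := Real.log_le_sub_one_of_pos hu0
  have h3 : 4 * (u - 1) ≤ (m - 1) * (4 / u ^ 3) := by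
    rw [← e2, mul_div_assoc', le_div_iff₀ (by positivity)]
    have : (u ^ 4 - 1) * 4 - 4 * (u - 1) * u ^ 3 = 4 * (u - 1) * (u ^ 2 + u + 1) := by ring
    have h5 : 0 ≤ 4 * (u - 1) * (u ^ 2 + u + 1) := by
      have : 0 ≤ u - 1 := by linarith
      positivity
    linarith
  rw [h1]
  linarith

/-- The second part of the potential. -/
theorem sqrt_diff {l : ℝ} (hl : 1 ≤ l) :
    1 / (5 * Real.sqrt l ^ 3) ≤ 1 / Real.sqrt l - 1 / Real.sqrt (l + Real.log 2) := by
  have h20 := Real.log_two_gt_d9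
  have h21 := Real.log_two_lt_d9
  set x := Real.sqrt l with hx
  set y := Real.sqrt (l + Real.log 2) with hy
  have hx0 : 0 < x := Real.sqrt_pos.2 (by linarith)
  have hy0 : 0 < y := Real.sqrt_pos.2 (by linarith)
  have ex : x ^ 2 = l := Real.sq_sqrt (by linarith)
  have ey : y ^ 2 = l + Real.log 2 := Real.sq_sqrt (by linarith)
  have hyx : y ≤ 131 / 100 * x := by
    rw [hy, Real.sqrt_le_left (by positivity)]
    have : (131 / 100 * x) ^ 2 = 17161 / 10000 * x ^ 2 := by ring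
    rw [this, ex]
    linarith
  have e1 : 1 / x - 1 / y = Real.log 2 / (x * y * (x + y)) := by
    have : Real.log 2 = (y - x) * (x + y) := by
      have : (y - x) * (x + y) = y ^ 2 - x ^ 2 := by ring
      rw [this, ex, ey]; ring
    rw [this]
    field_simp
  rw [e1, div_le_div_iff₀ (by positivity) (by positivity)]
  have h1 : x * y * (x + y) ≤ x * (131 / 100 * x) * (x + 131 / 100 * x) := by
    have : 0 ≤ x * y := by positivity
    gcongr
  have h2 : x * (131 / 100 * x) * (x + 131 / 100 * x) = 30261 / 10000 * x ^ 3 := by ring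
  have h3 : 0 < x ^ 3 := by positivity
  nlinarith

/-- The merging inequality for the potential. -/
theorem hI_step {c C : ℝ} (hc : 0 ≤ c) (hC : 0 < C)
    (hcC : 20 ≤ c * Real.sqrt (Real.sqrt C) ^ 3) {a m q : ℕ} (ha : 1 ≤ a)
    (hm : a ≤ m ∨ C * (1 + Real.log a) ^ 2 ≤ m) (hq : q + 1 ≤ m) :
    (m : ℝ) ≤ ((m : ℝ) - q) * Real.exp (q * (hI c a - hI c (2 * a))) := by
  have hm1 : (1 : ℝ) ≤ m := by exact_mod_cast (by omega : 1 ≤ m)
  have hl := log_nat_nonneg a
  have ha0 : (0 : ℝ) < a := by exact_mod_cast ha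
  have e2 : 1 + Real.log ((2 * a : ℕ) : ℝ) = (1 + Real.log a) + Real.log 2 := by
    push_cast
    rw [Real.log_mul (by norm_num) (by positivity)]
    ring
  have hd1 := hh_double ha
  have hd2 := sqrt_diff (l := 1 + Real.log a) (by linarith)
  have hdiff : hI c a - hI c (2 * a) = (hh a - hh (2 * a)) +
      c * (1 / Real.sqrt (1 + Real.log a) - 1 / Real.sqrt ((1 + Real.log a) + Real.log 2)) := by
    unfold hI
    rw [e2]
    ring
  have hx0 : (0 : ℝ) < Real.sqrt (1 + Real.log a) := Real.sqrt_pos.2 (by linarith)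
  have hb : 0 ≤ 1 / Real.sqrt (1 + Real.log a) - 1 / Real.sqrt ((1 + Real.log a) + Real.log 2) :=
    le_trans (by positivity) hd2
  refine merge_num hq ?_
  have hm10 : (0 : ℝ) ≤ (m : ℝ) - 1 := by linarith
  rcases hm with h | h
  · refine (log_le_sqrt hm1).trans ?_
    rw [div_eq_mul_one_div]
    refine mul_le_mul_of_nonneg_left ?_ hm10
    have hs0 : (0 : ℝ) < Real.sqrt a := Real.sqrt_pos.2 ha0
    have h1 : 1 / Real.sqrt (m : ℝ) ≤ 1 / Real.sqrt a :=
      one_div_le_one_div_of_le hs0 (Real.sqrt_le_sqrt (by exact_mod_cast h))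
    have h2 : 0 ≤ c * (1 / Real.sqrt (1 + Real.log a)
      - 1 / Real.sqrt ((1 + Real.log a) + Real.log 2)) := mul_nonneg hc hb
    rw [hdiff]
    linarith
  · refine (log_le_quart hm1).trans ?_
    refine mul_le_mul_of_nonneg_left ?_ hm10
    set x := Real.sqrt (1 + Real.log a) with hx
    set D := Real.sqrt (Real.sqrt C) with hD
    have hD0 : 0 < D := Real.sqrt_pos.2 (Real.sqrt_pos.2 hC)
    have ex : x ^ 2 = 1 + Real.log a := Real.sq_sqrt (by linarith)
    have eD : D ^ 4 = C := by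
      have : D ^ 4 = (D ^ 2) ^ 2 := by ring
      rw [this, hD, Real.sq_sqrt (Real.sqrt_nonneg _), Real.sq_sqrt hC.le]
    have h1 : D * x ≤ Real.sqrt (Real.sqrt m) := by
      apply Real.le_sqrt_of_sq_le
      apply Real.le_sqrt_of_sq_le
      have : ((D * x) ^ 2) ^ 2 = D ^ 4 * (x ^ 2) ^ 2 := by ring
      rw [this, eD, ex]
      exact h
    have h2 : 4 / Real.sqrt (Real.sqrt m) ^ 3 ≤ 4 / (D * x) ^ 3 :=
      div_le_div_of_nonneg_left (by norm_num) (by positivity)
        (pow_le_pow_left₀ (by positivity) h1 3)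
    have h3 : 4 / (D * x) ^ 3 ≤ c * (1 / (5 * x ^ 3)) := by
      rw [mul_one_div, div_le_div_iff₀ (by positivity) (by positivity), mul_pow]
      have hx3 : 0 < x ^ 3 := by positivity
      calc 4 * (5 * x ^ 3) = 20 * x ^ 3 := by ring
        _ ≤ (c * D ^ 3) * x ^ 3 := mul_le_mul_of_nonneg_right hcC hx3.le
        _ = c * (D ^ 3 * x ^ 3) := by ring
    have h4 := mul_le_mul_of_nonneg_left hd2 hc
    have h5 : 0 ≤ hh a - hh (2 * a) := le_trans (by positivity) hd1
    rw [hdiff]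
    linarith

end Pool.Agent.Iso5
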