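import Mathlib
import Pool.Agent.Work.MP_974d84_co_iso.Defs3
import Pool.Agent.Work.MP_974d84_co_log.BigOf

/-!
# Letter P6a: cyclic connectivity from the isoperimetric hypothesis, and averaging
-/

set_option linter.unusedSectionVars false

namespace Pool.Agent.Iso5

open Finset SimpleGraph Pool.Agent.Exp Pool.Agent.Log5 Pool.Agent.Work.MP_314beb_co

variable {V : Type} [Fintype V] [DecidableEq V] {G : SimpleGraph V} [DecidableRel G.Adj]

theorem one_le_min {δ : ℝ} (hδ : 0 < δ) (a w : ℕ) :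
    1 ≤ min ((1 + Real.log a) ^ (1 + δ)) (1 + Real.log w) := by
  have h1 : ∀ n : ℕ, 0 ≤ Real.log (n : ℝ) := fun n => Real.log_natCast_nonneg n
  refine le_min (Real.one_le_rpow (by linarith [h1 a]) (by linarith)) (by linarith [h1 w])

theorem iso_cyc {δ C : ℝ} {w k : ℕ} (hδ : 0 < δ) (hI : Iso G δ C w) (hk : (k : ℝ) ≤ C) :
    CycConn G k := by
  have key : ∀ S : Finset V, 2 * S.card ≤ Fintype.card V → ¬ (G.induce (S : Set V)).IsAcyclic →
      ¬ (G.induce ((Sᶜ : Finset V) : Set V)).IsAcyclic → k ≤ dd G S := by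
    intro S hS h1 h2
    have h3 := hI S hS h1 h2
    have hC : 0 ≤ C := (Nat.cast_nonneg k).trans hk
    have h4 : C ≤ C * min ((1 + Real.log S.card) ^ (1 + δ)) (1 + Real.log w) :=
      le_mul_of_one_le_right hC (one_le_min hδ _ _)
    exact_mod_cast hk.trans (h4.trans h3)
  intro S h1 h2
  by_cases hS : 2 * S.card ≤ Fintype.card V
  · exact key S hS h1 h2
  · rw [← dd_compl]
    refine key Sᶜ ?_ h2 (by rwa [compl_compl])
    have := card_add_card_compl S
    omega

theorem dd_le_symmDiff (h3 : ∀ v, G.degree v = 3) (S S' : Finset V) :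
    dd G S' ≤ dd G S + 3 * (univ.filter fun v => ¬ (v ∈ S ↔ v ∈ S')).card := by
  set Δ : Finset V := univ.filter fun v => ¬ (v ∈ S ↔ v ∈ S') with hΔ
  have hsub : cut G S' ⊆ cut G S ∪
      ((Δ.filter (· ∈ S')).biUnion fun x => (G.neighborFinset x).image fun y => (x, y)) ∪
      ((Δ.filter (· ∉ S')).biUnion fun y => (G.neighborFinset y).image fun x => (x, y)) := by
    rintro ⟨x, y⟩ hp
    rw [mem_cut] at hp
    obtain ⟨hx, hy, hxy⟩ := hp
    simp only at hx hy hxy
    rw [mem_union, mem_union, mem_cut, mem_biUnion, mem_biUnion]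
    by_cases h1 : x ∈ S
    · by_cases h2 : y ∈ S
      · right
        refine ⟨y, ?_, ?_⟩
        · rw [mem_filter, hΔ, mem_filter]
          exact ⟨⟨mem_univ _, fun h => hy (h.1 h2)⟩, hy⟩
        · rw [mem_image]
          exact ⟨x, by rw [mem_neighborFinset]; exact hxy.symm, rfl⟩
      · exact Or.inl (Or.inl ⟨h1, h2, hxy⟩)
    · left; right
      refine ⟨x, ?_, ?_⟩
      · rw [mem_filter, hΔ, mem_filter]
        exact ⟨⟨mem_univ _, fun h => h1 (h.2 hx)⟩, hx⟩
      · rw [mem_image]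
        exact ⟨y, by rw [mem_neighborFinset]; exact hxy, rfl⟩
  have h1 : ((Δ.filter (· ∈ S')).biUnion fun x => (G.neighborFinset x).image
      fun y => (x, y)).card ≤ (Δ.filter (· ∈ S')).card * 3 := by
    refine card_biUnion_le_card_mul _ _ _ fun x _ => card_image_le.trans ?_
    rw [card_neighborFinset_eq_degree, h3]
  have h2 : ((Δ.filter (· ∉ S')).biUnion fun y => (G.neighborFinset y).image
      fun x => (x, y)).card ≤ (Δ.filter (· ∉ S')).card * 3 := by
    refine card_biUnion_le_card_mul _ _ _ fun x _ => card_image_le.trans ?_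
    rw [card_neighborFinset_eq_degree, h3]
  have h4 : (Δ.filter (· ∈ S')).card + (Δ.filter (· ∉ S')).card = Δ.card :=
    card_filter_add_card_filter_not (s := Δ) (fun v => v ∈ S')
  have h5 := (card_le_card hsub).trans
    ((card_union_le _ _).trans (Nat.add_le_add_right (card_union_le _ _) _))
  unfold dd
  omega

/-- The signed numbers of split pairs of two sets differ by at most the number of terminals in
the symmetric difference. -/
theorem sg_diff_le {m : ℕ} {p q : Fin m → V} (hp : Function.Injective p)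
    (hq : Function.Injective q) (hpq : ∀ i j, p i ≠ q j) {T : Finset V}
    (hT : ∀ v, v ∈ T ↔ (∃ j, p j = v) ∨ ∃ j, q j = v) {ε : Fin m → ℤ}
    (hε : ∀ j, ε j = 1 ∨ ε j = -1) (S S' : Finset V) :
    |sg p q ε S - sg p q ε S'| ≤ ((T.filter fun v => ¬ (v ∈ S ↔ v ∈ S')).card : ℤ) := by
  classical
  set A : Finset V := univ.filter fun v => ¬ (v ∈ S ↔ v ∈ S') with hA
  have hmem : ∀ v, v ∈ A ↔ ¬ (v ∈ S ↔ v ∈ S') := fun v => by rw [hA, mem_filter]; simp
  have h1 : |sg p q ε S - sg p q ε S'| ≤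
      ∑ j, ((if p j ∈ A then (1 : ℤ) else 0) + (if q j ∈ A then 1 else 0)) := by
    unfold sg
    rw [← sum_sub_distrib]
    refine (abs_sum_le_sum_abs _ _).trans (sum_le_sum ?_)
    intro j _
    simp only [hmem]
    rcases hε j with h | h <;> rw [h] <;>
      by_cases h1 : p j ∈ S <;> by_cases h2 : q j ∈ S <;> by_cases h3 : p j ∈ S' <;>
      by_cases h4 : q j ∈ S' <;> simp [h1, h2, h3, h4]
  refine h1.trans ?_
  rw [sum_add_distrib]
  have e1 : ∑ j, (if p j ∈ A then (1 : ℤ) else 0) = ((univ.filter fun j => p j ∈ A).card : ℤ) := by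
    rw [card_filter]; push_cast; rfl
  have e2 : ∑ j, (if q j ∈ A then (1 : ℤ) else 0) = ((univ.filter fun j => q j ∈ A).card : ℤ) := by
    rw [card_filter]; push_cast; rfl
  rw [e1, e2]
  have hsub : (univ.filter fun j => p j ∈ A).image p ∪ (univ.filter fun j => q j ∈ A).image q ⊆
      T.filter fun v => ¬ (v ∈ S ↔ v ∈ S') := by
    intro v hv
    rw [mem_union, mem_image, mem_image] at hv
    rw [mem_filter, hT]
    rcases hv with ⟨j, hj, rfl⟩ | ⟨j, hj, rfl⟩
    · exact ⟨Or.inl ⟨j, rfl⟩, (hmem _).1 (mem_filter.1 hj).2⟩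
    · exact ⟨Or.inr ⟨j, rfl⟩, (hmem _).1 (mem_filter.1 hj).2⟩
  have hdis : Disjoint ((univ.filter fun j => p j ∈ A).image p)
      ((univ.filter fun j => q j ∈ A).image q) := by
    rw [Finset.disjoint_left]
    intro v hv hv'
    rw [mem_image] at hv hv'
    obtain ⟨i, -, hi⟩ := hv
    obtain ⟨j, -, hj⟩ := hv'
    exact hpq i j (hi.trans hj.symm)
  have h2 := card_le_card hsub
  rw [card_union_of_disjoint hdis, card_image_of_injective _ hp, card_image_of_injective _ hq] at h2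
  exact_mod_cast h2

theorem average (h3 : ∀ v, G.degree v = 3) {Ξ : Type} [Fintype Ξ] [Nonempty Ξ] (c : Ξ → V → V)
    {B b : ℝ} (hb : 0 ≤ b) {ρ h : ℕ} (hh : 0 < h) (hball : ∀ ξ v, c ξ v ∈ Bl G.Adj ρ v)
    (S : Finset V)
    (hB : ∑ ξ, ((univ.filter fun v => ¬ (v ∈ S ↔ c ξ v ∈ S)).card : ℝ) ≤
      B * dd G S * Fintype.card Ξ)
    {m : ℕ} {p q : Fin m → V} (hp : Function.Injective p)
    (hq : Function.Injective q) (hpq : ∀ i j, p i ≠ q j) {T : Finset V}
    (hT : ∀ v, v ∈ T ↔ (∃ j, p j = v) ∨ ∃ j, q j = v) {ε : Fin m → ℤ}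
    (hε : ∀ j, ε j = 1 ∨ ε j = -1)
    (hσ : ∀ ξ, |(sg p q ε (univ.filter fun v => c ξ v ∈ S) : ℝ)| ≤
      b * dd G (univ.filter fun v => c ξ v ∈ S))
    (hsp : ∀ A ⊆ T, (∀ t ∈ A, Spl G ρ S t) → h * A.card ≤ dd G S) :
    |(sg p q ε S : ℝ)| ≤ b * (1 + 3 * B) * dd G S + dd G S / h := by
  have hhr : (0 : ℝ) < h := by exact_mod_cast hh
  have hΞ : (0 : ℝ) < Fintype.card Ξ := by exact_mod_cast Fintype.card_pos
  have key : ∀ ξ, |(sg p q ε S : ℝ)| ≤ b * dd G S +
      3 * b * ((univ.filter fun v => ¬ (v ∈ S ↔ c ξ v ∈ S)).card : ℝ) + dd G S / h := by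
    intro ξ
    set S' : Finset V := univ.filter fun v => c ξ v ∈ S with hS'
    have hmem : ∀ v, v ∈ S' ↔ c ξ v ∈ S := fun v => by rw [hS', mem_filter]; simp
    have h1 := sg_diff_le hp hq hpq hT hε S S'
    have h2 : h * (T.filter fun v => ¬ (v ∈ S ↔ v ∈ S')).card ≤ dd G S := by
      refine hsp _ (filter_subset _ _) fun t ht => ?_
      have h4 := (mem_filter.1 ht).2
      rw [hmem] at h4
      exact ⟨c ξ t, hball ξ t, fun h5 => h4 h5.symm⟩
    have h4 : ((T.filter fun v => ¬ (v ∈ S ↔ v ∈ S')).card : ℝ) ≤ dd G S / h := by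
      rw [le_div_iff₀ hhr, mul_comm]
      exact_mod_cast h2
    have h5 : |(sg p q ε S : ℝ) - sg p q ε S'| ≤
        ((T.filter fun v => ¬ (v ∈ S ↔ v ∈ S')).card : ℝ) := by
      exact_mod_cast h1
    have h6 : (dd G S' : ℝ) ≤ dd G S +
        3 * ((univ.filter fun v => ¬ (v ∈ S ↔ c ξ v ∈ S)).card : ℝ) := by
      have := dd_le_symmDiff h3 S S'
      simp only [hmem] at this
      exact_mod_cast this
    have h7 := mul_le_mul_of_nonneg_left h6 hb
    have h8 := hσ ξ
    have h9 : |(sg p q ε S : ℝ)| ≤ |(sg p q ε S : ℝ) - sg p q ε S'| + |(sg p q ε S' : ℝ)| := by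
      have := abs_add_le ((sg p q ε S : ℝ) - sg p q ε S') (sg p q ε S' : ℝ)
      rwa [sub_add_cancel] at this
    linarith
  have hsum := sum_le_sum fun ξ (_ : ξ ∈ (univ : Finset Ξ)) => key ξ
  rw [sum_const, card_univ, nsmul_eq_mul, sum_add_distrib, sum_add_distrib, sum_const, card_univ,
    nsmul_eq_mul, sum_const, card_univ, nsmul_eq_mul, ← mul_sum] at hsum
  have h1 := mul_le_mul_of_nonneg_left hB (by linarith : (0 : ℝ) ≤ 3 * b)
  have h2 : (Fintype.card Ξ : ℝ) * |(sg p q ε S : ℝ)| ≤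
      Fintype.card Ξ * (b * (1 + 3 * B) * dd G S + dd G S / h) := by
    calc (Fintype.card Ξ : ℝ) * |(sg p q ε S : ℝ)| ≤ _ := hsum
      _ ≤ Fintype.card Ξ * (b * dd G S) + 3 * b * (B * dd G S * Fintype.card Ξ) +
          Fintype.card Ξ * (dd G S / h) := by linarith
      _ = _ := by ring
  exact le_of_mul_le_mul_left h2 hΞ

end Pool.Agent.Iso5
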