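import Mathlib

/-!
# The counting lemma of Rosenfeld / Wanless and Wood (P2)
-/

set_option linter.unusedSectionVars false

namespace Pool.Agent.Iso5

open Finset

section

variable {ι : Type} [Fintype ι] [DecidableEq ι] {q : ℕ}

/-- Exchange of the coordinates in `B`. -/
def mix (B : Finset ι) (f g : ι → Fin q) : ι → Fin q := fun x => if x ∈ B then g x else f x

/-- Events on disjoint sets of variables are independent. -/
theorem indep (P Q : (ι → Fin q) → Prop) [DecidablePred P] [DecidablePred Q] (A B : Finset ι)
    (hAB : Disjoint A B) (hP : ∀ f g, (∀ x ∈ A, f x = g x) → P f → P g)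
    (hQ : ∀ f g, (∀ x ∈ B, f x = g x) → Q f → Q g) :
    (univ.filter fun f => P f ∧ Q f).card * q ^ (Fintype.card ι)
      = (univ.filter P).card * (univ.filter Q).card := by
  have hu : (univ : Finset (ι → Fin q)).card = q ^ (Fintype.card ι) := by
    rw [Finset.card_univ, Fintype.card_fun, Fintype.card_fin]
  rw [← hu, ← Finset.card_product, ← Finset.card_product]
  refine Finset.card_bij' (fun p _ => (mix B p.1 p.2, mix B p.2 p.1))
    (fun p _ => (mix B p.1 p.2, mix B p.2 p.1)) ?_ ?_ ?_ ?_
  · rintro ⟨f, g⟩ hp
    simp only [mem_product, mem_filter, mem_univ, true_and, and_true] at hp ⊢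
    refine ⟨hP f _ (fun x hx => ?_) hp.1, hQ f _ (fun x hx => ?_) hp.2⟩
    · have : x ∉ B := fun h => Finset.disjoint_left.1 hAB hx h
      simp [mix, this]
    · simp [mix, hx]
  · rintro ⟨f, g⟩ hp
    simp only [mem_product, mem_filter, mem_univ, true_and, and_true] at hp ⊢
    refine ⟨hP f _ (fun x hx => ?_) hp.1, hQ g _ (fun x hx => ?_) hp.2⟩
    · have : x ∉ B := fun h => Finset.disjoint_left.1 hAB hx h
      simp [mix, this]
    · simp [mix, hx]
  · rintro ⟨f, g⟩ _
    refine Prod.ext ?_ ?_ <;> funext x <;> by_cases hx : x ∈ B <;> simp [mix, hx]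
  · rintro ⟨f, g⟩ _
    refine Prod.ext ?_ ?_ <;> funext x <;> by_cases hx : x ∈ B <;> simp [mix, hx]

variable {α : Type} (Es : Finset α) (vs : α → Finset ι) (bad : α → (ι → Fin q) → Prop)

open Classical in
/-- Assignments for which no event inside `J` is bad. -/
noncomputable def goods (J : Finset ι) : Finset (ι → Fin q) :=
  univ.filter fun f => ∀ E ∈ Es, vs E ⊆ J → ¬ bad E f

theorem mem_goods {J : Finset ι} {f : ι → Fin q} :
    f ∈ goods Es vs bad J ↔ ∀ E ∈ Es, vs E ⊆ J → ¬ bad E f := by
  simp [goods]

open Classical in
/-- **Counting lemma.** -/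
theorem counting_card (hloc : ∀ E ∈ Es, ∀ f g, (∀ x ∈ vs E, f x = g x) → bad E f → bad E g)
    (b : α → ℝ) (hb0 : ∀ E ∈ Es, 0 ≤ b E)
    (hb : ∀ E ∈ Es, ((univ.filter (bad E)).card : ℝ) ≤ b E * q ^ (Fintype.card ι - (vs E).card))
    (hne : ∀ E ∈ Es, (vs E).Nonempty) {β : ℝ} (hβ : 0 < β)
    (h : ∀ x, ∑ E ∈ Es.filter (fun E => x ∈ vs E), b E * (1 / β) ^ ((vs E).card - 1) ≤ q - β) :
    β ^ (Fintype.card ι) ≤ ((univ.filter fun f : ι → Fin q => ∀ E ∈ Es, ¬ bad E f).card : ℝ) := by
  rcases isEmpty_or_nonempty ι with hι | hι
  · -- no variables, hence no events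
    have hE : ∀ E ∈ Es, False := fun E hE => by
      obtain ⟨x, _⟩ := hne E hE
      exact hι.elim x
    have h1 : (univ.filter fun f : ι → Fin q => ∀ E ∈ Es, ¬ bad E f) = univ :=
      Finset.filter_true_of_mem fun f _ E hE' => (hE E hE').elim
    rw [h1, Finset.card_univ]
    simp
  obtain ⟨x0⟩ := hι
  have hqβ : β ≤ q := by
    have h1 := h x0
    have h2 : 0 ≤ ∑ E ∈ Es.filter (fun E => x0 ∈ vs E), b E * (1 / β) ^ ((vs E).card - 1) :=
      Finset.sum_nonneg fun E hE => mul_nonneg (hb0 E (Finset.mem_filter.1 hE).1) (by positivity)
    linarith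
  have hq : (0 : ℝ) < q := hβ.trans_le hqβ
  set N : Finset ι → ℝ := fun J => ((goods Es vs bad J).card : ℝ) with hN
  -- the main step
  have step : ∀ n : ℕ, ∀ J : Finset ι, J.card = n → ∀ x, x ∉ J →
      β / q * N J ≤ N (insert x J) := by
    intro n
    induction n using Nat.strong_induction_on with
    | _ n ih =>
      intro J hJ x hx
      -- telescoped induction hypothesis
      have tele : ∀ D : Finset ι, D ⊆ J → N (J \ D) * (β / q) ^ D.card ≤ N J := by
        intro D
        induction D using Finset.induction_on with
        | empty => intro _; simp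
        | insert y D hy ihD =>
          intro hD
          have hyJ : y ∈ J := hD (mem_insert_self y D)
          have hDJ : D ⊆ J := (subset_insert y D).trans hD
          have h1 : insert y (J \ insert y D) = J \ D := by
            ext z
            simp only [mem_insert, mem_sdiff, not_or]
            constructor
            · rintro (rfl | ⟨h1, h2, h3⟩)
              · exact ⟨hyJ, hy⟩
              · exact ⟨h1, h3⟩
            · rintro ⟨h1, h2⟩
              by_cases hz : z = y
              · exact Or.inl hz
              · exact Or.inr ⟨h1, hz, h2⟩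
          have hlt : (J \ insert y D).card < n := by
            rw [← hJ]
            apply Finset.card_lt_card
            refine ⟨sdiff_subset, fun hs => ?_⟩
            have := hs hyJ
            simp at this
          have h2 := ih _ hlt (J \ insert y D) rfl y (by simp)
          rw [h1] at h2
          rw [Finset.card_insert_of_notMem hy, pow_succ]
          calc N (J \ insert y D) * ((β / q) ^ D.card * (β / q))
              = (β / q * N (J \ insert y D)) * (β / q) ^ D.card := by ring
            _ ≤ N (J \ D) * (β / q) ^ D.card :=
                mul_le_mul_of_nonneg_right h2 (by positivity)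
            _ ≤ N J := ihD hDJ
      -- assignments lost
      set Ex := (Es.filter fun E => x ∈ vs E ∧ vs E ⊆ insert x J) with hEx
      have hsub : goods Es vs bad J ⊆ goods Es vs bad (insert x J) ∪
          Ex.biUnion (fun E => univ.filter fun f => bad E f ∧ f ∈ goods Es vs bad (J \ vs E)) := by
        intro f hf
        rw [mem_goods] at hf
        by_cases hg : f ∈ goods Es vs bad (insert x J)
        · exact mem_union_left _ hg
        · apply mem_union_right
          rw [mem_goods] at hg
          push Not at hg
          obtain ⟨E, hE, hs, hbad⟩ := hg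
          have hxE : x ∈ vs E := by
            by_contra hxE
            apply hf E hE _ hbad
            intro z hz
            rcases mem_insert.1 (hs hz) with h1 | h1
            · exact absurd (h1 ▸ hz) hxE
            · exact h1
          rw [mem_biUnion]
          refine ⟨E, mem_filter.2 ⟨hE, hxE, hs⟩, mem_filter.2 ⟨mem_univ _, hbad, ?_⟩⟩
          rw [mem_goods]
          intro E' hE' hs'
          exact hf E' hE' (hs'.trans sdiff_subset)
      have hcard : N J ≤ N (insert x J) +
          ∑ E ∈ Ex, ((univ.filter fun f => bad E f ∧ f ∈ goods Es vs bad (J \ vs E)).card : ℝ) := by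
        have h1 := (card_le_card hsub).trans (card_union_le _ _)
        have h2 := h1.trans (Nat.add_le_add_left card_biUnion_le _)
        simp only [hN]
        exact_mod_cast h2
      have hterm : ∀ E ∈ Ex,
          ((univ.filter fun f => bad E f ∧ f ∈ goods Es vs bad (J \ vs E)).card : ℝ)
            ≤ (b E * (1 / β) ^ ((vs E).card - 1)) * (N J / q) := by
        intro E hE
        obtain ⟨hE, hxE, hs⟩ := mem_filter.1 hE
        have hi := indep (bad E) (fun f => f ∈ goods Es vs bad (J \ vs E)) (vs E) (J \ vs E)
          (Finset.disjoint_sdiff) (fun f g => hloc E hE f g) (by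
            intro f g hfg hf
            rw [mem_goods] at hf ⊢
            intro E' hE' hs' hb'
            exact hf E' hE' hs' (hloc E' hE' g f (fun z hz => (hfg z (hs' hz)).symm) hb'))
        have hi' : ((univ.filter fun f => bad E f ∧ f ∈ goods Es vs bad (J \ vs E)).card : ℝ)
            * (q : ℝ) ^ (Fintype.card ι) = ((univ.filter (bad E)).card : ℝ) * N (J \ vs E) := by
          have h2 : (univ.filter fun f => f ∈ goods Es vs bad (J \ vs E)) =
              goods Es vs bad (J \ vs E) := by ext f; simp
          rw [h2] at hi
          simp only [hN]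
          exact_mod_cast hi
        have hvc : (vs E).card ≤ Fintype.card ι := Finset.card_le_univ _
        have hv1 : 1 ≤ (vs E).card := Finset.card_pos.2 (hne E hE)
        have ht := tele ((vs E).erase x) (by
          intro z hz
          rcases mem_insert.1 (hs (mem_of_mem_erase hz)) with h1 | h1
          · exact absurd h1 (ne_of_mem_erase hz)
          · exact h1)
        have h3 : J \ (vs E).erase x = J \ vs E := by
          ext z
          simp only [mem_sdiff, mem_erase, not_and]
          constructor
          · rintro ⟨h1, h2⟩
            exact ⟨h1, h2 (fun hz => hx (hz ▸ h1))⟩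
          · rintro ⟨h1, h2⟩
            exact ⟨h1, fun _ => h2⟩
        rw [h3, Finset.card_erase_of_mem hxE] at ht
        have hqp : (0 : ℝ) < (q : ℝ) ^ (Fintype.card ι) := by positivity
        have hN0 : 0 ≤ N (J \ vs E) := Nat.cast_nonneg _
        have hNJ : 0 ≤ N J := Nat.cast_nonneg _
        have h4 : N (J \ vs E) ≤ (q / β) ^ ((vs E).card - 1) * N J := by
          have h5 : (0 : ℝ) < (β / q) ^ ((vs E).card - 1) := by positivity
          have h6 : (q / β) ^ ((vs E).card - 1) * (β / q) ^ ((vs E).card - 1) = (1 : ℝ) := by
            rw [← mul_pow]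
            have : (q / β) * (β / q) = (1 : ℝ) := by field_simp
            rw [this, one_pow]
          calc N (J \ vs E) = (q / β) ^ ((vs E).card - 1) *
                (N (J \ vs E) * (β / q) ^ ((vs E).card - 1)) := by
                  linear_combination (-(N (J \ vs E))) * h6
            _ ≤ _ := mul_le_mul_of_nonneg_left ht (by positivity)
        have h7 : (q : ℝ) ^ (Fintype.card ι) = q ^ (Fintype.card ι - (vs E).card) *
            (q * q ^ ((vs E).card - 1)) := by
          rw [← pow_succ', ← pow_add]
          congr 1; omega
        have h8 : ((univ.filter fun f => bad E f ∧ f ∈ goods Es vs bad (J \ vs E)).card : ℝ)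
            * (q : ℝ) ^ (Fintype.card ι) ≤
            ((b E * (1 / β) ^ ((vs E).card - 1)) * (N J / q)) * (q : ℝ) ^ (Fintype.card ι) := by
          rw [hi']
          calc ((univ.filter (bad E)).card : ℝ) * N (J \ vs E)
              ≤ (b E * q ^ (Fintype.card ι - (vs E).card)) *
                ((q / β) ^ ((vs E).card - 1) * N J) :=
                mul_le_mul (hb E hE) h4 hN0 (mul_nonneg (hb0 E hE) (by positivity))
            _ = _ := by
                rw [h7, div_pow, one_div, inv_pow]
                field_simp
        exact le_of_mul_le_mul_right h8 hqp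
      have hsum : ∑ E ∈ Ex,
          ((univ.filter fun f => bad E f ∧ f ∈ goods Es vs bad (J \ vs E)).card : ℝ)
            ≤ (q - β) * (N J / q) := by
        have hNJ : 0 ≤ N J / q := by positivity
        calc _ ≤ ∑ E ∈ Ex, (b E * (1 / β) ^ ((vs E).card - 1)) * (N J / q) :=
              Finset.sum_le_sum hterm
          _ = (∑ E ∈ Ex, b E * (1 / β) ^ ((vs E).card - 1)) * (N J / q) := by
              rw [Finset.sum_mul]
          _ ≤ (∑ E ∈ Es.filter (fun E => x ∈ vs E), b E * (1 / β) ^ ((vs E).card - 1)) *
              (N J / q) := by
              apply mul_le_mul_of_nonneg_right _ hNJ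
              apply Finset.sum_le_sum_of_subset_of_nonneg
              · intro E hE
                obtain ⟨h1, h2, _⟩ := mem_filter.1 hE
                exact mem_filter.2 ⟨h1, h2⟩
              · intro E hE _
                exact mul_nonneg (hb0 E (mem_filter.1 hE).1) (by positivity)
          _ ≤ _ := mul_le_mul_of_nonneg_right (h x) hNJ
      have hfin : (q - β) * (N J / q) = N J - β / q * N J := by field_simp
      linarith
  -- conclusion
  have all : ∀ J : Finset ι, (β / q) ^ J.card * (q : ℝ) ^ (Fintype.card ι) ≤ N J := by
    intro J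
    induction J using Finset.induction_on with
    | empty =>
      have h1 : goods Es vs bad ∅ = univ := by
        ext f
        rw [mem_goods]
        simp only [mem_univ, iff_true]
        intro E hE hs
        obtain ⟨y, hy⟩ := hne E hE
        exact absurd (hs hy) (notMem_empty y)
      simp only [hN, h1, card_empty, pow_zero, one_mul, Finset.card_univ, Fintype.card_fun,
        Fintype.card_fin]
      push_cast
      exact le_rfl
    | insert y J hy ih =>
      rw [card_insert_of_notMem hy, pow_succ]
      calc (β / q) ^ J.card * (β / q) * (q : ℝ) ^ (Fintype.card ι)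
          = β / q * ((β / q) ^ J.card * (q : ℝ) ^ (Fintype.card ι)) := by ring
        _ ≤ β / q * N J := mul_le_mul_of_nonneg_left ih (by positivity)
        _ ≤ _ := step J.card J rfl y hy
  have hu := all univ
  rw [Finset.card_univ, ← mul_pow] at hu
  have h1 : β / q * q = β := by field_simp
  rw [h1] at hu
  refine hu.trans ?_
  have h2 : goods Es vs bad univ = univ.filter fun f : ι → Fin q => ∀ E ∈ Es, ¬ bad E f := by
    ext f
    simp [goods]
  rw [← h2]

end

end Pool.Agent.Iso5
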