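import Mathlib
import Pool.Agent.Work.MP_974d84_co_iso.Defs3
import Pool.Agent.Work.MP_974d84_co_iso.Counting
import Pool.Agent.Work.MP_974d84_co_log.Union
import Pool.Agent.Work.MP_974d84_co_log.BigOf

/-!
# The signs of the paths (P5)
-/

set_option linter.unusedSectionVars false
set_option linter.unusedVariables false

namespace Pool.Agent.Iso5

open Finset SimpleGraph Pool.Agent.Exp Pool.Agent.Log5 Pool.Agent.Log5.Clu

namespace Sgn

/-- The sign given by a choice. -/
def sf {m : ℕ} (f : Fin m → Fin 2) (j : Fin m) : ℤ := Uni.si (finTwoEquiv (f j))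

section tail

variable {α : Type} [DecidableEq α] {m : ℕ} (p q : Fin m → α)

/-- The coefficient of a pair. -/
def cv (S : Finset α) (j : Fin m) : ℤ := (if p j ∈ S then 1 else 0) - (if q j ∈ S then 1 else 0)

/-- The pairs which are split. -/
def spl (S : Finset α) : Finset (Fin m) := univ.filter fun j => ¬ (p j ∈ S ↔ q j ∈ S)

theorem cv_sq (S : Finset α) (j : Fin m) : ((cv p q S j : ℤ) : ℝ) ^ 2
    = if ¬ (p j ∈ S ↔ q j ∈ S) then 1 else 0 := by
  unfold cv
  by_cases h1 : p j ∈ S <;> by_cases h2 : q j ∈ S <;> simp [h1, h2]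

theorem cv_zero {S : Finset α} {j : Fin m} (h : j ∉ spl p q S) : cv p q S j = 0 := by
  unfold spl at h
  rw [mem_filter] at h
  push Not at h
  have := h (mem_univ j)
  unfold cv
  by_cases h1 : p j ∈ S
  · simp [h1, this.1 h1]
  · have h2 : q j ∉ S := fun h' => h1 (this.2 h')
    simp [h1, h2]

theorem sg_eq (ε : Fin m → ℤ) (S : Finset α) : sg p q ε S = ∑ j, ε j * cv p q S j := rfl

theorem sg_congr {f g : Fin m → ℤ} {S : Finset α} (h : ∀ j ∈ spl p q S, f j = g j) :
    sg p q f S = sg p q g S := by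
  rw [sg_eq, sg_eq]
  refine sum_congr rfl fun j _ => ?_
  by_cases hj : j ∈ spl p q S
  · rw [h j hj]
  · rw [cv_zero p q hj, mul_zero, mul_zero]

theorem sg_empty {f : Fin m → ℤ} {S : Finset α} (h : spl p q S = ∅) : sg p q f S = 0 := by
  rw [sg_eq]
  refine sum_eq_zero fun j _ => ?_
  rw [cv_zero p q (by rw [h]; exact notMem_empty j), mul_zero]

open Classical in
theorem tail_two (S : Finset α) {N t : ℝ} (hN : 0 < N) (ht : 0 ≤ t)
    (hs : ((spl p q S).card : ℝ) ≤ N) :
    (((univ : Finset (Fin m → Fin 2)).filter fun f =>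
      t < ((|sg p q (sf f) S| : ℤ) : ℝ)).card : ℝ)
      ≤ 2 ^ m * (2 * Real.exp (-(t ^ 2 / (2 * N)))) := by
  have h1 := Uni.tail (fun j => ((cv p q S j : ℤ) : ℝ)) hN ht (by
    refine le_trans (le_of_eq ?_) hs
    rw [sum_congr rfl fun j _ => cv_sq p q S j, sum_boole]
    rfl)
  refine le_trans ?_ h1
  have h2 : ((univ : Finset (Fin m → Fin 2)).filter fun f =>
      t < ((|sg p q (sf f) S| : ℤ) : ℝ)).card ≤
      ((univ : Finset (Fin m → Bool)).filter fun b =>
        t < |∑ j, Uni.sr (b j) * ((cv p q S j : ℤ) : ℝ)|).card := by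
    refine card_le_card_of_injOn (fun f j => finTwoEquiv (f j)) ?_ ?_
    · intro f hf
      rw [mem_coe, mem_filter] at hf
      rw [mem_coe, mem_filter]
      refine ⟨mem_univ _, ?_⟩
      have e : ((sg p q (sf f) S : ℤ) : ℝ)
          = ∑ j, Uni.sr (finTwoEquiv (f j)) * ((cv p q S j : ℤ) : ℝ) := by
        rw [sg_eq, Int.cast_sum]
        refine sum_congr rfl fun j _ => ?_
        rw [Int.cast_mul]
        unfold sf
        rw [Uni.si_cast]
      rw [← e, ← Int.cast_abs]
      exact hf.2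
    · intro f _ g _ h
      funext j
      exact finTwoEquiv.injective (congrFun h j)
  exact_mod_cast h2

end tail

/-- Tails of the geometric series. -/
theorem geom_tail {r : ℝ} (h0 : 0 ≤ r) (h1 : r < 1) (n : ℕ) (L : Finset ℕ)
    (hL : ∀ d ∈ L, n ≤ d) : ∑ d ∈ L, r ^ d ≤ r ^ n / (1 - r) := by
  have hs := hasSum_geometric_of_lt_one h0 h1
  have h2 : ∑ d ∈ L, r ^ d = r ^ n * ∑ d ∈ L.image (fun d => d - n), r ^ d := by
    rw [sum_image, mul_sum]
    · refine sum_congr rfl fun d hd => ?_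
      rw [← pow_add]
      congr 1
      have := hL d hd
      omega
    · intro a ha b hb hab
      have h3 := hL a ha
      have h4 := hL b hb
      simp only at hab
      omega
  rw [h2, div_eq_mul_inv]
  refine mul_le_mul_of_nonneg_left ?_ (pow_nonneg h0 n)
  exact sum_le_hasSum _ (fun _ _ => pow_nonneg h0 _) hs

variable {V : Type} [Fintype V] [DecidableEq V] {G : SimpleGraph V} [DecidableRel G.Adj]

theorem sg_inter {m : ℕ} {p q : Fin m → V} {W : Finset V} (hp : ∀ j, p j ∈ W)
    (hq : ∀ j, q j ∈ W) (ε : Fin m → ℤ) (S : Finset V) : sg p q ε (S ∩ W) = sg p q ε S := by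
  unfold sg
  simp only [mem_inter, hp, hq, and_true]

theorem spl_inter {m : ℕ} {p q : Fin m → V} {W : Finset V} (hp : ∀ j, p j ∈ W)
    (hq : ∀ j, q j ∈ W) (S : Finset V) : spl p q (S ∩ W) = spl p q S := by
  unfold spl
  simp only [mem_inter, hp, hq, and_true]

open Classical in
/-- The traces of the closed bonds with `D` edges and `t` in the small side. -/
noncomputable def Tr (G : SimpleGraph V) [DecidableRel G.Adj] (W : Finset V) (c : V → V)
    (t : V) (D : ℕ) : Finset (Finset V) :=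
  (univ.filter fun S : Finset V => t ∈ S ∧ 2 * S.card ≤ Fintype.card V ∧ Joined G S ∧
    Joined G Sᶜ ∧ Clo c S ∧ dd G S = D).image fun S => S ∩ W

theorem Tr_card {W : Finset V} {D₁ : ℕ} {κ : ℝ} {c : V → V} (h : LocBd G W D₁ κ c) (t : V)
    {D : ℕ} (hD : D₁ ≤ D) : ((Tr G W c t D).card : ℝ) ≤ Real.exp (κ * D) := by
  classical
  have hpre : ∀ Z : Finset V, ∃ S : Finset V, Z ∈ Tr G W c t D → (t ∈ S ∧
      2 * S.card ≤ Fintype.card V ∧ Joined G S ∧ Joined G Sᶜ ∧ Clo c S ∧ dd G S = D) ∧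
      S ∩ W = Z := by
    intro Z
    by_cases hZ : Z ∈ Tr G W c t D
    · obtain ⟨S, hS, hSZ⟩ := mem_image.1 hZ
      exact ⟨S, fun _ => ⟨(mem_filter.1 hS).2, hSZ⟩⟩
    · exact ⟨Z, fun h => absurd h hZ⟩
  choose g hg using hpre
  have h1 : (Tr G W c t D).card = ((Tr G W c t D).image g).card := by
    refine (card_image_of_injOn ?_).symm
    intro Z hZ Z' hZ' he
    rw [← (hg Z hZ).2, ← (hg Z' hZ').2]
    exact congrArg (· ∩ W) he
  rw [h1]
  refine h t D _ hD ?_ ?_
  · intro S hS
    obtain ⟨Z, hZ, rfl⟩ := mem_image.1 hS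
    exact (hg Z hZ).1
  · intro S hS S' hS' hSS
    obtain ⟨Z, hZ, rfl⟩ := mem_image.1 hS
    obtain ⟨Z', hZ', rfl⟩ := mem_image.1 hS'
    have : Z = Z' := by
      rw [← (hg Z hZ).2, ← (hg Z' hZ').2]
      ext v
      simp only [mem_inter]
      constructor
      · rintro ⟨h5, h6⟩; exact ⟨(hSS v h6).1 h5, h6⟩
      · rintro ⟨h5, h6⟩; exact ⟨(hSS v h6).2 h5, h6⟩
    rw [this]

end Sgn

open Sgn

/-- P5. -/
theorem signs {b κ : ℝ} (hb : 0 < b) (hb1 : b ≤ 1) (hκ : κ ≤ b ^ 2 / 8) (N₀ : ℕ) :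
    ∃ D₀ : ℕ, ∀ {V : Type} [Fintype V] [DecidableEq V] (G : SimpleGraph V) [DecidableRel G.Adj]
    (Ξ : Type) [Fintype Ξ], Fintype.card Ξ ≤ N₀ → ∀ (c : Ξ → V → V) (m : ℕ) (p q : Fin m → V),
    Function.Injective p → Function.Injective q → (∀ i j, p i ≠ q j) →
    (∀ (S : Finset V) (J : Finset (Fin m)), (∀ j ∈ J, ¬ (p j ∈ S ↔ q j ∈ S)) →
      J.card ≤ dd G S) →
    ∀ D₁, D₀ ≤ D₁ → (∀ ξ, LocBd G (univ.image p ∪ univ.image q) D₁ κ (c ξ)) →
    ∃ ε : Fin m → ℤ, (∀ j, ε j = 1 ∨ ε j = -1) ∧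
      ∀ ξ X, Bond G X → Clo (c ξ) X → D₁ ≤ dd G X → |(sg p q ε X : ℝ)| ≤ b * dd G X := by
  classical
  set r : ℝ := Real.exp (-(b ^ 2 / 4)) with hr
  have hb2 : 0 < b ^ 2 := by positivity
  have hr0 : 0 ≤ r := (Real.exp_pos _).le
  have hr1 : r < 1 := by
    rw [hr, Real.exp_lt_one_iff]
    linarith
  set β : ℝ := 2 * Real.exp (-(b ^ 2 / 8)) with hβ
  have hβ0 : 0 < β := by positivity
  have hβ2 : β < 2 := by
    have : Real.exp (-(b ^ 2 / 8)) < 1 := by
      rw [Real.exp_lt_one_iff]
      linarith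
    rw [hβ]
    linarith
  obtain ⟨n0, hn0⟩ := exists_pow_lt_of_lt_one
    (show (0 : ℝ) < (1 - r) * (2 - β) / (8 * N₀ + 1) by
      have h1 : 0 < 1 - r := by linarith
      have h2 : 0 < 2 - β := by linarith
      positivity) hr1
  refine ⟨max n0 1, ?_⟩
  intro V _ _ G _ Ξ _ hΞ c m p q hp hq hpq hsplit D₁ hD₁ hloc
  have hD1 : 1 ≤ D₁ := (le_max_right _ _).trans hD₁
  have hDn : n0 ≤ D₁ := (le_max_left _ _).trans hD₁
  set W : Finset V := univ.image p ∪ univ.image q with hW
  have hpW : ∀ j, p j ∈ W := fun j => mem_union_left _ (mem_image_of_mem _ (mem_univ j))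
  have hqW : ∀ j, q j ∈ W := fun j => mem_union_right _ (mem_image_of_mem _ (mem_univ j))
  let Fam : Finset (Ξ × Finset V) := univ.filter fun y => 2 * y.2.card ≤ Fintype.card V ∧
    Joined G y.2 ∧ Joined G y.2ᶜ ∧ Clo (c y.1) y.2 ∧ D₁ ≤ dd G y.2
  let ev : Ξ × Finset V → ℕ × Finset V := fun y => (dd G y.2, y.2 ∩ W)
  let vs : ℕ × Finset V → Finset (Fin m) := fun E => spl p q E.2
  let Es : Finset (ℕ × Finset V) := (Fam.image ev).filter fun E => (vs E).Nonempty
  let bad : ℕ × Finset V → (Fin m → Fin 2) → Prop := fun E f =>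
    b * (E.1 : ℝ) < ((|sg p q (sf f) E.2| : ℤ) : ℝ)
  have hEs : ∀ E ∈ Es, ∃ ξ X, E = (dd G X, X ∩ W) ∧ 2 * X.card ≤ Fintype.card V ∧
      Joined G X ∧ Joined G Xᶜ ∧ Clo (c ξ) X ∧ D₁ ≤ dd G X := by
    intro E hE
    obtain ⟨⟨ξ, X⟩, hy, rfl⟩ := mem_image.1 (mem_filter.1 hE).1
    exact ⟨ξ, X, rfl, (mem_filter.1 hy).2⟩
  have hvs : ∀ E ∈ Es, (vs E).card ≤ E.1 ∧ D₁ ≤ E.1 := by
    intro E hE
    obtain ⟨ξ, X, rfl, -, -, -, -, hX⟩ := hEs E hE
    refine ⟨?_, hX⟩
    show (spl p q (X ∩ W)).card ≤ dd G X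
    rw [spl_inter hpW hqW]
    exact hsplit X _ fun j hj => (mem_filter.1 hj).2
  have hcount := counting_card Es vs bad
    (by
      intro E _ f g hfg hbad
      have : sg p q (sf f) E.2 = sg p q (sf g) E.2 :=
        sg_congr p q fun j hj => by unfold sf; rw [hfg j hj]
      show b * (E.1 : ℝ) < ((|sg p q (sf g) E.2| : ℤ) : ℝ)
      rw [← this]
      exact hbad)
    (fun E => 2 ^ (vs E).card * (2 * Real.exp (-(b ^ 2 * E.1 / 2))))
    (fun E _ => by positivity)
    (by
      intro E hE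
      obtain ⟨h1, h2⟩ := hvs E hE
      have hE1 : (0 : ℝ) < E.1 := by exact_mod_cast (by omega : 0 < E.1)
      have h3 := tail_two p q E.2 (N := E.1) (t := b * E.1) hE1 (by positivity)
        (by exact_mod_cast h1)
      refine h3.trans (le_of_eq ?_)
      have h4 : (b * (E.1 : ℝ)) ^ 2 / (2 * E.1) = b ^ 2 * E.1 / 2 := by
        field_simp
      have h5 : (vs E).card ≤ m := by
        have := card_le_univ (vs E)
        simpa using this
      rw [h4, Fintype.card_fin]
      have h6 : (2 : ℝ) ^ m = 2 ^ (vs E).card * 2 ^ (m - (vs E).card) := by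
        rw [← pow_add]
        congr 1
        omega
      rw [h6]
      push_cast
      ring)
    (fun E hE => (mem_filter.1 hE).2) hβ0
    (by
      intro j
      -- the size of one term
      have hterm : ∀ E ∈ Es.filter (fun E => j ∈ vs E),
          (2 ^ (vs E).card * (2 * Real.exp (-(b ^ 2 * E.1 / 2)))) * (1 / β) ^ ((vs E).card - 1)
            ≤ 4 * Real.exp (-(3 * b ^ 2 * E.1 / 8)) := by
        intro E hE
        obtain ⟨hE, hj⟩ := mem_filter.1 hE
        obtain ⟨h1, h2⟩ := hvs E hE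
        have hn : 1 ≤ (vs E).card := card_pos.2 ⟨j, hj⟩
        obtain ⟨n, hn'⟩ := Nat.exists_eq_add_of_le hn
        have h3 : (2 : ℝ) ^ (vs E).card * (1 / β) ^ ((vs E).card - 1)
            = 2 * Real.exp (b ^ 2 * n / 8) := by
          rw [hn', Nat.add_sub_cancel_left, pow_add, pow_one, hβ, one_div, mul_inv, mul_pow,
            ← Real.exp_neg, neg_neg, ← Real.exp_nat_mul, inv_pow]
          have : (n : ℝ) * (b ^ 2 / 8) = b ^ 2 * n / 8 := by ring
          rw [this]
          field_simp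
        have h4 : (n : ℝ) ≤ E.1 := by
          have : n ≤ E.1 := by omega
          exact_mod_cast this
        calc (2 ^ (vs E).card * (2 * Real.exp (-(b ^ 2 * E.1 / 2))))
              * (1 / β) ^ ((vs E).card - 1)
            = (2 ^ (vs E).card * (1 / β) ^ ((vs E).card - 1))
              * (2 * Real.exp (-(b ^ 2 * E.1 / 2))) := by ring
          _ = 4 * Real.exp (b ^ 2 * n / 8 + -(b ^ 2 * E.1 / 2)) := by
              rw [h3, Real.exp_add]; ring
          _ ≤ _ := by
              refine mul_le_mul_of_nonneg_left (Real.exp_le_exp.2 ?_) (by norm_num)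
              have : b ^ 2 * n ≤ b ^ 2 * E.1 := mul_le_mul_of_nonneg_left h4 hb2.le
              linarith
      refine (sum_le_sum hterm).trans ?_
      set L : Finset ℕ := (Es.filter fun E => j ∈ vs E).image Prod.fst with hL
      have hLd : ∀ d ∈ L, D₁ ≤ d := by
        intro d hd
        obtain ⟨E, hE, rfl⟩ := mem_image.1 hd
        exact (hvs E (mem_filter.1 hE).1).2
      rw [← sum_fiberwise_of_maps_to (s := Es.filter fun E => j ∈ vs E) (t := L)
        (g := Prod.fst) (fun E hE => mem_image_of_mem _ hE)]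
      have hfib : ∀ d ∈ L, ∑ E ∈ (Es.filter fun E => j ∈ vs E).filter (fun E => E.1 = d),
          4 * Real.exp (-(3 * b ^ 2 * E.1 / 8)) ≤ 8 * N₀ * r ^ d := by
        intro d hd
        have hcardle : (((Es.filter fun E => j ∈ vs E).filter (fun E => E.1 = d)).card : ℝ)
            ≤ 2 * N₀ * Real.exp (κ * d) := by
          have hsub : ((Es.filter fun E => j ∈ vs E).filter (fun E => E.1 = d)).card ≤
              ((univ : Finset Ξ).biUnion fun ξ => Tr G W (c ξ) (p j) d ∪
                Tr G W (c ξ) (q j) d).card := by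
            refine card_le_card_of_injOn Prod.snd ?_ ?_
            · intro E hE
              rw [mem_coe, mem_filter, mem_filter] at hE
              obtain ⟨⟨hE1, hE2⟩, hE3⟩ := hE
              obtain ⟨ξ, X, rfl, k1, k2, k3, k4, k5⟩ := hEs E hE1
              have hj : j ∈ spl p q X := by
                have : j ∈ spl p q (X ∩ W) := hE2
                rwa [spl_inter hpW hqW] at this
              have hj' := (mem_filter.1 hj).2
              simp only [mem_coe]
              rw [mem_biUnion]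
              refine ⟨ξ, mem_univ ξ, ?_⟩
              rw [mem_union]
              by_cases hpX : p j ∈ X
              · left
                exact mem_image.2 ⟨X, mem_filter.2 ⟨mem_univ _, hpX, k1, k2, k3, k4, hE3⟩, rfl⟩
              · right
                have hqX : q j ∈ X := by
                  by_contra hqX
                  exact hj' ⟨fun h => absurd h hpX, fun h => absurd h hqX⟩
                exact mem_image.2 ⟨X, mem_filter.2 ⟨mem_univ _, hqX, k1, k2, k3, k4, hE3⟩, rfl⟩
            · intro E hE E' hE' he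
              rw [mem_coe, mem_filter] at hE hE'
              exact Prod.ext (hE.2.trans hE'.2.symm) he
          have h1 : (((univ : Finset Ξ).biUnion fun ξ => Tr G W (c ξ) (p j) d ∪
                Tr G W (c ξ) (q j) d).card : ℝ) ≤ ∑ ξ : Ξ, 2 * Real.exp (κ * d) := by
            have h2 : (((univ : Finset Ξ).biUnion fun ξ => Tr G W (c ξ) (p j) d ∪
                Tr G W (c ξ) (q j) d).card : ℝ) ≤ ∑ ξ : Ξ, (((Tr G W (c ξ) (p j) d).card : ℝ) +
                (Tr G W (c ξ) (q j) d).card) := by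
              have := card_biUnion_le (s := (univ : Finset Ξ)) (t := fun ξ =>
                Tr G W (c ξ) (p j) d ∪ Tr G W (c ξ) (q j) d)
              have h3 := this.trans (sum_le_sum fun ξ _ => card_union_le _ _)
              exact_mod_cast h3
            refine h2.trans (sum_le_sum fun ξ _ => ?_)
            have h4 := Tr_card (hloc ξ) (p j) (hLd d hd)
            have h5 := Tr_card (hloc ξ) (q j) (hLd d hd)
            linarith
          rw [sum_const, card_univ, nsmul_eq_mul] at h1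
          have h6 : (Fintype.card Ξ : ℝ) ≤ N₀ := by exact_mod_cast hΞ
          have h7 : (Fintype.card Ξ : ℝ) * (2 * Real.exp (κ * d)) ≤ N₀ * (2 * Real.exp (κ * d)) :=
            mul_le_mul_of_nonneg_right h6 (by positivity)
          have h8 : (((Es.filter fun E => j ∈ vs E).filter (fun E => E.1 = d)).card : ℝ) ≤
              (((univ : Finset Ξ).biUnion fun ξ => Tr G W (c ξ) (p j) d ∪
                Tr G W (c ξ) (q j) d).card : ℝ) := by exact_mod_cast hsub
          linarith
        have hconst : ∑ E ∈ (Es.filter fun E => j ∈ vs E).filter (fun E => E.1 = d),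
            4 * Real.exp (-(3 * b ^ 2 * E.1 / 8)) =
            (((Es.filter fun E => j ∈ vs E).filter (fun E => E.1 = d)).card : ℝ) *
              (4 * Real.exp (-(3 * b ^ 2 * d / 8))) := by
          rw [← nsmul_eq_mul, ← sum_const]
          refine sum_congr rfl fun E hE => ?_
          rw [(mem_filter.1 hE).2]
        rw [hconst]
        have h9 : (((Es.filter fun E => j ∈ vs E).filter (fun E => E.1 = d)).card : ℝ) *
              (4 * Real.exp (-(3 * b ^ 2 * d / 8))) ≤
            (2 * N₀ * Real.exp (κ * d)) * (4 * Real.exp (-(3 * b ^ 2 * d / 8))) :=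
          mul_le_mul_of_nonneg_right hcardle (by positivity)
        refine h9.trans ?_
        have h10 : r ^ d = Real.exp (-(b ^ 2 / 4) * d) := by
          rw [hr, ← Real.exp_nat_mul]
          congr 1
          ring
        have h11 : Real.exp (κ * d) * Real.exp (-(3 * b ^ 2 * d / 8)) ≤ r ^ d := by
          rw [h10, ← Real.exp_add]
          apply Real.exp_le_exp.2
          have h12 : κ * d ≤ b ^ 2 / 8 * d := mul_le_mul_of_nonneg_right hκ (Nat.cast_nonneg _)
          linarith
        calc (2 * N₀ * Real.exp (κ * d)) * (4 * Real.exp (-(3 * b ^ 2 * d / 8)))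
            = 8 * N₀ * (Real.exp (κ * d) * Real.exp (-(3 * b ^ 2 * d / 8))) := by ring
          _ ≤ 8 * N₀ * r ^ d := mul_le_mul_of_nonneg_left h11 (by positivity)
      refine (sum_le_sum hfib).trans ?_
      rw [← mul_sum]
      have h1 := geom_tail hr0 hr1 D₁ L hLd
      have h2 : r ^ D₁ ≤ r ^ n0 := pow_le_pow_of_le_one hr0 hr1.le hDn
      have h3 : 0 < 1 - r := by linarith
      have h4 : r ^ D₁ / (1 - r) ≤ (2 - β) / (8 * N₀ + 1) := by
        rw [div_le_iff₀ h3]
        calc r ^ D₁ ≤ r ^ n0 := h2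
          _ ≤ (1 - r) * (2 - β) / (8 * N₀ + 1) := hn0.le
          _ = (2 - β) / (8 * N₀ + 1) * (1 - r) := by ring
      have h5 : (0 : ℝ) ≤ 8 * N₀ := by positivity
      have h6 : 0 ≤ 2 - β := by linarith
      calc 8 * (N₀ : ℝ) * ∑ d ∈ L, r ^ d ≤ 8 * N₀ * ((2 - β) / (8 * N₀ + 1)) :=
            mul_le_mul_of_nonneg_left (h1.trans h4) h5
        _ = (8 * N₀ / (8 * N₀ + 1)) * (2 - β) := by ring
        _ ≤ 1 * (2 - β) := by
            refine mul_le_mul_of_nonneg_right ?_ h6
            rw [div_le_one (by positivity)]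
            linarith
        _ = ((2 : ℕ) : ℝ) - β := by push_cast; ring)
  have hpos : (0 : ℝ) < ((univ.filter fun f : Fin m → Fin 2 => ∀ E ∈ Es, ¬ bad E f).card : ℝ) :=
    lt_of_lt_of_le (pow_pos hβ0 _) hcount
  obtain ⟨f, hf⟩ := card_pos.1 (by exact_mod_cast hpos :
    0 < (univ.filter fun f : Fin m → Fin 2 => ∀ E ∈ Es, ¬ bad E f).card)
  have hf' := (mem_filter.1 hf).2
  refine ⟨sf f, fun j => Uni.si_or _, ?_⟩
  have key : ∀ ξ X, 2 * X.card ≤ Fintype.card V → Joined G X → Joined G Xᶜ → Clo (c ξ) X →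
      D₁ ≤ dd G X → |(sg p q (sf f) X : ℝ)| ≤ b * dd G X := by
    intro ξ X h1 h2 h3 h4 h5
    by_cases hne : (spl p q X).Nonempty
    · have hE : (dd G X, X ∩ W) ∈ Es := by
        rw [mem_filter]
        refine ⟨mem_image.2 ⟨(ξ, X), mem_filter.2 ⟨mem_univ _, h1, h2, h3, h4, h5⟩, rfl⟩, ?_⟩
        show (spl p q (X ∩ W)).Nonempty
        rw [spl_inter hpW hqW]
        exact hne
      have h6 := hf' _ hE
      have h7 : ¬ (b * ((dd G X : ℕ) : ℝ) < ((|sg p q (sf f) (X ∩ W)| : ℤ) : ℝ)) := h6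
      rw [sg_inter hpW hqW] at h7
      push Not at h7
      rw [Int.cast_abs] at h7
      exact h7
    · rw [not_nonempty_iff_eq_empty] at hne
      rw [sg_empty p q hne]
      simp only [Int.cast_zero, abs_zero]
      positivity
  intro ξ X hX hcl hdd
  by_cases h2 : 2 * X.card ≤ Fintype.card V
  · exact key ξ X h2 hX.1 hX.2.1 hcl hdd
  · have h4 := card_add_card_compl X
    have h5 := key ξ Xᶜ (by omega) hX.2.1 (by rw [compl_compl]; exact hX.1)
      (by
        intro x y hxy
        rw [mem_compl, mem_compl, hcl x y hxy])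
      (by rw [dd_compl]; exact hdd)
    rw [dd_compl, sg_compl] at h5
    push_cast at h5
    rwa [abs_neg] at h5

end Pool.Agent.Iso5
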