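import Mathlib
import Pool.Agent.Work.MP_974d84_co_iso.Near

/-!
# Random centres
-/

set_option linter.unusedSectionVars false

namespace Pool.Agent.Iso5

open Finset SimpleGraph Pool.Agent.Exp Pool.Agent.Log5

section Pr

variable {Ω : Type} [Fintype Ω]

/-- Uniform probability. -/
noncomputable def pr (P : Ω → Prop) : ℝ := (Nat.card {ω // P ω} : ℝ) / Fintype.card Ω

theorem pr_eq (P : Ω → Prop) [DecidablePred P] :
    pr P = ((univ.filter P).card : ℝ) / Fintype.card Ω := by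
  unfold pr
  rw [Nat.card_eq_fintype_card, Fintype.card_subtype]

theorem pr_mono {P P' : Ω → Prop} (h : ∀ ω, P ω → P' ω) : pr P ≤ pr P' := by
  classical
  rw [pr_eq, pr_eq]
  refine div_le_div_of_nonneg_right ?_ (by positivity)
  exact_mod_cast card_le_card (monotone_filter_right _ fun ω _ => h ω)

theorem pr_nonneg (P : Ω → Prop) : 0 ≤ pr P := by unfold pr; positivity

theorem pr_or (P P' : Ω → Prop) : pr (fun ω => P ω ∨ P' ω) ≤ pr P + pr P' := by
  classical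
  rw [pr_eq, pr_eq, pr_eq, ← add_div]
  refine div_le_div_of_nonneg_right ?_ (by positivity)
  rw [filter_or]
  exact_mod_cast card_union_le _ _

theorem pr_exists {α : Type} (A : Finset α) (P : α → Ω → Prop) :
    pr (fun ω => ∃ a ∈ A, P a ω) ≤ ∑ a ∈ A, pr (P a) := by
  classical
  rw [pr_eq]
  simp only [pr_eq]
  rw [← sum_div]
  refine div_le_div_of_nonneg_right ?_ (by positivity)
  have h : (univ.filter fun ω => ∃ a ∈ A, P a ω) ⊆ A.biUnion fun a => univ.filter (P a) := by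
    intro ω hω
    rw [mem_filter] at hω
    obtain ⟨-, a, ha, h⟩ := hω
    exact mem_biUnion.2 ⟨a, ha, mem_filter.2 ⟨mem_univ _, h⟩⟩
  exact_mod_cast (card_le_card h).trans card_biUnion_le

theorem pr_exists_le {α : Type} (A : Finset α) (P : α → Ω → Prop) {n : ℕ} (hA : A.card ≤ n)
    {x : ℝ} (hx : 0 ≤ x) (h : ∀ a ∈ A, pr (P a) ≤ x) : pr (fun ω => ∃ a ∈ A, P a ω) ≤ n * x := by
  refine (pr_exists A P).trans ((sum_le_sum h).trans ?_)
  rw [sum_const, nsmul_eq_mul]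
  gcongr

theorem card_in {Q N : ℕ} (A : Finset (Fin N)) (B : Finset (Fin Q)) :
    (univ.filter fun ξ : Fin Q → Fin N => ∀ b ∈ B, ξ b ∈ A).card * N ^ B.card
      = A.card ^ B.card * N ^ Q := by
  have h1 : (univ.filter fun ξ : Fin Q → Fin N => ∀ b ∈ B, ξ b ∈ A)
      = Fintype.piFinset fun b => if b ∈ B then A else univ := by
    ext ξ
    rw [mem_filter, Fintype.mem_piFinset]
    constructor
    · rintro ⟨-, h⟩ b
      split_ifs with hb
      · exact h b hb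
      · exact mem_univ _
    · intro h
      refine ⟨mem_univ _, fun b hb => ?_⟩
      have := h b
      rwa [if_pos hb] at this
  rw [h1, Fintype.card_piFinset]
  have h2 : ∀ b : Fin Q, (if b ∈ B then A else univ : Finset (Fin N)).card
      = if b ∈ B then A.card else N := by
    intro b; split_ifs <;> simp
  rw [prod_congr rfl fun b _ => h2 b, prod_ite, prod_const, prod_const]
  have h3 : (univ.filter fun b : Fin Q => b ∈ B) = B := by ext; simp
  have h4 : (univ.filter fun b : Fin Q => b ∉ B).card + B.card = Q := by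
    have h5 := card_compl_add_card B
    rw [Fintype.card_fin] at h5
    have h6 : (univ.filter fun b : Fin Q => b ∉ B) = Bᶜ := by ext; simp
    rw [h6, h5]
  rw [h3, mul_assoc, ← pow_add, h4]

end Pr

variable {V : Type} [Fintype V] [DecidableEq V] {G : SimpleGraph V} [DecidableRel G.Adj]

theorem exists_colour (h3 : ∀ v, G.degree v = 3) (L : ℕ) :
    ∃ κ : V → Fin (3 * 2 ^ L), ∀ v w, w ∈ Bl G.Adj L v → w ≠ v → κ w ≠ κ v := by
  classical
  have key : ∀ A : Finset V, ∃ κ : V → Fin (3 * 2 ^ L), ∀ v ∈ A, ∀ w ∈ A, w ∈ Bl G.Adj L v →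
      w ≠ v → κ w ≠ κ v := by
    intro A
    induction A using Finset.induction with
    | empty => exact ⟨fun _ => ⟨0, by positivity⟩, by simp⟩
    | insert a A ha ih =>
      obtain ⟨κ, hκ⟩ := ih
      have h1 : (((Bl G.Adj L a).erase a).image κ).card < 3 * 2 ^ L := by
        refine lt_of_le_of_lt card_image_le ?_
        rw [card_erase_of_mem (Bl_self _ _)]
        have := Bl_card G h3 L a
        omega
      obtain ⟨q, -, hq⟩ := exists_mem_notMem_of_card_lt_card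
        (s := ((Bl G.Adj L a).erase a).image κ) (t := univ) (by simpa using h1)
      refine ⟨Function.update κ a q, ?_⟩
      intro v hv w hw hwv hne
      rw [mem_insert] at hv hw
      by_cases hva : v = a
      · subst hva
        rw [Function.update_of_ne hne, Function.update_self]
        rintro rfl
        exact hq (mem_image_of_mem _ (mem_erase.2 ⟨hne, hwv⟩))
      · by_cases hwa : w = a
        · subst hwa
          rw [Function.update_of_ne hva, Function.update_self]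
          intro h
          exact hq (h ▸ mem_image_of_mem _ (mem_erase.2 ⟨hva, Bl_symm' hwv⟩))
        · rw [Function.update_of_ne hva, Function.update_of_ne hwa]
          exact hκ v (hv.resolve_left hva) w (hw.resolve_left hwa) hwv hne
  obtain ⟨κ, hκ⟩ := key univ
  exact ⟨κ, fun v w => hκ v (mem_univ _) w (mem_univ _)⟩

theorem exists_sep (U : Finset V) (n : ℕ) : ∃ Z ⊆ U,
    (∀ z ∈ Z, ∀ z' ∈ Z, z ≠ z' → z' ∉ Bl G.Adj n z) ∧ ∀ u ∈ U, ∃ z ∈ Z, z ∈ Bl G.Adj n u := by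
  classical
  induction U using Finset.induction with
  | empty => exact ⟨∅, subset_rfl, by simp, by simp⟩
  | insert a U ha ih =>
    obtain ⟨Z, hZU, hZ1, hZ2⟩ := ih
    by_cases h : ∃ z ∈ Z, z ∈ Bl G.Adj n a
    · refine ⟨Z, hZU.trans (subset_insert _ _), hZ1, fun u hu => ?_⟩
      rw [mem_insert] at hu
      rcases hu with rfl | hu
      · exact h
      · exact hZ2 u hu
    · push Not at h
      refine ⟨insert a Z, insert_subset_insert _ hZU, ?_, ?_⟩
      · intro z hz z' hz' hne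
        rw [mem_insert] at hz hz'
        rcases hz with rfl | hz
        · rcases hz' with rfl | hz'
          · exact absurd rfl hne
          · exact h z' hz'
        · rcases hz' with rfl | hz'
          · exact fun h' => h z hz (Bl_symm' h')
          · exact hZ1 z hz z' hz' hne
      · intro u hu
        rw [mem_insert] at hu
        rcases hu with rfl | hu
        · exact ⟨u, mem_insert_self _ _, Bl_self _ _⟩
        · obtain ⟨z, hz, hzu⟩ := hZ2 u hu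
          exact ⟨z, mem_insert_of_mem hz, hzu⟩

section Sel

variable {Q N : ℕ} [NeZero N] (κ : V → Fin Q)

theorem pr_sel (A : Finset V) (hA : ∀ a ∈ A, ∀ b ∈ A, κ a = κ b → a = b) :
    pr (fun ξ : Fin Q → Fin N => ∀ a ∈ A, ξ (κ a) = 0) = 1 / (N : ℝ) ^ A.card := by
  classical
  have h1 := card_in (N := N) {0} (A.image κ)
  rw [card_image_of_injOn (fun a ha b hb h => hA a ha b hb h), card_singleton, one_pow,
    one_mul] at h1
  have h2 : (univ.filter fun ξ : Fin Q → Fin N => ∀ b ∈ A.image κ, ξ b ∈ ({0} : Finset (Fin N)))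
      = univ.filter fun ξ : Fin Q → Fin N => ∀ a ∈ A, ξ (κ a) = 0 := by
    ext ξ; simp
  rw [h2] at h1
  have hN : (0 : ℝ) < N := by exact_mod_cast Nat.pos_of_ne_zero (NeZero.ne N)
  have hNQ : (0 : ℝ) < ((N ^ Q : ℕ) : ℝ) := by push_cast; positivity
  rw [pr_eq, Fintype.card_fun, Fintype.card_fin, Fintype.card_fin, div_eq_div_iff hNQ.ne'
    (by positivity), one_mul]
  have h3 : (((univ.filter fun ξ : Fin Q → Fin N => ∀ a ∈ A, ξ (κ a) = 0).card * N ^ A.card : ℕ)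
    : ℝ) = ((N ^ Q : ℕ) : ℝ) := by rw [h1]
  push_cast at h3 ⊢
  exact h3

theorem pr_unsel (A : Finset V) (hA : ∀ a ∈ A, ∀ b ∈ A, κ a = κ b → a = b) :
    pr (fun ξ : Fin Q → Fin N => ∀ a ∈ A, ξ (κ a) ≠ 0) = (1 - 1 / (N : ℝ)) ^ A.card := by
  classical
  have h1 := card_in (N := N) ({0}ᶜ) (A.image κ)
  rw [card_image_of_injOn (fun a ha b hb h => hA a ha b hb h), card_compl, card_singleton,
    Fintype.card_fin] at h1
  have h2 : (univ.filter fun ξ : Fin Q → Fin N => ∀ b ∈ A.image κ,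
      ξ b ∈ ({0}ᶜ : Finset (Fin N)))
      = univ.filter fun ξ : Fin Q → Fin N => ∀ a ∈ A, ξ (κ a) ≠ 0 := by
    ext ξ; simp
  rw [h2] at h1
  have hN : (0 : ℝ) < N := by exact_mod_cast Nat.pos_of_ne_zero (NeZero.ne N)
  have hN1 : 1 ≤ N := Nat.pos_of_ne_zero (NeZero.ne N)
  have hNQ : (0 : ℝ) < ((N ^ Q : ℕ) : ℝ) := by push_cast; positivity
  rw [pr_eq, Fintype.card_fun, Fintype.card_fin, Fintype.card_fin, div_eq_iff hNQ.ne']
  have h3 : (((univ.filter fun ξ : Fin Q → Fin N => ∀ a ∈ A, ξ (κ a) ≠ 0).card * N ^ A.card : ℕ)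
    : ℝ) = (((N - 1) ^ A.card * N ^ Q : ℕ) : ℝ) := by rw [h1]
  push_cast [Nat.cast_sub hN1] at h3
  have h4 : (1 - 1 / (N : ℝ)) ^ A.card * (N : ℝ) ^ A.card = ((N : ℝ) - 1) ^ A.card := by
    rw [← mul_pow]; congr 1; field_simp
  have h5 : ((univ.filter fun ξ : Fin Q → Fin N => ∀ a ∈ A, ξ (κ a) ≠ 0).card : ℝ) *
      (N : ℝ) ^ A.card = ((1 - 1 / (N : ℝ)) ^ A.card * (N : ℝ) ^ Q) * (N : ℝ) ^ A.card := by
    rw [h3, ← h4]; ring
  have h6 := mul_right_cancel₀ (by positivity : (N : ℝ) ^ A.card ≠ 0) h5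
  push_cast
  exact h6

/-- Selected points without another selected point in the neighbourhood. -/
def Isl (G : SimpleGraph V) (κ : V → Fin Q) (r : ℕ) (ξ : Fin Q → Fin N) (y : V) : Prop :=
  ξ (κ y) = 0 ∧ ∀ y' ∈ Bl G.Adj r y, ξ (κ y') = 0 → y' = y

/-- Uncovered points. -/
def Unc (G : SimpleGraph V) (κ : V → Fin Q) (r ρ : ℕ) (ξ : Fin Q → Fin N) (v : V) : Prop :=
  ∀ y ∈ Bl G.Adj ρ v, ¬ Isl G κ r ξ y

variable {κ}

theorem unc_cases {r ρ : ℕ} {ξ : Fin Q → Fin N} {v : V} (h : Unc G κ r ρ ξ v)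
    {A₁ A₂ A₃ : Finset V} (h1 : A₁ ⊆ Bl G.Adj ρ v) (h2 : A₂ ⊆ Bl G.Adj ρ v)
    (h3 : A₃ ⊆ Bl G.Adj ρ v) (h12 : Disjoint A₁ A₂) (h13 : Disjoint A₁ A₃)
    (h23 : Disjoint A₂ A₃) :
    ((∀ a ∈ A₁, ξ (κ a) ≠ 0) ∨ (∀ a ∈ A₂, ξ (κ a) ≠ 0)) ∨ (∀ a ∈ A₃, ξ (κ a) ≠ 0) ∨
    (∃ x ∈ Bl G.Adj ρ v, ∃ y ∈ Bl G.Adj ρ v, ∃ a ∈ Bl G.Adj r x, ∃ b ∈ Bl G.Adj r y,
      (x ≠ y ∧ x ≠ a ∧ x ≠ b ∧ y ≠ a ∧ y ≠ b ∧ a ≠ b) ∧
        ∀ z ∈ ({x, y, a, b} : Finset V), ξ (κ z) = 0) ∨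
    (∃ x ∈ Bl G.Adj ρ v, ∃ a ∈ Bl G.Adj (2 * r) x, ∃ b ∈ Bl G.Adj (2 * r) x,
      (x ≠ a ∧ x ≠ b ∧ a ≠ b) ∧ ∀ z ∈ ({x, a, b} : Finset V), ξ (κ z) = 0) := by
  by_contra hcon
  push Not at hcon
  obtain ⟨⟨⟨x₁, hx₁, hs₁⟩, ⟨x₂, hx₂, hs₂⟩⟩, ⟨x₃, hx₃, hs₃⟩, hc4, hc3⟩ := hcon
  have hpart : ∀ x ∈ Bl G.Adj ρ v, ξ (κ x) = 0 → ∃ a ∈ Bl G.Adj r x, ξ (κ a) = 0 ∧ a ≠ x := by
    intro x hx hs
    have := h x hx
    unfold Isl at this
    push Not at this
    exact this hs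
  obtain ⟨a, ha, has, hax⟩ := hpart x₁ (h1 hx₁) hs₁
  have h12' : x₁ ≠ x₂ := fun h => disjoint_left.1 h12 hx₁ (h ▸ hx₂)
  have h13' : x₁ ≠ x₃ := fun h => disjoint_left.1 h13 hx₁ (h ▸ hx₃)
  have h23' : x₂ ≠ x₃ := fun h => disjoint_left.1 h23 hx₂ (h ▸ hx₃)
  obtain ⟨y, hy, hys, hyx, hya⟩ : ∃ y ∈ Bl G.Adj ρ v, ξ (κ y) = 0 ∧ y ≠ x₁ ∧ y ≠ a := by
    by_cases h' : x₂ = a
    · exact ⟨x₃, h3 hx₃, hs₃, h13'.symm, by rw [← h']; exact h23'.symm⟩
    · exact ⟨x₂, h2 hx₂, hs₂, h12'.symm, h'⟩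
  obtain ⟨b, hb, hbs, hby⟩ := hpart y hy hys
  by_cases hbx : b = x₁
  · subst hbx
    obtain ⟨z, hz, hzs⟩ := hc3 b (h1 hx₁) a (Bl_mono (by omega) _ ha) y
      (Bl_mono (by omega) _ (Bl_symm' hb)) ⟨hax.symm, hyx.symm, hya.symm⟩
    simp only [mem_insert, mem_singleton] at hz
    rcases hz with rfl | rfl | rfl
    · exact hzs hbs
    · exact hzs has
    · exact hzs hys
  · by_cases hba : b = a
    · subst hba
      obtain ⟨z, hz, hzs⟩ := hc3 x₁ (h1 hx₁) b (Bl_mono (by omega) _ ha) y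
        (Bl_mono (by omega) _ (Bl_comp ha (Bl_symm' hb))) ⟨hax.symm, hyx.symm, hby⟩
      simp only [mem_insert, mem_singleton] at hz
      rcases hz with rfl | rfl | rfl
      · exact hzs hs₁
      · exact hzs has
      · exact hzs hys
    · obtain ⟨z, hz, hzs⟩ := hc4 x₁ (h1 hx₁) y hy a ha b hb
        ⟨hyx.symm, hax.symm, Ne.symm hbx, hya, hby.symm, Ne.symm hba⟩
      simp only [mem_insert, mem_singleton] at hz
      rcases hz with rfl | rfl | rfl | rfl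
      · exact hzs hs₁
      · exact hzs hys
      · exact hzs has
      · exact hzs hbs

theorem pr_unc (h3 : ∀ v, G.degree v = 3) {r ρ n₀ : ℕ} {v : V}
    (hκ : ∀ x w, w ∈ Bl G.Adj (4 * ρ) x → w ≠ x → κ w ≠ κ x) (hr : 2 * r ≤ ρ)
    (hn : 3 * n₀ ≤ (Bl G.Adj ρ v).card) :
    pr (fun ξ : Fin Q → Fin N => Unc G κ r ρ ξ v) ≤ 3 * (1 - 1 / (N : ℝ)) ^ n₀ +
      (3 * 2 ^ ρ) ^ 2 * (3 * 2 ^ r) ^ 2 / (N : ℝ) ^ 4 +
      (3 * 2 ^ ρ) * (3 * 2 ^ (2 * r)) ^ 2 / (N : ℝ) ^ 3 := by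
  classical
  have hN : (0 : ℝ) < N := by exact_mod_cast Nat.pos_of_ne_zero (NeZero.ne N)
  have hinj : ∀ a ∈ Bl G.Adj (2 * ρ) v, ∀ b ∈ Bl G.Adj (2 * ρ) v, κ a = κ b → a = b := by
    intro a ha b hb hab
    by_contra hne
    exact hκ b a (by
      have := Bl_comp (Bl_symm' hb) ha
      rwa [← two_mul, ← mul_assoc] at this) hne hab
  obtain ⟨A₁, hA₁, hc1⟩ := exists_subset_card_eq (s := Bl G.Adj ρ v) (n := n₀) (by omega)
  obtain ⟨A₂, hA₂, hc2⟩ := exists_subset_card_eq (s := Bl G.Adj ρ v \ A₁) (n := n₀) (by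
    rw [card_sdiff_of_subset hA₁]; omega)
  obtain ⟨A₃, hA₃, hc3⟩ := exists_subset_card_eq (s := (Bl G.Adj ρ v \ A₁) \ A₂) (n := n₀) (by
    rw [card_sdiff_of_subset hA₂, card_sdiff_of_subset hA₁]; omega)
  have hA₂' : A₂ ⊆ Bl G.Adj ρ v := hA₂.trans sdiff_subset
  have hA₃' : A₃ ⊆ Bl G.Adj ρ v := hA₃.trans (sdiff_subset.trans sdiff_subset)
  have h12 : Disjoint A₁ A₂ := (disjoint_sdiff (s := A₁) (t := Bl G.Adj ρ v)).mono_right hA₂
  have h13 : Disjoint A₁ A₃ := (disjoint_sdiff (s := A₁) (t := Bl G.Adj ρ v)).mono_right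
    (hA₃.trans sdiff_subset)
  have h23 : Disjoint A₂ A₃ := (disjoint_sdiff (s := A₂) (t := Bl G.Adj ρ v \ A₁)).mono_right hA₃
  have hsub : ∀ {A : Finset V}, A ⊆ Bl G.Adj ρ v → ∀ a ∈ A, ∀ b ∈ A, κ a = κ b → a = b :=
    fun hA a ha b hb => hinj a (Bl_mono (by omega) _ (hA ha)) b (Bl_mono (by omega) _ (hA hb))
  have hb : ∀ n x, (Bl G.Adj n x).card ≤ 3 * 2 ^ n := fun n x => by
    have := Bl_card G h3 n x; omega
  have hmem : ∀ {n x y}, x ∈ Bl G.Adj ρ v → n ≤ ρ → y ∈ Bl G.Adj n x →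
      y ∈ Bl G.Adj (2 * ρ) v := fun hx hn hy => Bl_mono (by omega) _ (Bl_comp hx hy)
  have h4 : pr (fun ξ : Fin Q → Fin N => ∃ x ∈ Bl G.Adj ρ v, ∃ y ∈ Bl G.Adj ρ v,
      ∃ a ∈ Bl G.Adj r x, ∃ b ∈ Bl G.Adj r y,
      (x ≠ y ∧ x ≠ a ∧ x ≠ b ∧ y ≠ a ∧ y ≠ b ∧ a ≠ b) ∧
        ∀ z ∈ ({x, y, a, b} : Finset V), ξ (κ z) = 0) ≤
      ((3 * 2 ^ ρ : ℕ) : ℝ) * (((3 * 2 ^ ρ : ℕ) : ℝ) * (((3 * 2 ^ r : ℕ) : ℝ) *
        (((3 * 2 ^ r : ℕ) : ℝ) * (1 / (N : ℝ) ^ 4)))) := by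
    refine pr_exists_le _ _ (hb _ _) (by positivity) fun x hx => ?_
    refine pr_exists_le _ _ (hb _ _) (by positivity) fun y hy => ?_
    refine pr_exists_le _ _ (hb _ _) (by positivity) fun a ha => ?_
    refine pr_exists_le _ _ (hb _ _) (by positivity) fun b hb => ?_
    by_cases hd : x ≠ y ∧ x ≠ a ∧ x ≠ b ∧ y ≠ a ∧ y ≠ b ∧ a ≠ b
    · have hcard : ({x, y, a, b} : Finset V).card = 4 := by
        rw [card_insert_of_notMem, card_insert_of_notMem, card_insert_of_notMem, card_singleton]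
        · simpa using hd.2.2.2.2.2
        · simp only [mem_insert, mem_singleton]; push Not; exact ⟨hd.2.2.2.1, hd.2.2.2.2.1⟩
        · simp only [mem_insert, mem_singleton]; push Not; exact ⟨hd.1, hd.2.1, hd.2.2.1⟩
      rw [← hcard, ← pr_sel (N := N) κ ({x, y, a, b} : Finset V) ?_]
      · exact pr_mono fun ξ h => h.2
      · have hall : ∀ z ∈ ({x, y, a, b} : Finset V), z ∈ Bl G.Adj (2 * ρ) v := by
          intro z hz
          simp only [mem_insert, mem_singleton] at hz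
          rcases hz with rfl | rfl | rfl | rfl
          · exact Bl_mono (by omega) _ hx
          · exact Bl_mono (by omega) _ hy
          · exact hmem hx (by omega) ha
          · exact hmem hy (by omega) hb
        exact fun z hz w hw => hinj z (hall z hz) w (hall w hw)
    · refine (pr_mono (P' := fun _ => False) fun ξ h => hd h.1).trans ?_
      rw [pr_eq]
      simp only [filter_false, card_empty, Nat.cast_zero, zero_div]
      positivity
  have h5 : pr (fun ξ : Fin Q → Fin N => ∃ x ∈ Bl G.Adj ρ v, ∃ a ∈ Bl G.Adj (2 * r) x,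
      ∃ b ∈ Bl G.Adj (2 * r) x,
      (x ≠ a ∧ x ≠ b ∧ a ≠ b) ∧ ∀ z ∈ ({x, a, b} : Finset V), ξ (κ z) = 0) ≤
      ((3 * 2 ^ ρ : ℕ) : ℝ) * (((3 * 2 ^ (2 * r) : ℕ) : ℝ) * (((3 * 2 ^ (2 * r) : ℕ) : ℝ) *
        (1 / (N : ℝ) ^ 3))) := by
    refine pr_exists_le _ _ (hb _ _) (by positivity) fun x hx => ?_
    refine pr_exists_le _ _ (hb _ _) (by positivity) fun a ha => ?_
    refine pr_exists_le _ _ (hb _ _) (by positivity) fun b hb => ?_
    by_cases hd : x ≠ a ∧ x ≠ b ∧ a ≠ b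
    · have hcard : ({x, a, b} : Finset V).card = 3 := by
        rw [card_insert_of_notMem, card_insert_of_notMem, card_singleton]
        · simpa using hd.2.2
        · simp only [mem_insert, mem_singleton]; push Not; exact ⟨hd.1, hd.2.1⟩
      rw [← hcard, ← pr_sel (N := N) κ ({x, a, b} : Finset V) ?_]
      · exact pr_mono fun ξ h => h.2
      · have hall : ∀ z ∈ ({x, a, b} : Finset V), z ∈ Bl G.Adj (2 * ρ) v := by
          intro z hz
          simp only [mem_insert, mem_singleton] at hz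
          rcases hz with rfl | rfl | rfl
          · exact Bl_mono (by omega) _ hx
          · exact hmem hx (by omega) ha
          · exact hmem hx (by omega) hb
        exact fun z hz w hw => hinj z (hall z hz) w (hall w hw)
    · refine (pr_mono (P' := fun _ => False) fun ξ h => hd h.1).trans ?_
      rw [pr_eq]
      simp only [filter_false, card_empty, Nat.cast_zero, zero_div]
      positivity
  refine (pr_mono fun ξ h => unc_cases h hA₁ hA₂' hA₃' h12 h13 h23).trans ?_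
  refine (pr_or _ _).trans ?_
  have e1 := pr_or (fun ξ : Fin Q → Fin N => ∀ a ∈ A₁, ξ (κ a) ≠ 0)
    (fun ξ : Fin Q → Fin N => ∀ a ∈ A₂, ξ (κ a) ≠ 0)
  rw [pr_unsel κ A₁ (hsub hA₁), pr_unsel κ A₂ (hsub hA₂'), hc1, hc2] at e1
  have e2 := pr_unsel (N := N) κ A₃ (hsub hA₃')
  rw [hc3] at e2
  refine (add_le_add e1 ((pr_or _ _).trans (add_le_add e2.le ((pr_or _ _).trans
    (add_le_add h4 h5))))).trans ?_
  push_cast
  apply le_of_eq
  ring

end Sel

end Pool.Agent.Iso5
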