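import Mathlib
import Pool.Agent.Work.MP_974d84_co_iso.Rand

/-!
# Finitely many partitions of a cubic graph of large girth which split no set too much
-/

set_option linter.unusedSectionVars false

namespace Pool.Agent.Iso5

open Finset SimpleGraph Pool.Agent.Exp Pool.Agent.Log5

theorem pnum {ρ m s : ℕ} (hm : 4 * ρ ≤ 2 ^ m) (hs : 8 * s + 4 * m + 7 ≤ ρ) :
    1 / (((2 ^ (ρ - m) : ℕ)) : ℝ) + (3 * (1 - 1 / (((2 ^ (ρ - m) : ℕ)) : ℝ)) ^ (2 ^ (ρ - 2)) +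
      (3 * 2 ^ ρ) ^ 2 * (3 * 2 ^ (2 * s)) ^ 2 / (((2 ^ (ρ - m) : ℕ)) : ℝ) ^ 4 +
      (3 * 2 ^ ρ) * (3 * 2 ^ (2 * (2 * s))) ^ 2 / (((2 ^ (ρ - m) : ℕ)) : ℝ) ^ 3)
      ≤ 2 ^ (m + 1) / 2 ^ ρ := by
  have hN : (((2 ^ (ρ - m) : ℕ)) : ℝ) = 2 ^ ρ / 2 ^ m := by
    push_cast
    rw [eq_div_iff (by positivity), ← pow_add]
    congr 1; omega
  rw [hN]
  have hx0 : (0 : ℝ) < 2 ^ ρ := by positivity
  have hy0 : (0 : ℝ) < 2 ^ m := by positivity
  have hz1 : (1 : ℝ) ≤ 2 ^ s := one_le_pow₀ (by norm_num)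
  have hy28 : (28 : ℝ) ≤ 2 ^ m := by
    have : 28 ≤ 2 ^ m := by omega
    exact_mod_cast this
  have hx : 128 * ((2 : ℝ) ^ s) ^ 8 * ((2 : ℝ) ^ m) ^ 4 ≤ 2 ^ ρ := by
    rw [← pow_mul, ← pow_mul, show (128 : ℝ) = 2 ^ 7 by norm_num, ← pow_add, ← pow_add]
    exact pow_le_pow_right₀ (by norm_num) (by omega)
  have hx2 : (2 : ℝ) ^ (2 * s) = (2 ^ s) ^ 2 := by rw [← pow_mul]; congr 1; ring
  have hx3 : (2 : ℝ) ^ (2 * (2 * s)) = (2 ^ s) ^ 4 := by rw [← pow_mul]; congr 1; ring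
  have hexp : 3 * (1 - 1 / ((2 : ℝ) ^ ρ / 2 ^ m)) ^ (2 ^ (ρ - 2)) ≤ 1 / 2 ^ ρ := by
    have hn0 : ((2 ^ (ρ - 2) : ℕ) : ℝ) = 2 ^ ρ / 4 := by
      push_cast
      rw [eq_div_iff (by norm_num), show (4 : ℝ) = 2 ^ 2 by norm_num, ← pow_add]
      congr 1; omega
    have h1 : 1 - 1 / ((2 : ℝ) ^ ρ / 2 ^ m) ≤ Real.exp (-(2 ^ m / 2 ^ ρ)) := by
      have := Real.add_one_le_exp (-((2 : ℝ) ^ m / 2 ^ ρ))
      rw [one_div_div]; linarith
    have h0 : 0 ≤ 1 - 1 / ((2 : ℝ) ^ ρ / 2 ^ m) := by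
      rw [one_div_div, sub_nonneg, div_le_one hx0]
      exact pow_le_pow_right₀ (by norm_num) (by omega)
    have h2 : (1 - 1 / ((2 : ℝ) ^ ρ / 2 ^ m)) ^ (2 ^ (ρ - 2)) ≤ Real.exp (-ρ) := by
      refine (pow_le_pow_left₀ h0 h1 _).trans ?_
      rw [← Real.exp_nat_mul, hn0]
      apply Real.exp_le_exp.2
      have h3 : (2 : ℝ) ^ ρ / 4 * -(2 ^ m / 2 ^ ρ) = -(2 ^ m / 4) := by field_simp
      rw [h3]
      have h4 : (4 : ℝ) * ρ ≤ 2 ^ m := by exact_mod_cast hm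
      linarith
    have h5 : 3 * (2 : ℝ) ^ ρ ≤ Real.exp ρ := by
      have h6 : Real.exp ρ = Real.exp 1 ^ ρ := by rw [← Real.exp_nat_mul, mul_one]
      have h7 : (2.7 : ℝ) ≤ Real.exp 1 := by
        have := Real.exp_one_gt_d9; linarith
      rw [h6]
      refine le_trans ?_ (pow_le_pow_left₀ (by norm_num) h7 ρ)
      have h8 : (2.7 : ℝ) ^ ρ = (1.35 : ℝ) ^ ρ * 2 ^ ρ := by rw [← mul_pow]; norm_num
      rw [h8]
      have h9 : (3 : ℝ) ≤ 1.35 ^ ρ :=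
        le_trans (by norm_num : (3 : ℝ) ≤ 1.35 ^ 7) (pow_le_pow_right₀ (by norm_num) (by omega))
      gcongr
    calc 3 * (1 - 1 / ((2 : ℝ) ^ ρ / 2 ^ m)) ^ (2 ^ (ρ - 2)) ≤ 3 * Real.exp (-ρ) := by gcongr
      _ = 3 / Real.exp ρ := by rw [Real.exp_neg]; ring
      _ ≤ 3 / (3 * 2 ^ ρ) := by gcongr
      _ = 1 / 2 ^ ρ := by rw [div_eq_div_iff (by positivity) (by positivity)]; ring
  set x : ℝ := 2 ^ ρ with hxd
  set y : ℝ := 2 ^ m with hyd
  set z : ℝ := 2 ^ s with hzd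
  rw [hx2, hx3]
  have e1 : (3 * x) ^ 2 * (3 * z ^ 2) ^ 2 / (x / y) ^ 4 ≤ 1 / x := by
    rw [div_pow, div_div_eq_mul_div, div_le_div_iff₀ (by positivity) hx0]
    have h1 : 81 * z ^ 4 * y ^ 4 ≤ x := by
      refine le_trans ?_ hx
      have : z ^ 4 ≤ z ^ 8 := pow_le_pow_right₀ hz1 (by norm_num)
      have h5 : 0 < y ^ 4 := by positivity
      nlinarith [mul_le_mul_of_nonneg_right this h5.le, mul_nonneg (pow_nonneg (by linarith : (0:ℝ) ≤ z) 8) h5.le]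
    have h2 : (3 * x) ^ 2 * (3 * z ^ 2) ^ 2 * y ^ 4 * x = (81 * z ^ 4 * y ^ 4) * x ^ 3 := by ring
    rw [h2]
    calc (81 * z ^ 4 * y ^ 4) * x ^ 3 ≤ x * x ^ 3 := by gcongr
      _ = 1 * x ^ 4 := by ring
  have e2 : 3 * x * (3 * z ^ 4) ^ 2 / (x / y) ^ 3 ≤ 1 / x := by
    rw [div_pow, div_div_eq_mul_div, div_le_div_iff₀ (by positivity) hx0]
    have h1 : 27 * z ^ 8 * y ^ 3 ≤ x := by
      refine le_trans ?_ hx
      have h5 : y ^ 3 ≤ y ^ 4 := pow_le_pow_right₀ (by linarith) (by norm_num)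
      have h6 : 0 ≤ z ^ 8 := by positivity
      have h7 : 0 ≤ y ^ 4 := by positivity
      nlinarith [mul_le_mul_of_nonneg_left h5 h6, mul_nonneg h6 h7]
    have h2 : 3 * x * (3 * z ^ 4) ^ 2 * y ^ 3 * x = (27 * z ^ 8 * y ^ 3) * x ^ 2 := by ring
    rw [h2]
    calc (27 * z ^ 8 * y ^ 3) * x ^ 2 ≤ x * x ^ 2 := by gcongr
      _ = 1 * x ^ 3 := by ring
  have e3 : 1 / (x / y) = y / x := one_div_div _ _
  have e4 : (2 : ℝ) ^ (m + 1) / x = y / x + y / x := by rw [pow_succ]; ring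
  rw [e4]
  rw [e3] at hexp ⊢
  have e5 : 1 / x + 1 / x + 1 / x ≤ y / x := by
    rw [← add_div, ← add_div]
    gcongr; linarith
  linarith

variable {V : Type} [Fintype V] [DecidableEq V] {G : SimpleGraph V} [DecidableRel G.Adj]

theorem Bl_lower {ρ : ℕ} {θ : V → List Bool → V} (hθ : IsTree G ρ θ) {j : ℕ} (hj : j ≤ ρ)
    (v : V) : 2 ^ j ≤ (Bl G.Adj j v).card := by
  classical
  have h1 : ((univ : Finset (List.Vector Bool j)).image fun c => θ v c.toList) ⊆ Bl G.Adj j v := by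
    intro x hx
    rw [mem_image] at hx
    obtain ⟨c, -, rfl⟩ := hx
    have := hθ.ball v c.toList
    rwa [c.toList_length] at this
  have h2 := card_le_card h1
  rw [card_image_of_injective _ (fun c c' h => by
    apply List.Vector.toList_injective
    exact hθ.inj v _ _ (by rw [c.toList_length]; exact hj) (by rw [c'.toList_length]; exact hj) h),
    card_univ] at h2
  simpa using h2

open Classical in
/-- Ordered pairs of neighbours on different sides. -/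
noncomputable def cp (G : SimpleGraph V) (S : Finset V) : Finset (V × V) :=
  univ.filter fun p => G.Adj p.1 p.2 ∧ ¬ (p.1 ∈ S ↔ p.2 ∈ S)

theorem cp_card (S : Finset V) : (cp G S).card = 2 * dd G S := by
  classical
  have h : cp G S = Pool.Agent.Work.MP_314beb_co.cut G S ∪
      Pool.Agent.Work.MP_314beb_co.cut G Sᶜ := by
    ext p
    simp only [cp, mem_filter, mem_univ, true_and, mem_union, mem_cut, mem_compl, not_not]
    tauto
  have hd : Disjoint (Pool.Agent.Work.MP_314beb_co.cut G S)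
      (Pool.Agent.Work.MP_314beb_co.cut G Sᶜ) := by
    rw [Finset.disjoint_left]
    intro p h1 h2
    rw [mem_cut] at h1 h2
    rw [mem_compl] at h2
    exact h2.1 h1.1
  rw [h, card_union_of_disjoint hd]
  have := dd_compl G S
  unfold dd at this ⊢
  omega

section Est

variable {Ω : Type} [Fintype Ω] {c : Ω → V → V} {Y : Ω → Finset V} {ρ : ℕ} {p : ℝ}

theorem cross_bound (h3 : ∀ v, G.degree v = 3) (hp : 0 ≤ p) (hcY : ∀ ξ v, c ξ v ∈ Y ξ)
    (hcB : ∀ ξ v, c ξ v ∈ Bl G.Adj ρ v) (hY : ∀ y, pr (fun ξ => y ∈ Y ξ) ≤ p) {S : Finset V}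
    {v : V} {j : ℕ} (hj : ∀ y ∈ Bl G.Adj j v, (y ∈ S ↔ v ∈ S)) :
    pr (fun ξ => ¬ (v ∈ S ↔ c ξ v ∈ S)) ≤ ∑ i ∈ Ico j ρ,
      ∑ e ∈ (cp G S).filter (fun e => e.1 ∈ Bl G.Adj i v), 3 * 2 ^ (ρ - 1 - i) * p := by
  classical
  refine (pr_mono (P' := fun ξ => ∃ i ∈ Ico j ρ,
    ∃ e ∈ (cp G S).filter (fun e => e.1 ∈ Bl G.Adj i v),
      ∃ y ∈ Bl G.Adj (ρ - 1 - i) e.2, y ∈ Y ξ) fun ξ h => ?_).trans ?_
  · obtain ⟨i, hi, x, x', h1, h2, h4, h5, h6⟩ := exists_cross (hcB ξ v) h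
    refine ⟨i, mem_Ico.2 ⟨?_, hi⟩, (x, x'), ?_, c ξ v, h4, hcY ξ v⟩
    · by_contra hlt
      have h7 : x' ∈ Bl G.Adj (i + 1) v := mem_Bl_succ.2 (Or.inr ⟨x, h2, h1⟩)
      have := hj x' (Bl_mono (by omega) _ h7)
      exact h6 this.symm
    · simp only [cp, mem_filter, mem_univ, true_and]
      exact ⟨⟨h1, fun h7 => h6 (h5.trans h7)⟩, h2⟩
  · refine (pr_exists _ _).trans (sum_le_sum fun i _ => ?_)
    refine (pr_exists _ _).trans (sum_le_sum fun e _ => ?_)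
    have := pr_exists_le (Bl G.Adj (ρ - 1 - i) e.2) (fun y (ξ : Ω) => y ∈ Y ξ)
      (n := 3 * 2 ^ (ρ - 1 - i)) (by have := Bl_card G h3 (ρ - 1 - i) e.2; omega) hp
      (fun y _ => hY y)
    refine this.trans (le_of_eq ?_)
    push_cast; ring

theorem pr_sum (T : Finset V) (P : Ω → V → Prop) [∀ ξ, DecidablePred (P ξ)] :
    ∑ ξ, ((T.filter (P ξ)).card : ℝ) = (∑ v ∈ T, pr fun ξ => P ξ v) * Fintype.card Ω := by
  classical
  rcases isEmpty_or_nonempty Ω with hΩ | hΩ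
  · simp [pr]
  · have hc : (0 : ℝ) < Fintype.card Ω := by exact_mod_cast Fintype.card_pos
    rw [sum_mul]
    have h1 : ∀ v ∈ T, pr (fun ξ => P ξ v) * Fintype.card Ω
        = ∑ ξ : Ω, if P ξ v then (1 : ℝ) else 0 := by
      intro v _
      rw [pr_eq, div_mul_cancel₀ _ hc.ne', sum_boole]
    rw [sum_congr rfl h1, sum_comm]
    refine sum_congr rfl fun ξ _ => ?_
    rw [sum_boole]

theorem all_bound (h3 : ∀ v, G.degree v = 3) (hp : 0 ≤ p) (hcY : ∀ ξ v, c ξ v ∈ Y ξ)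
    (hcB : ∀ ξ v, c ξ v ∈ Bl G.Adj ρ v) (hY : ∀ y, pr (fun ξ => y ∈ Y ξ) ≤ p) (S : Finset V) :
    ∑ ξ, ((univ.filter fun v => ¬ (v ∈ S ↔ c ξ v ∈ S)).card : ℝ) ≤
      9 * ρ * (2 ^ ρ * p) * dd G S * Fintype.card Ω := by
  classical
  rw [pr_sum]
  refine mul_le_mul_of_nonneg_right ?_ (by positivity)
  have h1 : ∀ v ∈ (univ : Finset V), pr (fun ξ => ¬ (v ∈ S ↔ c ξ v ∈ S)) ≤
      ∑ i ∈ range ρ, ∑ e ∈ cp G S, if v ∈ Bl G.Adj i e.1 then 3 * 2 ^ (ρ - 1 - i) * p else 0 := by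
    intro v _
    have := cross_bound h3 hp hcY hcB hY (S := S) (v := v) (j := 0) (by
      intro y hy; rw [mem_Bl_zero] at hy; rw [hy])
    refine this.trans (le_of_eq ?_)
    rw [← range_eq_Ico]
    refine sum_congr rfl fun i _ => ?_
    rw [sum_filter]
    refine sum_congr rfl fun e _ => ?_
    have : e.1 ∈ Bl G.Adj i v ↔ v ∈ Bl G.Adj i e.1 := ⟨Bl_symm', Bl_symm'⟩
    simp only [this]
  refine (sum_le_sum h1).trans ?_
  rw [sum_comm]
  have h2 : ∀ i ∈ range ρ, ∑ v : V, ∑ e ∈ cp G S,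
      (if v ∈ Bl G.Adj i e.1 then 3 * 2 ^ (ρ - 1 - i) * p else 0) ≤
      9 * (2 ^ ρ * p) * dd G S := by
    intro i hi
    rw [mem_range] at hi
    rw [sum_comm]
    have h4 : ∀ e ∈ cp G S, ∑ v : V, (if v ∈ Bl G.Adj i e.1 then 3 * 2 ^ (ρ - 1 - i) * p else 0)
        ≤ 9 * (2 ^ ρ * p) / 2 := by
      intro e _
      rw [← sum_filter, sum_const, nsmul_eq_mul, filter_mem_eq_inter, univ_inter]
      have h5 : ((Bl G.Adj i e.1).card : ℝ) ≤ 3 * 2 ^ i := by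
        have := Bl_card G h3 i e.1
        have h6 : (Bl G.Adj i e.1).card ≤ 3 * 2 ^ i := by omega
        exact_mod_cast h6
      have h7 : (2 : ℝ) ^ ρ = 2 * (2 ^ i * 2 ^ (ρ - 1 - i)) := by
        rw [← pow_add, ← pow_succ']
        congr 1; omega
      calc ((Bl G.Adj i e.1).card : ℝ) * (3 * 2 ^ (ρ - 1 - i) * p)
          ≤ (3 * 2 ^ i) * (3 * 2 ^ (ρ - 1 - i) * p) := by gcongr
        _ = 9 * (2 ^ ρ * p) / 2 := by rw [h7]; ring
    refine (sum_le_sum h4).trans ?_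
    rw [sum_const, nsmul_eq_mul, cp_card]
    push_cast
    apply le_of_eq; ring
  refine (sum_le_sum h2).trans ?_
  rw [sum_const, card_range, nsmul_eq_mul]
  apply le_of_eq; ring

theorem clean_bound (h3 : ∀ v, G.degree v = 3) (hp : 0 ≤ p) (hcY : ∀ ξ v, c ξ v ∈ Y ξ)
    (hcB : ∀ ξ v, c ξ v ∈ Bl G.Adj ρ v) (hY : ∀ y, pr (fun ξ => y ∈ Y ξ) ≤ p) (T S : Finset V)
    (hT : ∀ u ∈ T, ∀ v ∈ T, u ≠ v → Disjoint (Bl G.Adj ρ u) (Bl G.Adj ρ v)) {j : ℕ}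
    (hj : ∀ t ∈ T, ∀ y ∈ Bl G.Adj j t, (y ∈ S ↔ t ∈ S)) :
    ∑ ξ, ((T.filter fun t => ¬ (t ∈ S ↔ c ξ t ∈ S)).card : ℝ) ≤
      6 * (2 ^ ρ * p) / 2 ^ j * dd G S * Fintype.card Ω := by
  classical
  rw [pr_sum]
  refine mul_le_mul_of_nonneg_right ?_ (by positivity)
  have h1 : ∀ t ∈ T, pr (fun ξ => ¬ (t ∈ S ↔ c ξ t ∈ S)) ≤
      ∑ e ∈ cp G S, if t ∈ Bl G.Adj ρ e.1 then ∑ i ∈ Ico j ρ, 3 * 2 ^ (ρ - 1 - i) * p else 0 := by
    intro t ht
    refine (cross_bound h3 hp hcY hcB hY (hj t ht)).trans ?_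
    rw [← sum_filter, sum_comm' (s := Ico j ρ)
      (t := fun i => (cp G S).filter (fun e => e.1 ∈ Bl G.Adj i t))
      (t' := cp G S) (s' := fun e => (Ico j ρ).filter fun i => e.1 ∈ Bl G.Adj i t)
      (by intro i e; simp only [mem_filter]; tauto)]
    rw [sum_filter]
    refine sum_le_sum fun e _ => ?_
    split_ifs with he
    · refine sum_le_sum_of_subset_of_nonneg (filter_subset _ _) fun i _ _ => by positivity
    · rw [filter_false_of_mem, sum_empty]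
      intro i hi h
      rw [mem_Ico] at hi
      exact he (Bl_symm' (Bl_mono (by omega) _ h))
  refine (sum_le_sum h1).trans ?_
  rw [sum_comm]
  have hgeo : ∑ i ∈ Ico j ρ, (3 : ℝ) * 2 ^ (ρ - 1 - i) * p ≤ 3 * (2 ^ ρ * p) / 2 ^ j := by
    rw [← sum_mul, ← mul_sum]
    have h5 : ∑ i ∈ Ico j ρ, (2 : ℝ) ^ (ρ - 1 - i) ≤ 2 ^ ρ / 2 ^ j := by
      have h6 : ∀ n, j ≤ n → ∑ i ∈ Ico j n, (2 : ℝ) ^ (n - 1 - i) ≤ 2 ^ (n - j) := by
        intro n hn
        induction n, hn using Nat.le_induction with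
        | base => simp
        | succ n hn ih =>
          rw [sum_Ico_succ_top hn]
          have h7 : ∑ i ∈ Ico j n, (2 : ℝ) ^ (n + 1 - 1 - i) ≤ 2 ^ (n - j) * 2 - 1 := by
            have h8 : ∑ i ∈ Ico j n, (2 : ℝ) ^ (n + 1 - 1 - i)
                = 2 * ∑ i ∈ Ico j n, (2 : ℝ) ^ (n - 1 - i) := by
              rw [mul_sum]
              refine sum_congr rfl fun i hi => ?_
              rw [mem_Ico] at hi
              rw [← pow_succ']; congr 1; omega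
            have h9 : ∑ i ∈ Ico j n, (2 : ℝ) ^ (n - 1 - i) = 2 ^ (n - j) - 1 := by
              clear h8 ih
              induction n, hn using Nat.le_induction with
              | base => simp
              | succ n hn ih2 =>
                rw [sum_Ico_succ_top hn]
                have : ∑ i ∈ Ico j n, (2 : ℝ) ^ (n + 1 - 1 - i)
                    = 2 * ∑ i ∈ Ico j n, (2 : ℝ) ^ (n - 1 - i) := by
                  rw [mul_sum]
                  refine sum_congr rfl fun i hi => ?_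
                  rw [mem_Ico] at hi
                  rw [← pow_succ']; congr 1; omega
                rw [this, ih2, show n + 1 - 1 - n = 0 by omega, show n + 1 - j = (n - j) + 1 by omega,
                  pow_succ]
                ring
            rw [h8, h9]
            linarith
          rw [show n + 1 - 1 - n = 0 by omega, pow_zero, show n + 1 - j = (n - j) + 1 by omega,
            pow_succ]
          linarith
      by_cases hjρ : j ≤ ρ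
      · refine (h6 ρ hjρ).trans (le_of_eq ?_)
        rw [eq_div_iff (by positivity), ← pow_add]; congr 1; omega
      · rw [Ico_eq_empty (by omega), sum_empty]; positivity
    calc 3 * (∑ i ∈ Ico j ρ, (2 : ℝ) ^ (ρ - 1 - i)) * p ≤ 3 * (2 ^ ρ / 2 ^ j) * p := by gcongr
      _ = 3 * (2 ^ ρ * p) / 2 ^ j := by ring
  have h2 : ∀ e ∈ cp G S, ∑ t ∈ T, (if t ∈ Bl G.Adj ρ e.1 then
      ∑ i ∈ Ico j ρ, 3 * 2 ^ (ρ - 1 - i) * p else 0) ≤ 3 * (2 ^ ρ * p) / 2 ^ j := by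
    intro e _
    rw [← sum_filter, sum_const, nsmul_eq_mul]
    have hle : (T.filter fun t => t ∈ Bl G.Adj ρ e.1).card ≤ 1 := by
      rw [card_le_one]
      intro a ha b hb
      rw [mem_filter] at ha hb
      by_contra hne
      exact Finset.disjoint_left.1 (hT a ha.1 b hb.1 hne) (Bl_symm' ha.2) (Bl_symm' hb.2)
    have hle' : ((T.filter fun t => t ∈ Bl G.Adj ρ e.1).card : ℝ) ≤ 1 := by exact_mod_cast hle
    have hpos : 0 ≤ ∑ i ∈ Ico j ρ, (3 : ℝ) * 2 ^ (ρ - 1 - i) * p :=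
      sum_nonneg fun i _ => by positivity
    calc _ ≤ 1 * ∑ i ∈ Ico j ρ, (3 : ℝ) * 2 ^ (ρ - 1 - i) * p := by gcongr
      _ ≤ _ := by rw [one_mul]; exact hgeo
  refine (sum_le_sum h2).trans ?_
  rw [sum_const, nsmul_eq_mul, cp_card]
  push_cast
  apply le_of_eq; ring

end Est

/-- Finitely many partitions into joined classes which are large and of bounded radius, such
that on average no vertex set is changed much when its vertices are replaced by the classes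
whose centres it contains. -/
theorem exists_partitions (h3 : ∀ v, G.degree v = 3) {ρ m s : ℕ} (hm : 4 * ρ ≤ 2 ^ m)
    (hs : 8 * s + 4 * m + 7 ≤ ρ) (hg : Gir G (2 * ρ + 2)) :
    ∃ (Ξ : Type) (_ : Fintype Ξ) (_ : Nonempty Ξ) (c : Ξ → V → V),
      Fintype.card Ξ ≤ (2 ^ ρ) ^ (3 * 2 ^ (4 * ρ)) ∧
      (∀ ξ v, Joined G (univ.filter fun y => c ξ y = c ξ v)) ∧
      (∀ ξ v, 2 ^ s ≤ (univ.filter fun y => c ξ y = c ξ v).card) ∧
      (∀ ξ v, c ξ v ∈ Bl G.Adj ρ v) ∧ (∀ ξ v, c ξ (c ξ v) = c ξ v) ∧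
      (∀ S : Finset V, ∑ ξ, ((univ.filter fun v => ¬ (v ∈ S ↔ c ξ v ∈ S)).card : ℝ) ≤
        9 * ρ * 2 ^ (m + 1) * dd G S * Fintype.card Ξ) ∧
      ∀ (T S : Finset V) (j : ℕ),
        (∀ u ∈ T, ∀ v ∈ T, u ≠ v → Disjoint (Bl G.Adj ρ u) (Bl G.Adj ρ v)) →
        (∀ t ∈ T, ∀ y ∈ Bl G.Adj j t, (y ∈ S ↔ t ∈ S)) →
        ∑ ξ, ((T.filter fun t => ¬ (t ∈ S ↔ c ξ t ∈ S)).card : ℝ) ≤
          6 * 2 ^ (m + 1) / 2 ^ j * dd G S * Fintype.card Ξ := by
  classical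
  obtain ⟨θ, hθ⟩ := exists_tree h3 hg
  obtain ⟨κ, hκ⟩ := exists_colour h3 (4 * ρ)
  have hNz : NeZero (2 ^ (ρ - m)) := ⟨by positivity⟩
  let U : (Fin (3 * 2 ^ (4 * ρ)) → Fin (2 ^ (ρ - m))) → Finset V :=
    fun ξ => univ.filter (Unc G κ (2 * s) ρ ξ)
  have hZ := fun ξ => exists_sep (G := G) (U ξ) (2 * s)
  choose Z hZU hZ1 hZ2 using hZ
  let Y : (Fin (3 * 2 ^ (4 * ρ)) → Fin (2 ^ (ρ - m))) → Finset V :=
    fun ξ => (univ.filter (Isl G κ (2 * s) ξ)) ∪ Z ξ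
  have hcov : ∀ ξ v, ∃ y ∈ Y ξ, y ∈ Bl G.Adj ρ v := by
    intro ξ v
    by_cases hU : Unc G κ (2 * s) ρ ξ v
    · obtain ⟨z, hz, hzv⟩ := hZ2 ξ v (mem_filter.2 ⟨mem_univ _, hU⟩)
      exact ⟨z, mem_union_right _ hz, Bl_mono (by omega) _ hzv⟩
    · unfold Unc at hU
      push Not at hU
      obtain ⟨y, hy, hI⟩ := hU
      exact ⟨y, mem_union_left _ (mem_filter.2 ⟨mem_univ _, hI⟩), hy⟩
  have hsep : ∀ ξ, ∀ y ∈ Y ξ, ∀ y' ∈ Y ξ, y ≠ y' → y' ∉ Bl G.Adj (2 * s) y := by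
    intro ξ y hy y' hy' hne h
    rw [mem_union, mem_filter] at hy hy'
    have hIZ : ∀ a b, Isl G κ (2 * s) ξ a → b ∈ Z ξ → b ∉ Bl G.Adj (2 * s) a := by
      intro a b ha hb hab
      have h1 := hZU ξ hb
      rw [mem_filter] at h1
      exact h1.2 a (Bl_mono (by omega) _ (Bl_symm' hab)) ha
    rcases hy with ⟨-, hy⟩ | hy
    · rcases hy' with ⟨-, hy'⟩ | hy'
      · exact hne (hy.2 y' h hy'.1).symm
      · exact hIZ y y' hy hy' h
    · rcases hy' with ⟨-, hy'⟩ | hy'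
      · exact hIZ y' y hy' hy (Bl_symm' h)
      · exact hZ1 ξ y hy y' hy' hne h
  have hnear := fun ξ => exists_nearest (G := G) (ρ := ρ) (s := s) (by omega) (Y ξ) (hcov ξ)
    (hsep ξ)
  choose c hcY hcB hcJ hcS using hnear
  have hp : (0 : ℝ) ≤ 2 ^ (m + 1) / 2 ^ ρ := by positivity
  have hY : ∀ y, pr (fun ξ => y ∈ Y ξ) ≤ 2 ^ (m + 1) / 2 ^ ρ := by
    intro y
    refine (pr_mono (P' := fun ξ => (∀ a ∈ ({y} : Finset V), ξ (κ a) = 0) ∨
      Unc G κ (2 * s) ρ ξ y) fun ξ h => ?_).trans ((pr_or _ _).trans ?_)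
    · rw [mem_union, mem_filter] at h
      rcases h with ⟨-, h⟩ | h
      · left
        intro a ha
        rw [mem_singleton] at ha
        rw [ha]; exact h.1
      · right
        have := hZU ξ h
        rw [mem_filter] at this
        exact this.2
    · rw [pr_sel κ {y} (by
        intro a ha b hb _
        rw [mem_singleton] at ha hb
        rw [ha, hb]), card_singleton, pow_one]
      have h1 := pr_unc (κ := κ) (N := 2 ^ (ρ - m)) h3 (r := 2 * s) (ρ := ρ)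
        (n₀ := 2 ^ (ρ - 2)) (v := y) hκ (by omega) (by
          have h2 := Bl_lower hθ le_rfl y
          have h4 : 2 ^ ρ = 4 * 2 ^ (ρ - 2) := by
            rw [show (4 : ℕ) = 2 ^ 2 by norm_num, ← pow_add]; congr 1; omega
          omega)
      refine (add_le_add le_rfl h1).trans (pnum hm hs)
  have hself : ∀ ξ v, c ξ (c ξ v) = c ξ v := by
    intro ξ v
    have := hcS ξ v (Bl_self s (c ξ v))
    rw [mem_filter] at this
    exact this.2
  have hpρ : (2 : ℝ) ^ ρ * (2 ^ (m + 1) / 2 ^ ρ) = 2 ^ (m + 1) := by field_simp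
  refine ⟨Fin (3 * 2 ^ (4 * ρ)) → Fin (2 ^ (ρ - m)), inferInstance, ⟨fun _ => 0⟩, c, ?_, hcJ,
    fun ξ v => ?_, hcB, hself, fun S => ?_, fun T S j hT hj => ?_⟩
  · rw [Fintype.card_fun, Fintype.card_fin, Fintype.card_fin]
    exact Nat.pow_le_pow_left (Nat.pow_le_pow_right (by norm_num) (Nat.sub_le _ _)) _
  · exact (Bl_lower hθ (by omega) (c ξ v)).trans (card_le_card (hcS ξ v))
  · have := all_bound h3 hp hcY hcB hY S
    rw [hpρ] at this
    exact this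
  · have := clean_bound h3 hp hcY hcB hY T S hT hj
    rw [hpρ] at this
    exact this

end Pool.Agent.Iso5
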