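import Mathlib
import Pool.Agent.Work.MP_974d84_co_log.Cluster

/-!
# P1a: the local cluster lemma
-/

set_option linter.unusedSectionVars false
set_option linter.unusedVariables false

namespace Pool.Agent.Iso5

open Finset SimpleGraph
open Pool.Agent.Exp Pool.Agent.Log5 Pool.Agent.Log5.Clu
open Pool.Agent.Work.MP_314beb_co

/-- The merging inequality. -/
theorem merge_gen {m q : ℕ} (hq : q + 1 ≤ m) {D : ℝ}
    (hD : Real.log m ≤ ((m : ℝ) - 1) * D) : (m : ℝ) ≤ ((m : ℝ) - q) * Real.exp (q * D) := by
  rcases Nat.lt_or_ge 1 m with h1 | h1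
  swap
  · have hm : m = 1 := by omega
    have hq0 : q = 0 := by omega
    subst hm hq0
    simp
  have hm1 : (1 : ℝ) < m := by exact_mod_cast h1
  have hm0 : (0 : ℝ) < (m : ℝ) - 1 := by linarith
  have hqm : (q : ℝ) ≤ (m : ℝ) - 1 := by
    have : ((q + 1 : ℕ) : ℝ) ≤ m := by exact_mod_cast hq
    push_cast at this; linarith
  set t : ℝ := q / ((m : ℝ) - 1) with ht
  have ht0 : 0 ≤ t := by positivity
  have ht1 : t ≤ 1 := by rw [ht, div_le_one hm0]; exact hqm
  have hAG := Real.geom_mean_le_arith_mean2_weighted (w₁ := 1 - t) (w₂ := t) (p₁ := (m : ℝ))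
    (p₂ := 1) (by linarith) ht0 (by linarith) (by norm_num) (by ring)
  rw [Real.one_rpow, mul_one, mul_one] at hAG
  have e1 : (1 - t) * (m : ℝ) + t = (m : ℝ) - q := by
    have : t * ((m : ℝ) - 1) = q := by rw [ht]; field_simp
    linarith
  rw [e1] at hAG
  have h2 : (m : ℝ) ^ t ≤ Real.exp (q * D) := by
    rw [Real.rpow_def_of_pos (by linarith)]
    apply Real.exp_le_exp.2
    have : (q : ℝ) * D = t * (((m : ℝ) - 1) * D) := by rw [ht]; field_simp
    rw [this, mul_comm]
    exact mul_le_mul_of_nonneg_left hD ht0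
  have h3 : (m : ℝ) ^ (1 - t) * (m : ℝ) ^ t = m := by
    rw [← Real.rpow_add (by linarith)]
    simp
  calc (m : ℝ) = (m : ℝ) ^ (1 - t) * (m : ℝ) ^ t := h3.symm
    _ ≤ ((m : ℝ) - q) * Real.exp (q * D) := by
        refine mul_le_mul hAG h2 (by positivity) ?_
        linarith

variable {V : Type} [Fintype V] [DecidableEq V] {G : SimpleGraph V} [DecidableRel G.Adj]

variable (G) in
/-- Potential of a vertex set. -/
noncomputable def Ph (h : ℕ → ℝ) (c : V → V) (S : Finset V) : ℝ :=
  ∑ p ∈ cut G S, (h (cls c p.1).card + h (cls c p.2).card)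

theorem Ph_compl (h : ℕ → ℝ) (c : V → V) (S : Finset V) : Ph G h c Sᶜ = Ph G h c S := by
  unfold Ph
  rw [cut_compl, sum_image (fun a _ b _ h => Prod.swap_injective h)]
  exact sum_congr rfl fun p _ => by simp [add_comm]

theorem Ph_nonneg {h : ℕ → ℝ} (h0 : ∀ a, 0 ≤ h a) (c : V → V) (S : Finset V) :
    0 ≤ Ph G h c S := sum_nonneg fun p _ => add_nonneg (h0 _) (h0 _)

theorem Ph_le {h : ℕ → ℝ} {η : ℝ} (c : V → V) (hη : ∀ x, h (cls c x).card ≤ η) (S : Finset V) :
    Ph G h c S ≤ 2 * η * dd G S := by
  unfold Ph dd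
  calc _ ≤ ∑ _p ∈ cut G S, (η + η) := sum_le_sum fun p _ => add_le_add (hη _) (hη _)
    _ = 2 * η * ((cut G S).card : ℝ) := by
      rw [sum_const, nsmul_eq_mul]
      ring

theorem Ph_merge_aux {h : ℕ → ℝ} (hanti : ∀ a b : ℕ, 1 ≤ a → a ≤ b → h b ≤ h a)
    {c : V → V} {x0 y : V} (hy : c y ≠ c x0)
    (hsm : (cls c x0).card ≤ (cls c y).card) {S : Finset V} (hAS : cls c x0 ⊆ S) :
    Ph G h (mrg c x0 y) S +
        (qq G (cls c x0) S).card * (h (cls c x0).card - h (2 * (cls c x0).card))
      ≤ Ph G h c S := by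
  set A := cls c x0 with hA
  have hmono : ∀ z, h (cls (mrg c x0 y) z).card ≤ h (cls c z).card := fun z =>
    hanti _ _ (cls_card_pos c z) (card_le_card (cls_sub_mrg c x0 y z))
  have hAz : ∀ z ∈ A, h (cls (mrg c x0 y) z).card + (h A.card - h (2 * A.card))
      ≤ h (cls c z).card := by
    intro z hz
    have hz' : c z = c x0 := mem_cls.1 hz
    have h1 : cls c z = A := by ext w; rw [mem_cls, hA, mem_cls, hz']
    have h2 : cls (mrg c x0 y) z = A ∪ cls c y := cls_mrg_of (Or.inl hz')
    have h3 : Disjoint A (cls c y) := by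
      rw [Finset.disjoint_left]
      intro w hw hw'
      rw [hA, mem_cls] at hw
      rw [mem_cls] at hw'
      exact hy (hw'.symm.trans hw)
    rw [h1, h2, card_union_of_disjoint h3]
    have h4 : h (A.card + (cls c y).card) ≤ h (2 * A.card) := by
      apply hanti
      · have := cls_card_pos c x0
        rw [← hA] at this
        omega
      · omega
    linarith
  have hQ : qq G A S = (cut G S).filter fun p => p.1 ∈ A := by
    ext p
    unfold qq
    rw [mem_filter, mem_filter, mem_cut, mem_cut]
    constructor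
    · rintro ⟨⟨h1, h2, h3⟩, h4⟩
      have h5 : p.1 ∈ S := hAS h1
      have h6 : p.2 ∉ S := fun h => h4 ⟨fun _ => h, fun _ => h5⟩
      exact ⟨⟨h5, h6, h3⟩, h1⟩
    · rintro ⟨⟨h1, h2, h3⟩, h4⟩
      exact ⟨⟨h4, fun h => h2 (hAS h), h3⟩, fun h => h2 (h.1 h1)⟩
  have h1 : ∀ p ∈ cut G S, (h (cls (mrg c x0 y) p.1).card + h (cls (mrg c x0 y) p.2).card)
      + (if p.1 ∈ A then (h A.card - h (2 * A.card)) else 0) ≤
      h (cls c p.1).card + h (cls c p.2).card := by
    intro p hp
    by_cases hpA : p.1 ∈ A
    · rw [if_pos hpA]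
      have := hAz p.1 hpA
      have := hmono p.2
      linarith
    · rw [if_neg hpA]
      have := hmono p.1
      have := hmono p.2
      linarith
  have h2 := sum_le_sum h1
  rw [sum_add_distrib, ← sum_filter, sum_const, nsmul_eq_mul, ← hQ] at h2
  exact h2

theorem Ph_merge {h : ℕ → ℝ} (hanti : ∀ a b : ℕ, 1 ≤ a → a ≤ b → h b ≤ h a)
    {c : V → V} {x0 y : V} (hy : c y ≠ c x0)
    (hsm : (cls c x0).card ≤ (cls c y).card) {S : Finset V}
    (hAS : cls c x0 ⊆ S ∨ cls c x0 ⊆ Sᶜ) :
    Ph G h (mrg c x0 y) S +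
        (qq G (cls c x0) S).card * (h (cls c x0).card - h (2 * (cls c x0).card))
      ≤ Ph G h c S := by
  rcases hAS with hS | hS
  · exact Ph_merge_aux hanti hy hsm hS
  · have := Ph_merge_aux (G := G) hanti hy hsm hS
    rwa [Ph_compl, Ph_compl, qq_compl] at this

/-- The number of times the class of a vertex can double. -/
def dbl (s a : ℕ) : ℕ := if a ≤ s then Nat.log 2 (s / a) + 1 else 0

theorem dbl_anti {s a b : ℕ} (ha : 1 ≤ a) (hab : a ≤ b) : dbl s b ≤ dbl s a := by
  unfold dbl
  split_ifs with h1 h2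
  · have : Nat.log 2 (s / b) ≤ Nat.log 2 (s / a) :=
      Nat.log_mono_right (Nat.div_le_div_left hab ha)
    omega
  · omega
  · omega
  · omega

theorem dbl_double {s a b : ℕ} (ha : 1 ≤ a) (has : a ≤ s) (hab : 2 * a ≤ b) :
    dbl s b + 1 ≤ dbl s a := by
  have h1 := dbl_anti (s := s) (a := 2 * a) (b := b) (by omega) hab
  refine le_trans (Nat.add_le_add_right h1 1) ?_
  unfold dbl
  rw [if_pos has]
  split_ifs with h2
  · have h3 : s / (2 * a) = s / a / 2 := by
      rw [Nat.div_div_eq_div_mul, mul_comm a 2]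
    have h4 : 2 ≤ s / a := by
      rw [Nat.le_div_iff_mul_le (by omega)]
      exact h2
    rw [h3, Nat.log_div_base]
    have h5 : 1 ≤ Nat.log 2 (s / a) := Nat.log_pos (by norm_num) h4
    omega
  · omega

theorem dbl_le {s a : ℕ} (ha : 1 ≤ a) : dbl s a ≤ Nat.log 2 s + 1 := by
  refine (dbl_anti (s := s) (a := 1) (b := a) le_rfl ha).trans ?_
  unfold dbl
  split_ifs
  · rw [Nat.div_one]
  · omega

open Classical in
/-- The local cluster lemma. -/
theorem local_cluster {h : ℕ → ℝ} (h0 : ∀ a, 0 ≤ h a)
    (hanti : ∀ a b : ℕ, 1 ≤ a → a ≤ b → h b ≤ h a) {a₀ : ℕ}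
    (hstep : ∀ A : Finset V, A.Nonempty → Joined G A → 2 * A.card ≤ Fintype.card V →
      A.card < a₀ → 1 ≤ dd G A ∧
        Real.log (dd G A) ≤ ((dd G A : ℝ) - 1) * (h A.card - h (2 * A.card)))
    (Fam : Finset (Finset V)) {t₀ : V} {s : ℕ}
    (hF : ∀ S ∈ Fam, Joined G S ∧ Joined G Sᶜ ∧ t₀ ∈ S ∧ 2 * S.card ≤ Fintype.card V ∧
      S.card ≤ s) {M : ℝ} (hM0 : 0 ≤ M)
    (hM : ∀ c : V → V, (∀ x, Joined G (cls c x)) → (∀ x, a₀ ≤ (cls c x).card) →
      ((Fam.filter fun S => Clo c S).card : ℝ) ≤ M) :
    ∀ n : ℕ, ∀ c : V → V, (univ.image c).card ≤ n → (∀ x, Joined G (cls c x)) →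
      ∑ S ∈ Fam.filter (fun S => Clo c S), Real.exp (- Ph G h c S) ≤
        M + dbl (min s (a₀ - 1)) (cls c t₀).card := by
  set s' := min s (a₀ - 1) with hs'
  have hexp1 : ∀ (c : V → V) (S : Finset V), Real.exp (- Ph G h c S) ≤ 1 := by
    intro c S
    rw [← Real.exp_zero]
    apply Real.exp_le_exp.2
    have := Ph_nonneg (G := G) h0 c S
    linarith
  intro n
  induction n with
  | zero =>
    intro c hc hj
    have h1 : univ.image c = (∅ : Finset V) := card_eq_zero.1 (by omega)
    have : c t₀ ∈ (∅ : Finset V) := h1 ▸ mem_image_of_mem c (mem_univ t₀)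
    simp at this
  | succ n ih =>
    intro c hc hj
    by_cases hbig : ∀ x, a₀ ≤ (cls c x).card
    · have h1 : ∑ S ∈ Fam.filter (fun S => Clo c S), Real.exp (- Ph G h c S) ≤ M := by
        refine (le_trans ?_ (hM c hj hbig))
        rw [← nsmul_one, ← sum_const]
        exact sum_le_sum fun S _ => hexp1 c S
      have h2 : (0 : ℝ) ≤ dbl s' (cls c t₀).card := Nat.cast_nonneg _
      linarith
    push Not at hbig
    obtain ⟨x1, hx1⟩ := hbig
    -- the class of `t₀` is small
    by_cases hts : (cls c t₀).card ≤ s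
    swap
    · have he : Fam.filter (fun S => Clo c S) = ∅ := by
        rw [filter_eq_empty_iff]
        intro S hS hcl
        obtain ⟨-, -, h1, -, h2⟩ := hF S hS
        apply hts
        refine (card_le_card ?_).trans h2
        intro y hy
        exact (hcl y t₀ (mem_cls.1 hy)).2 h1
      rw [he, sum_empty]
      positivity
    -- a smallest class
    obtain ⟨x0, hx0, hx0t⟩ : ∃ x0, (∀ y, (cls c x0).card ≤ (cls c y).card) ∧
        (x0 = t₀ ∨ (cls c x0).card < (cls c t₀).card) := by
      obtain ⟨z, -, hz⟩ := exists_min_image (univ : Finset V) (fun x => (cls c x).card)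
        ⟨x1, mem_univ x1⟩
      by_cases h1 : (cls c t₀).card ≤ (cls c z).card
      · exact ⟨t₀, fun y => h1.trans (hz y (mem_univ y)), Or.inl rfl⟩
      · exact ⟨z, fun y => hz y (mem_univ y), Or.inr (by omega)⟩
    have hx0K : (cls c x0).card < a₀ := lt_of_le_of_lt (hx0 x1) hx1
    set A := cls c x0 with hA
    have hAne : A.Nonempty := ⟨x0, self_mem_cls c x0⟩
    have hs1 : 1 ≤ A.card := hAne.card_pos
    have hAlab : ∀ z, z ∈ A ↔ c z = c x0 := fun z => mem_cls
    -- closed members contain the class of `t₀`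
    have htS : ∀ S ∈ Fam.filter (fun S => Clo c S), cls c t₀ ⊆ S := by
      intro S hS y hy
      rw [mem_filter] at hS
      exact (hS.2 y t₀ (mem_cls.1 hy)).2 (hF S hS.1).2.2.1
    by_cases hhalf : 2 * A.card ≤ Fintype.card V
    swap
    · have he : Fam.filter (fun S => Clo c S) = ∅ := by
        rw [eq_empty_iff_forall_notMem]
        intro S hS
        have h1 := card_le_card (htS S hS)
        have h2 := (hF S (mem_filter.1 hS).1).2.2.2.1
        have h4 := hx0 t₀
        omega
      rw [he, sum_empty]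
      positivity
    obtain ⟨hm1, hmlog⟩ := hstep A hAne (hj x0) hhalf hx0K
    set m := dd G A with hmdef
    -- merged partitions
    have hst : ∀ p ∈ cut G A,
        ∑ S ∈ Fam.filter (fun S => Clo (mrg c x0 p.2) S), Real.exp (- Ph G h (mrg c x0 p.2) S)
          ≤ M + dbl s' (cls (mrg c x0 p.2) t₀).card := by
      intro p hp
      rw [mem_cut] at hp
      have hne : c x0 ≠ c p.2 := fun h => hp.2.1 ((hAlab _).2 h.symm)
      apply ih
      · have := mrg_card hne
        omega
      · intro z
        by_cases hz : c z = c x0 ∨ c z = c p.2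
        · rw [cls_mrg_of hz]
          exact joined_union (hj x0) (hj p.2) hp.1 (self_mem_cls c p.2) hp.2.2
        · push Not at hz
          rw [cls_mrg_of_not hz.1 hz.2]
          exact hj z
    -- each closed set
    have hS : ∀ S ∈ (Fam.filter (fun S => Clo c S)).erase A, (m : ℝ) * Real.exp (- Ph G h c S)
        ≤ ∑ p ∈ cut G A, if Clo (mrg c x0 p.2) S then Real.exp (- Ph G h (mrg c x0 p.2) S)
          else 0 := by
      intro S hS
      rw [mem_erase] at hS
      obtain ⟨hSA, hSf⟩ := hS
      have htS' := htS S hSf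
      rw [mem_filter] at hSf
      obtain ⟨hSF, hSc⟩ := hSf
      obtain ⟨hj1, hj2, ht0, hn2, hss⟩ := hF S hSF
      have hsplit : A ⊆ S ∨ A ⊆ Sᶜ := by
        by_cases h : x0 ∈ S
        · left
          intro z hz
          exact (hSc z x0 ((hAlab z).1 hz)).2 h
        · right
          intro z hz
          rw [mem_compl]
          exact fun hz' => h ((hSc z x0 ((hAlab z).1 hz)).1 hz')
      have hSA' : A ⊆ Sᶜ → A ≠ Sᶜ := by
        intro hsub he
        rcases hx0t with h1 | h1
        · have h2 : x0 ∈ Sᶜ := hsub (self_mem_cls c x0)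
          rw [mem_compl, h1] at h2
          exact h2 ht0
        · have h2 := card_le_card htS'
          have h3 := card_add_card_compl S
          rw [← he] at h3
          omega
      have hq : (qq G A S).card + 1 ≤ m := by
        have key : ∀ T : Finset V, A ⊆ T → Joined G T → A ≠ T → (qq G A T).card + 1 ≤ m := by
          intro T hAT hT hKT
          obtain ⟨u, hu, v, hv, hvA, huv⟩ := hT A hAT hAne hKT
          have h1 : (u, v) ∈ cut G A := (mem_cut G).2 ⟨hu, hvA, huv⟩
          have h2 : qq G A T ⊂ cut G A := by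
            refine (ssubset_iff_of_subset (filter_subset _ _)).2 ⟨(u, v), h1, ?_⟩
            rw [mem_filter]
            rintro ⟨-, h⟩
            exact h ⟨fun _ => hv, fun _ => hAT hu⟩
          have := card_lt_card h2
          rw [hmdef]
          unfold dd
          omega
        rcases hsplit with h | h
        · exact key S h hj1 (Ne.symm hSA)
        · have := key Sᶜ h hj2 (hSA' h)
          rwa [qq_compl] at this
      set q := (qq G A S).card with hqdef
      set D := h A.card - h (2 * A.card) with hD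
      have hmi := merge_gen hq hmlog
      have h1 : ∑ p ∈ cut G A \ qq G A S, Real.exp (- Ph G h c S + q * D)
          ≤ ∑ p ∈ cut G A, if Clo (mrg c x0 p.2) S then Real.exp (- Ph G h (mrg c x0 p.2) S)
            else 0 := by
        refine le_trans (sum_le_sum fun p hp => ?_)
          (sum_le_sum_of_subset_of_nonneg sdiff_subset fun p _ _ => by
            split
            · positivity
            · exact le_refl _)
        rw [mem_sdiff] at hp
        obtain ⟨hp1, hp2⟩ := hp
        have hp3 : p.1 ∈ S ↔ p.2 ∈ S := by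
          by_contra h
          exact hp2 (mem_filter.2 ⟨hp1, h⟩)
        rw [mem_cut] at hp1
        have hclo : Clo (mrg c x0 p.2) S := by
          rw [clo_mrg]
          refine ⟨hSc, ?_⟩
          rw [← hp3]
          exact (hSc x0 p.1 ((hAlab p.1).1 hp1.1).symm)
        rw [if_pos hclo]
        apply Real.exp_le_exp.2
        have := Ph_merge (G := G) hanti (c := c) (x0 := x0) (y := p.2)
          (fun h => hp1.2.1 ((hAlab _).2 h)) (hx0 p.2) (S := S) hsplit
        linarith
      refine le_trans ?_ h1
      have hqsub : qq G A S ⊆ cut G A := filter_subset _ _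
      rw [sum_const, nsmul_eq_mul, card_sdiff_of_subset hqsub]
      have h2 : (((cut G A).card - (qq G A S).card : ℕ) : ℝ) = (m : ℝ) - q := by
        rw [Nat.cast_sub (card_le_card hqsub)]
        rfl
      rw [h2, Real.exp_add]
      calc (m : ℝ) * Real.exp (- Ph G h c S)
          ≤ (((m : ℝ) - q) * Real.exp (q * D)) * Real.exp (- Ph G h c S) :=
            mul_le_mul_of_nonneg_right hmi (Real.exp_pos _).le
        _ = ((m : ℝ) - q) * (Real.exp (- Ph G h c S) * Real.exp (q * D)) := by ring
    -- the sum without `A`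
    have hsum : ∀ N : ℝ, (∀ p ∈ cut G A, M + dbl s' (cls (mrg c x0 p.2) t₀).card ≤ N) →
        ∑ S ∈ (Fam.filter (fun S => Clo c S)).erase A, Real.exp (- Ph G h c S) ≤ N := by
      intro N hN
      have hsum' : (m : ℝ) * ∑ S ∈ (Fam.filter (fun S => Clo c S)).erase A,
          Real.exp (- Ph G h c S) ≤ (m : ℝ) * N := by
        rw [mul_sum]
        refine (sum_le_sum hS).trans ?_
        rw [sum_comm]
        have h1 : ∀ p ∈ cut G A, (∑ S ∈ (Fam.filter (fun S => Clo c S)).erase A,
            if Clo (mrg c x0 p.2) S then Real.exp (- Ph G h (mrg c x0 p.2) S) else 0) ≤ N := by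
          intro p hp
          refine le_trans ?_ ((hst p hp).trans (hN p hp))
          rw [← sum_filter]
          refine sum_le_sum_of_subset_of_nonneg ?_ fun S _ _ => (Real.exp_pos _).le
          intro S hS
          rw [mem_filter, mem_erase, mem_filter] at hS
          exact mem_filter.2 ⟨hS.1.2.1, hS.2⟩
        refine (sum_le_sum h1).trans ?_
        rw [sum_const, nsmul_eq_mul]
        exact le_of_eq rfl
      have hm0 : (0 : ℝ) < m := by exact_mod_cast (by omega : 0 < m)
      exact le_of_mul_le_mul_left hsum' hm0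
    rcases hx0t with h1 | h1
    · -- the class of `t₀` is merged
      have hat : cls c t₀ = A := by rw [hA, h1]
      have h2 : ∑ S ∈ Fam.filter (fun S => Clo c S), Real.exp (- Ph G h c S) ≤
          1 + ∑ S ∈ (Fam.filter (fun S => Clo c S)).erase A, Real.exp (- Ph G h c S) := by
        by_cases hAm : A ∈ Fam.filter (fun S => Clo c S)
        · rw [← add_sum_erase _ _ hAm]
          have := hexp1 c A
          linarith
        · rw [erase_eq_of_notMem hAm]
          linarith
      have hts' : (cls c t₀).card ≤ s' := by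
        rw [hs', hat]
        rw [hat] at hts
        omega
      have h3 := hsum (M + dbl s' (cls c t₀).card - 1) (by
        intro p hp
        rw [mem_cut] at hp
        have hcard : 2 * (cls c t₀).card ≤ (cls (mrg c x0 p.2) t₀).card := by
          have e1 : cls (mrg c x0 p.2) t₀ = A ∪ cls c p.2 := by
            rw [hA]
            exact cls_mrg_of (Or.inl (by rw [h1]))
          have e2 : Disjoint A (cls c p.2) := by
            rw [Finset.disjoint_left]
            intro w hw hw'
            rw [hAlab] at hw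
            rw [mem_cls] at hw'
            exact hp.2.1 ((hAlab _).2 (hw'.symm.trans hw))
          rw [e1, card_union_of_disjoint e2, hat]
          have := hx0 p.2
          omega
        have := dbl_double (s := s') (cls_card_pos c t₀) hts' hcard
        have h5 : ((dbl s' (cls (mrg c x0 p.2) t₀).card + 1 : ℕ) : ℝ) ≤
            dbl s' (cls c t₀).card := by exact_mod_cast this
        push_cast at h5
        linarith)
      linarith
    · -- another class is merged
      have hAm : A ∉ Fam.filter (fun S => Clo c S) := by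
        intro hAm
        have h2 := htS A hAm
        have h3 := card_le_card h2
        omega
      have h3 := hsum (M + dbl s' (cls c t₀).card) (by
        intro p hp
        have := dbl_anti (s := s') (cls_card_pos c t₀)
          (card_le_card (cls_sub_mrg c x0 p.2 t₀))
        have h5 : ((dbl s' (cls (mrg c x0 p.2) t₀).card : ℕ) : ℝ) ≤
            dbl s' (cls c t₀).card := by exact_mod_cast this
        linarith)
      rwa [erase_eq_of_notMem hAm] at h3

end Pool.Agent.Iso5
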