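import Mathlib
import Pool.Agent.Work.MP_974d84_co_iso.Local
import Pool.Agent.Work.MP_974d84_co_log.Steiner

/-!
# P1c, first part: the number of bonds through a vertex
-/

set_option linter.unusedSectionVars false
set_option linter.unusedVariables false

namespace Pool.Agent.Iso5

open Finset SimpleGraph
open Pool.Agent.Exp Pool.Agent.Log5 Pool.Agent.Log5.Clu
open Pool.Agent.Work.MP_314beb_co

variable {V : Type} [Fintype V] [DecidableEq V] {G : SimpleGraph V} [DecidableRel G.Adj]

/-- Unions of large classes with different traces. -/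
theorem part_count {Kw : ℕ} (hKw : 0 < Kw) {a₀ : ℕ} (ha0 : 0 < a₀)
    (hsep : ∀ X : Finset V, a₀ ≤ X.card → a₀ ≤ Xᶜ.card → Kw ≤ dd G X) (W : Finset V) (c : V → V)
    (hcK : ∀ x, a₀ ≤ (cls c x).card) (F : Finset (Finset V)) (hcl : ∀ S ∈ F, Clo c S)
    (hinj : ∀ S ∈ F, ∀ S' ∈ F, (∀ v ∈ W, (v ∈ S ↔ v ∈ S')) → S = S') {D a : ℕ}
    (hD : ∀ S ∈ F, dd G S ≤ D) (ha : 8 * D ≤ a * Kw) (ha1 : 1 ≤ a) :
    F.card ≤ (2 * (W.card + 1)) ^ a := by
  classical
  have hcK' : ∀ z ∈ W.image c, a₀ ≤ (univ.filter fun y => c y = z).card := by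
    intro z hz
    obtain ⟨x, _, rfl⟩ := mem_image.1 hz
    exact hcK x
  have h1 := steiner_karger_finset G (D := D) hKw ha1 ha (W.image c)
    (fun z => univ.filter fun y => c y = z)
    (fun z hz => by
      rw [← card_pos]
      exact lt_of_lt_of_le ha0 (hcK' z hz))
    (fun z hz z' hz' _ X h1 h2 => by
      refine hsep X ?_ ?_
      · exact (hcK' z hz).trans (card_le_card h1)
      · refine (hcK' z' hz').trans (card_le_card ?_)
        intro v hv
        rw [mem_compl]
        exact fun hvX => (Finset.disjoint_left.1 h2) hv hvX)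
    F
    (fun S hS z hz => by
      obtain ⟨x, _, rfl⟩ := mem_image.1 hz
      by_cases hx : x ∈ S
      · left
        intro v hv
        rw [mem_filter] at hv
        exact (hcl S hS v x hv.2).2 hx
      · right
        rw [Finset.disjoint_left]
        intro v hv hvS
        rw [mem_filter] at hv
        exact hx ((hcl S hS v x hv.2).1 hvS))
    hD
    (fun S hS S' hS' h => by
      refine hinj S hS S' hS' fun v hv => ?_
      have e := h (c v) (mem_image_of_mem c hv)
      have key : ∀ S ∈ F, ((univ.filter fun y => c y = c v) ⊆ S ↔ v ∈ S) := by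
        intro S hS
        constructor
        · intro hsub
          exact hsub (mem_filter.2 ⟨mem_univ v, rfl⟩)
        · intro hv' y hy
          rw [mem_filter] at hy
          exact (hcl S hS y v hy.2).2 hv'
      rw [← key S hS, ← key S' hS']
      exact e)
  refine h1.trans (Nat.pow_le_pow_left ?_ a)
  have := card_image_le (s := W) (f := c)
  omega

/-- The number of closed bonds with a given vertex in the small side. -/
theorem local_count_aux {h : ℕ → ℝ} (h0 : ∀ a, 0 ≤ h a)
    (hanti : ∀ a b : ℕ, 1 ≤ a → a ≤ b → h b ≤ h a) {a₀ : ℕ} (ha0 : 0 < a₀)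
    (hstep : ∀ A : Finset V, A.Nonempty → Joined G A → 2 * A.card ≤ Fintype.card V →
      A.card < a₀ → 1 ≤ dd G A ∧
        Real.log (dd G A) ≤ ((dd G A : ℝ) - 1) * (h A.card - h (2 * A.card)))
    {Kw : ℕ} (hKw : 0 < Kw)
    (hsep : ∀ X : Finset V, a₀ ≤ X.card → a₀ ≤ Xᶜ.card → Kw ≤ dd G X)
    {c : V → V} (hj : ∀ x, Joined G (cls c x)) {η : ℝ} (hη : ∀ x, h (cls c x).card ≤ η)
    (W : Finset V) (Fam : Finset (Finset V)) {t₀ : V} {s D a : ℕ}
    (hF : ∀ S ∈ Fam, Joined G S ∧ Joined G Sᶜ ∧ t₀ ∈ S ∧ 2 * S.card ≤ Fintype.card V ∧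
      S.card ≤ s) (hcl : ∀ S ∈ Fam, Clo c S) (hD : ∀ S ∈ Fam, dd G S = D)
    (hinj : ∀ S ∈ Fam, ∀ S' ∈ Fam, (∀ v ∈ W, (v ∈ S ↔ v ∈ S')) → S = S')
    (ha : 8 * D ≤ a * Kw) (ha1 : 1 ≤ a) :
    (Fam.card : ℝ) ≤ Real.exp (2 * η * D) *
      ((if Kw ≤ D then (2 * ((W.card : ℝ) + 1)) ^ a else 0) + (Nat.log 2 (min s (a₀ - 1)) + 1)) := by
  classical
  set M : ℝ := if Kw ≤ D then (2 * ((W.card : ℝ) + 1)) ^ a else 0 with hM
  have hM0 : 0 ≤ M := by
    rw [hM]
    split_ifs
    · positivity
    · exact le_rfl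
  have h1 := local_cluster (G := G) h0 hanti hstep Fam hF hM0 (by
    intro c' hj' hbig
    by_cases hK : Kw ≤ D
    · rw [hM, if_pos hK]
      have h2 := part_count (G := G) hKw ha0 hsep W c' hbig (Fam.filter fun S => Clo c' S)
        (fun S hS => (mem_filter.1 hS).2)
        (fun S hS S' hS' => hinj S (mem_filter.1 hS).1 S' (mem_filter.1 hS').1)
        (fun S hS => (hD S (mem_filter.1 hS).1).le) ha ha1
      exact_mod_cast h2
    · rw [hM, if_neg hK]
      have he : Fam.filter (fun S => Clo c' S) = ∅ := by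
        rw [filter_eq_empty_iff]
        intro S hS hclS
        obtain ⟨-, -, ht0, h2, -⟩ := hF S hS
        apply hK
        rw [← hD S hS]
        refine hsep S ?_ ?_
        · refine (hbig t₀).trans (card_le_card ?_)
          intro y hy
          exact (hclS y t₀ (mem_cls.1 hy)).2 ht0
        · have h3 := card_add_card_compl S
          have h4 : 0 < S.card := card_pos.2 ⟨t₀, ht0⟩
          have h5 : 0 < Sᶜ.card := by omega
          obtain ⟨x, hx⟩ := card_pos.1 h5
          refine (hbig x).trans (card_le_card ?_)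
          intro y hy
          rw [mem_compl] at hx ⊢
          exact fun h => hx ((hclS y x (mem_cls.1 hy)).1 h)
      rw [he]
      simp) (univ.image c).card c le_rfl hj
  have h2 : Fam.filter (fun S => Clo c S) = Fam := filter_true_of_mem hcl
  rw [h2] at h1
  have h3 : (Fam.card : ℝ) * Real.exp (-(2 * η * D)) ≤ ∑ S ∈ Fam, Real.exp (- Ph G h c S) := by
    rw [← nsmul_eq_mul, ← sum_const]
    refine sum_le_sum fun S hS => Real.exp_le_exp.2 ?_
    have := Ph_le (G := G) (h := h) c hη S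
    rw [hD S hS] at this
    linarith
  have h4 : (dbl (min s (a₀ - 1)) (cls c t₀).card : ℝ) ≤ Nat.log 2 (min s (a₀ - 1)) + 1 := by
    exact_mod_cast dbl_le (s := min s (a₀ - 1)) (cls_card_pos c t₀)
  have h5 : (Fam.card : ℝ) * Real.exp (-(2 * η * D)) ≤
      M + (Nat.log 2 (min s (a₀ - 1)) + 1) := by linarith
  rw [Real.exp_neg, ← div_eq_mul_inv, div_le_iff₀ (Real.exp_pos _)] at h5
  rw [mul_comm]
  exact h5

end Pool.Agent.Iso5
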