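import Mathlib
import Pool.Agent.Work.MP_974d84_co_log.Cluster

/-!
# Numbers for the local cluster lemma
-/

set_option linter.unusedSectionVars false

namespace Pool.Agent.Iso5

open Pool.Agent.Log5

theorem rpow_anti {x y z : ℝ} (hy : 0 < y) (hxy : y ≤ x) (hz : z ≤ 0) : x ^ z ≤ y ^ z :=
  Real.antitoneOn_rpow_Ioi_of_exponent_nonpos hz hy (lt_of_lt_of_le hy hxy) hxy

theorem rpow_diff {x t s : ℝ} (hx : 0 < x) (ht : 0 ≤ t) (hs : 0 ≤ s) :
    s * t * (x + t) ^ (-s - 1) ≤ x ^ (-s) - (x + t) ^ (-s) := by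
  have hy : 0 < x + t := by linarith
  have h1 : (x + t) ^ (-s - 1) = (x + t) ^ (-s) / (x + t) := Real.rpow_sub_one hy.ne' _
  have h2 : x ^ (-s) = (x + t) ^ (-s) * ((x + t) / x) ^ s := by
    rw [Real.div_rpow hy.le hx.le, Real.rpow_neg hy.le, Real.rpow_neg hx.le]
    have h3 : (x + t) ^ s ≠ 0 := (Real.rpow_pos_of_pos hy s).ne'
    field_simp
  have h3 : 1 + s * (t / (x + t)) ≤ ((x + t) / x) ^ s := by
    have h4 : t / (x + t) ≤ Real.log ((x + t) / x) := by
      have h5 := Real.one_sub_inv_le_log_of_pos (div_pos hy hx)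
      have h6 : 1 - ((x + t) / x)⁻¹ = t / (x + t) := by
        field_simp
        ring
      linarith
    rw [Real.rpow_def_of_pos (div_pos hy hx)]
    have h7 := Real.add_one_le_exp (Real.log ((x + t) / x) * s)
    nlinarith [mul_le_mul_of_nonneg_left h4 hs]
  have h4 : 0 < (x + t) ^ (-s) := Real.rpow_pos_of_pos hy _
  rw [h1, h2]
  have h5 : s * t * ((x + t) ^ (-s) / (x + t)) = (x + t) ^ (-s) * (s * (t / (x + t))) := by ring
  rw [h5]
  nlinarith [mul_le_mul_of_nonneg_left h3 h4.le]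

/-- P1b: the weight function of the local cluster lemma. -/
theorem exists_h {δ τ : ℝ} (hδ : 0 < δ) (hτ : 0 < τ) : ∃ (h : ℕ → ℝ) (C : ℝ),
    (∀ a, 0 ≤ h a) ∧ (∀ a b : ℕ, 1 ≤ a → a ≤ b → h b ≤ h a) ∧
    (∀ a : ℕ, 1 ≤ a → h a ≤ 4 / Real.sqrt a + τ) ∧ 1 ≤ C ∧
    ∀ a m : ℕ, 1 ≤ a → 1 ≤ m → (a ≤ m ∨ C * (1 + Real.log a) ^ (1 + δ) ≤ m) →
      Real.log m ≤ ((m : ℝ) - 1) * (h a - h (2 * a)) := by
  set c : ℝ := τ with hc
  have hc0 : 0 < c := hτ
  set κ : ℝ := δ / (2 * (1 + δ)) with hκ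
  have hκ0 : 0 < κ := by positivity
  have hκ1 : κ ≤ 1 / 2 := by
    rw [hκ, div_le_iff₀ (by positivity)]
    linarith
  set E : ℝ := c * (δ / 2) * Real.log 2 * 2 ^ (-(δ / 2) - 1) with hE
  have hlog2 : 0 < Real.log 2 := Real.log_pos (by norm_num)
  have hE0 : 0 < E := by positivity
  set B : ℝ := 2 / κ / E with hB
  have hB0 : 0 < B := by positivity
  set C : ℝ := max 1 (B ^ 2) with hC
  have hC1 : 1 ≤ C := le_max_left _ _
  have hC0 : 0 < C := by linarith
  have hC2 : B ^ 2 ≤ C := le_max_right _ _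
  have hg0 : ∀ a : ℕ, 0 ≤ c * (1 + Real.log a) ^ (-(δ / 2)) := fun a => by
    have h1 : (0 : ℝ) ≤ Real.log a := Real.log_natCast_nonneg a
    positivity
  have hganti : ∀ a b : ℕ, 1 ≤ a → a ≤ b →
      c * (1 + Real.log b) ^ (-(δ / 2)) ≤ c * (1 + Real.log a) ^ (-(δ / 2)) := by
    intro a b ha hab
    refine mul_le_mul_of_nonneg_left ?_ hc0.le
    have h1 : (0 : ℝ) ≤ Real.log a := Real.log_natCast_nonneg a
    have h2 : Real.log a ≤ Real.log b :=
      Real.log_le_log (by exact_mod_cast ha) (by exact_mod_cast hab)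
    exact rpow_anti (by linarith) (by linarith) (by linarith)
  refine ⟨fun a => Clu.hh a + c * (1 + Real.log a) ^ (-(δ / 2)), C, ?_, ?_, ?_, hC1, ?_⟩
  · intro a
    exact add_nonneg (Clu.hh_nonneg a) (hg0 a)
  · intro a b ha hab
    exact add_le_add (Clu.hh_anti ha hab) (hganti a b ha hab)
  · intro a ha1
    have h3 : c * (1 + Real.log a) ^ (-(δ / 2)) ≤ c := by
      have := hganti 1 a le_rfl ha1
      simpa using this
    show 4 / Real.sqrt a + c * (1 + Real.log a) ^ (-(δ / 2)) ≤ 4 / Real.sqrt a + τ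
    linarith
  · intro a m ha hm hcase
    have hm' : (1 : ℝ) ≤ m := by exact_mod_cast hm
    have ha' : (1 : ℝ) ≤ a := by exact_mod_cast ha
    have hhd := Clu.hh_double ha
    have hgd := hganti a (2 * a) ha (by omega)
    show Real.log m ≤ ((m : ℝ) - 1) * ((Clu.hh a + c * (1 + Real.log a) ^ (-(δ / 2))) -
      (Clu.hh (2 * a) + c * (1 + Real.log ((2 * a : ℕ) : ℝ)) ^ (-(δ / 2))))
    rcases hcase with h | h
    · have h1 := Clu.log_le_sqrt hm'
      have h2 : ((m : ℝ) - 1) / Real.sqrt m ≤ ((m : ℝ) - 1) / Real.sqrt a := by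
        apply div_le_div_of_nonneg_left (by linarith) (Real.sqrt_pos.2 (by linarith))
        exact Real.sqrt_le_sqrt (by exact_mod_cast h)
      have h3 : ((m : ℝ) - 1) / Real.sqrt a = ((m : ℝ) - 1) * (1 / Real.sqrt a) := by ring
      refine h1.trans (h2.trans (h3.le.trans ?_))
      exact mul_le_mul_of_nonneg_left (by linarith) (by linarith)
    · rcases Nat.eq_or_lt_of_le hm with h1 | h1
      · rw [← h1]
        simp
      have hm2 : (2 : ℝ) ≤ m := by exact_mod_cast h1
      set L : ℝ := 1 + Real.log a with hL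
      have hL1 : 1 ≤ L := by
        have : (0 : ℝ) ≤ Real.log a := Real.log_natCast_nonneg a
        linarith
      have hL0 : 0 < L := by linarith
      have hL2 : 1 + Real.log ((2 * a : ℕ) : ℝ) = L + Real.log 2 := by
        push_cast
        rw [Real.log_mul (by norm_num) (by linarith)]
        ring
      have hlog21 : Real.log 2 ≤ 1 := by
        have := Real.log_two_lt_d9
        linarith
      -- the difference of the second part
      have hdiff : E * L ^ (-(δ / 2) - 1) ≤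
          c * L ^ (-(δ / 2)) - c * (1 + Real.log ((2 * a : ℕ) : ℝ)) ^ (-(δ / 2)) := by
        rw [hL2]
        have h2 := rpow_diff (s := δ / 2) hL0 hlog2.le (by positivity)
        have h3 : (2 * L) ^ (-(δ / 2) - 1) ≤ (L + Real.log 2) ^ (-(δ / 2) - 1) :=
          rpow_anti (by linarith) (by linarith) (by linarith)
        rw [Real.mul_rpow (by norm_num) hL0.le] at h3
        have h4 : E * L ^ (-(δ / 2) - 1) =
            c * (δ / 2 * Real.log 2 * (2 ^ (-(δ / 2) - 1) * L ^ (-(δ / 2) - 1))) := by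
          rw [hE]; ring
        rw [h4, ← mul_sub]
        refine mul_le_mul_of_nonneg_left (le_trans ?_ h2) hc0.le
        exact mul_le_mul_of_nonneg_left h3 (by positivity)
      -- the logarithm
      have hlog : Real.log m ≤ ((m : ℝ) - 1) * (E * L ^ (-(δ / 2) - 1)) := by
        have h2 := Real.log_le_rpow_div (x := (m : ℝ)) (by linarith) hκ0
        have h3 : (m : ℝ) ^ κ = m * (m : ℝ) ^ (κ - 1) := by
          rw [Real.rpow_sub_one (by linarith)]
          field_simp
        have h4 : (m : ℝ) ^ (κ - 1) ≤ (C * L ^ (1 + δ)) ^ (κ - 1) :=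
          rpow_anti (by positivity) h (by linarith)
        have h5 : (C * L ^ (1 + δ)) ^ (κ - 1) = C ^ (κ - 1) * L ^ (-(δ / 2) - 1) := by
          rw [Real.mul_rpow hC0.le (by positivity), ← Real.rpow_mul hL0.le]
          congr 2
          rw [hκ]
          field_simp
          ring
        have h6 : C ^ (κ - 1) ≤ B⁻¹ := by
          calc C ^ (κ - 1) ≤ C ^ (-(1 / 2) : ℝ) :=
                Real.rpow_le_rpow_of_exponent_le hC1 (by linarith)
            _ ≤ (B ^ 2) ^ (-(1 / 2) : ℝ) :=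
                rpow_anti (by positivity) hC2 (by norm_num)
            _ = B⁻¹ := by
                rw [← Real.rpow_natCast, ← Real.rpow_mul hB0.le]
                norm_num
                rw [Real.rpow_neg_one]
        have h7 : B⁻¹ = κ / 2 * E := by
          rw [hB]
          field_simp
        have hLp : 0 < L ^ (-(δ / 2) - 1) := Real.rpow_pos_of_pos hL0 _
        have h8 : (m : ℝ) ^ (κ - 1) ≤ κ / 2 * E * L ^ (-(δ / 2) - 1) := by
          rw [h5] at h4
          refine h4.trans ?_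
          rw [← h7]
          exact mul_le_mul_of_nonneg_right h6 hLp.le
        calc Real.log m ≤ (m : ℝ) ^ κ / κ := h2
          _ = m * (m : ℝ) ^ (κ - 1) / κ := by rw [h3]
          _ ≤ m * (κ / 2 * E * L ^ (-(δ / 2) - 1)) / κ := by
              apply div_le_div_of_nonneg_right _ hκ0.le
              exact mul_le_mul_of_nonneg_left h8 (by linarith)
          _ = m / 2 * (E * L ^ (-(δ / 2) - 1)) := by
              field_simp
          _ ≤ ((m : ℝ) - 1) * (E * L ^ (-(δ / 2) - 1)) :=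
              mul_le_mul_of_nonneg_right (by linarith) (by positivity)
      refine hlog.trans (mul_le_mul_of_nonneg_left ?_ (by linarith))
      have h9 : (0 : ℝ) ≤ 1 / Real.sqrt a := by positivity
      linarith

/-- The first form of P1b. -/
theorem exists_h_old {δ τ : ℝ} (hδ : 0 < δ) (hτ : 0 < τ) : ∃ (h : ℕ → ℝ) (C : ℝ) (K₀ : ℕ),
    (∀ a, 0 ≤ h a) ∧ (∀ a b : ℕ, 1 ≤ a → a ≤ b → h b ≤ h a) ∧ h 1 ≤ 5 ∧
    (∀ a, K₀ ≤ a → h a ≤ τ) ∧ 1 ≤ C ∧
    ∀ a m : ℕ, 1 ≤ a → 1 ≤ m → (a ≤ m ∨ C * (1 + Real.log a) ^ (1 + δ) ≤ m) →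
      Real.log m ≤ ((m : ℝ) - 1) * (h a - h (2 * a)) := by
  have hm : 0 < min 1 (τ / 2) := lt_min one_pos (by linarith)
  obtain ⟨h, C, h0, h1, h2, h3, h4⟩ := exists_h hδ hm
  refine ⟨h, C, ⌈64 / τ ^ 2⌉₊ + 1, h0, h1, ?_, ?_, h3, h4⟩
  · have h5 := h2 1 le_rfl
    have h6 : min 1 (τ / 2) ≤ 1 := min_le_left _ _
    simp only [Nat.cast_one, Real.sqrt_one, div_one] at h5
    linarith
  · intro a ha
    have ha1 : 1 ≤ a := le_trans (Nat.le_add_left 1 _) ha
    have haτ : 64 / τ ^ 2 ≤ a := by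
      have h1 : (⌈64 / τ ^ 2⌉₊ : ℝ) ≤ a := by
        exact_mod_cast (Nat.le_succ _).trans ha
      exact (Nat.le_ceil _).trans h1
    have h7 : 4 / Real.sqrt a ≤ τ / 2 := by
      have hs : 8 / τ ≤ Real.sqrt a := by
        apply Real.le_sqrt_of_sq_le
        rw [div_pow]
        norm_num
        exact haτ
      rw [div_le_iff₀ (lt_of_lt_of_le (by positivity) hs)]
      calc (4 : ℝ) = τ / 2 * (8 / τ) := by field_simp; norm_num
        _ ≤ τ / 2 * Real.sqrt a := mul_le_mul_of_nonneg_left hs (by linarith)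
    have h5 := h2 a ha1
    have h6 : min 1 (τ / 2) ≤ τ / 2 := min_le_right _ _
    linarith

end Pool.Agent.Iso5
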