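import Mathlib
import Pool.Agent.Work.MP_974d84_co_iso.CountAux
import Pool.Agent.Work.MP_974d84_co_iso.Defs3
import Pool.Agent.Work.MP_974d84_co_iso.Num

/-!
# P1c: the number of bonds through a vertex, from the isoperimetric hypothesis
-/

set_option linter.unusedSectionVars false
set_option linter.unusedVariables false

namespace Pool.Agent.Iso5

open Finset SimpleGraph
open Pool.Agent.Exp Pool.Agent.Log5 Pool.Agent.Log5.Clu
open Pool.Agent.Work.MP_314beb_co

section numbers

theorem one_le_L (w : ℕ) : (1 : ℝ) ≤ 1 + Real.log w := by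
  have : 0 ≤ Real.log (w : ℝ) := Real.log_natCast_nonneg w
  linarith

theorem one_le_pow {δ : ℝ} (hδ : 0 < δ) (a : ℕ) : (1 : ℝ) ≤ (1 + Real.log a) ^ (1 + δ) :=
  Real.one_le_rpow (one_le_L a) (by linarith)

theorem self_le_pow {δ : ℝ} (hδ : 0 < δ) (a : ℕ) :
    (1 + Real.log a) ≤ (1 + Real.log a) ^ (1 + δ) := by
  conv_lhs => rw [← Real.rpow_one (1 + Real.log (a : ℝ))]
  exact Real.rpow_le_rpow_of_exponent_le (one_le_L a) (by linarith)

theorem exp_half_le (D : ℕ) : Real.exp ((D : ℝ) / 2) ≤ 2 ^ D := by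
  have h1 : Real.exp ((D : ℝ) / 2) = Real.exp (1 / 2) ^ D := by
    rw [← Real.exp_nat_mul]
    congr 1
    ring
  have h2 : Real.exp (1 / 2) ≤ 2 := by
    have h3 : Real.exp (1 / 2) ^ 2 = Real.exp 1 := by
      rw [← Real.exp_nat_mul]
      norm_num
    have h4 := Real.exp_one_lt_d9
    nlinarith [Real.exp_pos (1 / 2 : ℝ)]
  rw [h1]
  exact pow_le_pow_left₀ (Real.exp_pos _).le h2 D

theorem sq_exp {τ D : ℝ} (hτ : 0 < τ) (hD2 : 2 ≤ D) (hD : 16 / τ ^ 2 ≤ D) {x : ℝ}
    (hx : x ≤ Real.exp (τ * D / 2)) : x + (D + 1) ≤ Real.exp (τ * D) := by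
  set y := Real.exp (τ * D / 2) with hy
  have h1 : Real.exp (τ * D) = y * y := by
    rw [hy, ← Real.exp_add]
    congr 1
    ring
  have h2 : D + 2 ≤ y := by
    have h3 := Real.quadratic_le_exp_of_nonneg (x := τ * D / 2) (by positivity)
    have h4 : 16 ≤ τ ^ 2 * D := by
      rw [div_le_iff₀ (by positivity)] at hD
      linarith
    have h5 : 2 * D ≤ (τ * D / 2) ^ 2 / 2 := by
      nlinarith
    have h6 : 0 ≤ τ * D / 2 := by positivity
    linarith
  rw [h1]
  nlinarith

end numbers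

variable {V : Type} [Fintype V] [DecidableEq V] {G : SimpleGraph V} [DecidableRel G.Adj]

/-- The three possibilities for a small nonempty set. -/
theorem iso_cases (h3 : ∀ v, G.degree v = 3) {δ C : ℝ} {w : ℕ} (hiso : Iso G δ C w)
    {A : Finset V} (hA : A.Nonempty) (h2 : 2 * A.card ≤ Fintype.card V) :
    A.card + 2 ≤ dd G A ∨
      C * min ((1 + Real.log A.card) ^ (1 + δ)) (1 + Real.log w) ≤ dd G A := by
  by_cases h1 : (G.induce (A : Set V)).IsAcyclic
  · exact Or.inl (dd_of_acyclic G h3 hA h1)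
  · by_cases h4 : (G.induce ((Aᶜ : Finset V) : Set V)).IsAcyclic
    · left
      have h5 := card_add_card_compl A
      have h6 := hA.card_pos
      have h7 := dd_of_acyclic G h3 (S := Aᶜ) (by rw [← card_pos]; omega) h4
      rw [dd_compl] at h7
      omega
    · exact Or.inr (hiso A h2 h1 h4)

theorem iso_min {δ C : ℝ} (hδ : 0 < δ) (hC : 0 ≤ C) (a w : ℕ) :
    C ≤ C * min ((1 + Real.log a) ^ (1 + δ)) (1 + Real.log w) := by
  have h1 : (1 : ℝ) ≤ min ((1 + Real.log a) ^ (1 + δ)) (1 + Real.log w) :=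
    le_min (one_le_pow hδ a) (one_le_L w)
  nlinarith

/-- The number of closed bonds with a given vertex in the small side. -/
theorem iso_count (h3 : ∀ v, G.degree v = 3) {δ τ : ℝ} (hδ : 0 < δ) (hτ : 0 < τ) {h : ℕ → ℝ}
    {C₀ C : ℝ} (h0 : ∀ a, 0 ≤ h a) (hanti : ∀ a b : ℕ, 1 ≤ a → a ≤ b → h b ≤ h a)
    (hlog : ∀ a m : ℕ, 1 ≤ a → 1 ≤ m → ((a ≤ m) ∨ C₀ * (1 + Real.log a) ^ (1 + δ) ≤ m) →
      Real.log m ≤ ((m : ℝ) - 1) * (h a - h (2 * a)))
    {w B : ℕ} (hC0 : C₀ ≤ C) (hC2 : 2 ≤ C) (hC3 : 16 / τ ^ 2 ≤ C)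
    (hC4 : 18 * (1 + Real.log (2 * (2 * B + 1))) / τ ≤ C) (hiso : Iso G δ C w)
    {c : V → V} (hj : ∀ x, Joined G (cls c x)) {η : ℝ} (hη : ∀ x, h (cls c x).card ≤ η)
    {W : Finset V} (hW : W.card ≤ B * (w + 1)) (Fam : Finset (Finset V)) {t₀ : V} {D : ℕ}
    (hCD : C ≤ D)
    (hF : ∀ S ∈ Fam, Joined G S ∧ Joined G Sᶜ ∧ t₀ ∈ S ∧ 2 * S.card ≤ Fintype.card V)
    (hcl : ∀ S ∈ Fam, Clo c S) (hD : ∀ S ∈ Fam, dd G S = D)
    (hinj : ∀ S ∈ Fam, ∀ S' ∈ Fam, (∀ v ∈ W, (v ∈ S ↔ v ∈ S')) → S = S') :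
    (Fam.card : ℝ) ≤ Real.exp ((2 * η + τ) * D) := by
  classical
  have hCpos : 0 < C := by linarith
  set L : ℝ := 1 + Real.log w with hL
  have hL1 : 1 ≤ L := one_le_L w
  have hDR : (2 : ℝ) ≤ D := hC2.trans hCD
  have hD3 : 16 / τ ^ 2 ≤ (D : ℝ) := hC3.trans hCD
  -- the sizes at which the merging stops
  have hex : ∃ a : ℕ, 1 ≤ a ∧ L ≤ (1 + Real.log a) ^ (1 + δ) := by
    refine ⟨max w 1, le_max_right _ _, ?_⟩
    rcases Nat.eq_zero_or_pos w with h1 | h1
    · have : L = 1 := by rw [hL, h1]; simp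
      rw [this]
      exact one_le_pow hδ _
    · rw [max_eq_left h1]
      exact self_le_pow hδ w
  set a₁ : ℕ := Nat.find hex with ha1
  obtain ⟨ha1pos, ha1L⟩ := Nat.find_spec hex
  rw [← ha1] at ha1pos ha1L
  have ha1le : a₁ ≤ max w 1 := by
    refine Nat.find_min' hex ⟨le_max_right _ _, ?_⟩
    rcases Nat.eq_zero_or_pos w with h1 | h1
    · have : L = 1 := by rw [hL, h1]; simp
      rw [this]
      exact one_le_pow hδ _
    · rw [max_eq_left h1]
      exact self_le_pow hδ w
  set Kw : ℕ := ⌈C * L⌉₊ with hKw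
  have hKw1 : C * L ≤ Kw := Nat.le_ceil _
  have hCL : 2 ≤ C * L := by nlinarith
  have hKwpos : 0 < Kw := by
    have : (0 : ℝ) < Kw := by linarith
    exact_mod_cast this
  have hKwle : ∀ m : ℕ, C * L ≤ m → Kw ≤ m := fun m hm => Nat.ceil_le.2 hm
  set a₀ : ℕ := max a₁ Kw with ha0
  have ha0pos : 0 < a₀ := lt_of_lt_of_le ha1pos (le_max_left _ _)
  have hstep : ∀ A : Finset V, A.Nonempty → Joined G A → 2 * A.card ≤ Fintype.card V →
      A.card < a₀ → 1 ≤ dd G A ∧
        Real.log (dd G A) ≤ ((dd G A : ℝ) - 1) * (h A.card - h (2 * A.card)) := by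
    intro A hA _ h2 hlt
    have hA1 : 1 ≤ A.card := hA.card_pos
    rcases iso_cases h3 hiso hA h2 with h4 | h4
    · exact ⟨by omega, hlog _ _ hA1 (by omega) (Or.inl (by omega))⟩
    · have h5 := (iso_min hδ hCpos.le A.card w).trans h4
      have h6 : 1 ≤ dd G A := by
        have : (1 : ℝ) ≤ dd G A := by linarith
        exact_mod_cast this
      refine ⟨h6, hlog _ _ hA1 h6 ?_⟩
      rcases le_total ((1 + Real.log A.card) ^ (1 + δ)) L with h7 | h7
      · rw [min_eq_left h7] at h4
        right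
        have h8 := one_le_pow hδ A.card
        nlinarith
      · rw [min_eq_right h7] at h4
        left
        have h8 := hKwle _ h4
        rcases Nat.lt_or_ge A.card a₁ with h9 | h9
        · exact absurd ⟨hA1, h7⟩ (Nat.find_min hex h9)
        · have h10 : A.card < Kw := by
            rw [ha0] at hlt
            rcases lt_max_iff.1 hlt with h11 | h11
            · omega
            · exact h11
          omega
  have hsep' : ∀ X : Finset V, a₀ ≤ X.card → 2 * X.card ≤ Fintype.card V → Kw ≤ dd G X := by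
    intro X hX h2
    have hXn : X.Nonempty := by
      rw [← card_pos]
      omega
    rcases iso_cases h3 hiso hXn h2 with h4 | h4
    · have : Kw ≤ a₀ := le_max_right _ _
      omega
    · refine hKwle _ ?_
      have h5 : L ≤ (1 + Real.log X.card) ^ (1 + δ) := by
        refine ha1L.trans ?_
        refine Real.rpow_le_rpow (by linarith [one_le_L a₁]) ?_ (by linarith)
        have h6 : (a₁ : ℝ) ≤ X.card := by exact_mod_cast (le_max_left _ _).trans hX
        have h7 : (0 : ℝ) < a₁ := by exact_mod_cast ha1pos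
        have := Real.log_le_log h7 h6
        linarith
      rw [min_eq_right h5] at h4
      exact h4
  have hsep : ∀ X : Finset V, a₀ ≤ X.card → a₀ ≤ Xᶜ.card → Kw ≤ dd G X := by
    intro X hX hX'
    rcases Nat.lt_or_ge (Fintype.card V) (2 * X.card) with h2 | h2
    · have h5 := card_add_card_compl X
      have := hsep' Xᶜ hX' (by omega)
      rwa [dd_compl] at this
    · exact hsep' X hX h2
  -- the exponent
  set a : ℕ := 8 * D / Kw + 1 with ha
  have haD : 8 * D ≤ a * Kw := by
    rw [ha, add_mul, one_mul]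
    have := Nat.lt_div_mul_add (a := 8 * D) hKwpos
    omega
  have hmain : ∀ s : ℕ, (∀ S ∈ Fam, S.card ≤ s) → (Nat.log 2 (min s (a₀ - 1)) ≤ D) →
      (Kw ≤ D → (2 * ((W.card : ℝ) + 1)) ^ a ≤ Real.exp (τ * D / 2)) →
      (Fam.card : ℝ) ≤ Real.exp ((2 * η + τ) * D) := by
    intro s hs hN hM
    have h1 := local_count_aux (G := G) h0 hanti ha0pos hstep hKwpos hsep hj hη W Fam (t₀ := t₀)
      (s := s) (D := D) (a := a)
      (fun S hS => ⟨(hF S hS).1, (hF S hS).2.1, (hF S hS).2.2.1, (hF S hS).2.2.2, hs S hS⟩)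
      hcl hD hinj haD (by rw [ha]; exact Nat.le_add_left 1 _)
    have h2 : (if Kw ≤ D then (2 * ((W.card : ℝ) + 1)) ^ a else 0) ≤ Real.exp (τ * D / 2) := by
      split_ifs with h5
      · exact hM h5
      · positivity
    have h4 : ((Nat.log 2 (min s (a₀ - 1)) : ℕ) : ℝ) ≤ D := by exact_mod_cast hN
    have h5 := sq_exp hτ hDR hD3 h2
    calc (Fam.card : ℝ) ≤ _ := h1
      _ ≤ Real.exp (2 * η * D) * Real.exp (τ * D) := by
          refine mul_le_mul_of_nonneg_left ?_ (Real.exp_pos _).le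
          linarith
      _ = Real.exp ((2 * η + τ) * D) := by
          rw [← Real.exp_add]
          congr 1
          ring
  rcases Nat.lt_or_ge D Kw with hlt | hge
  · -- small cuts belong to small sets
    have hDL : (D : ℝ) < C * L := Nat.lt_ceil.1 hlt
    refine hmain (max D ⌊Real.exp ((D : ℝ) / C)⌋₊) ?_ ?_ (fun h => absurd h (by omega))
    · intro S hS
      obtain ⟨-, -, ht0, h2⟩ := hF S hS
      have hSD := hD S hS
      rcases iso_cases h3 hiso ⟨t₀, ht0⟩ h2 with h4 | h4
      · exact le_max_of_le_left (by omega)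
      · refine le_max_of_le_right (Nat.le_floor ?_)
        rw [hSD] at h4
        have hS1 : (1 : ℝ) ≤ S.card := by
          exact_mod_cast card_pos.2 ⟨t₀, ht0⟩
        have h5 : C * (1 + Real.log S.card) ≤ D := by
          rcases le_total ((1 + Real.log S.card) ^ (1 + δ)) L with h7 | h7
          · rw [min_eq_left h7] at h4
            have := self_le_pow hδ S.card
            nlinarith
          · rw [min_eq_right h7] at h4
            linarith
        have h6 : Real.log S.card ≤ (D : ℝ) / C := by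
          rw [le_div_iff₀ hCpos]
          nlinarith
        calc (S.card : ℝ) = Real.exp (Real.log S.card) := (Real.exp_log (by linarith)).symm
          _ ≤ _ := Real.exp_le_exp.2 h6
    · have h1 : max D ⌊Real.exp ((D : ℝ) / C)⌋₊ ≤ 2 ^ D := by
        refine max_le Nat.lt_two_pow_self.le ?_
        have h5 : Real.exp ((D : ℝ) / C) ≤ 2 ^ D := by
          refine le_trans (Real.exp_le_exp.2 ?_) (exp_half_le D)
          exact div_le_div_of_nonneg_left (by linarith) (by norm_num) hC2
        have h6 := (Nat.floor_le (Real.exp_pos ((D : ℝ) / C)).le).trans h5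
        exact_mod_cast h6
      have h2 := Nat.log_mono_right (b := 2) ((min_le_left
        (max D ⌊Real.exp ((D : ℝ) / C)⌋₊) (a₀ - 1)).trans h1)
      rwa [Nat.log_pow (by norm_num)] at h2
  · -- large cuts
    have hKD : (Kw : ℝ) ≤ D := by exact_mod_cast hge
    have hLD : C * L ≤ D := hKw1.trans hKD
    refine hmain (Fintype.card V) (fun S _ => card_le_univ S) ?_ (fun _ => ?_)
    · have hw2 : max w 1 ≤ 2 ^ D := by
        refine max_le ?_ Nat.one_le_two_pow
        rcases Nat.eq_zero_or_pos w with h1 | h1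
        · rw [h1]
          exact Nat.zero_le _
        · have h5 : Real.log w ≤ (D : ℝ) / 2 := by
            have : Real.log w ≤ L := by rw [hL]; linarith
            nlinarith
          have hwpos : (0 : ℝ) < w := by exact_mod_cast h1
          have h6 : (w : ℝ) ≤ 2 ^ D := by
            calc (w : ℝ) = Real.exp (Real.log w) := (Real.exp_log hwpos).symm
              _ ≤ Real.exp ((D : ℝ) / 2) := Real.exp_le_exp.2 h5
              _ ≤ 2 ^ D := exp_half_le D
          exact_mod_cast h6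
      have h1 : a₀ - 1 ≤ 2 ^ D := by
        have h5 : a₀ ≤ 2 ^ D := by
          rw [ha0]
          exact max_le (ha1le.trans hw2) (hge.trans Nat.lt_two_pow_self.le)
        omega
      have h2 := Nat.log_mono_right (b := 2) ((min_le_right
        (Fintype.card V) (a₀ - 1)).trans h1)
      rwa [Nat.log_pow (by norm_num)] at h2
    · set b : ℝ := 1 + Real.log (2 * (2 * B + 1)) with hb
      have hB0 : (0 : ℝ) ≤ B := Nat.cast_nonneg B
      have hB1 : (1 : ℝ) ≤ 2 * (2 * (B : ℝ) + 1) := by linarith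
      have hBlog := Real.log_nonneg hB1
      have hb1 : 1 ≤ b := by
        rw [hb]
        linarith
      have hWlog : Real.log (2 * ((W.card : ℝ) + 1)) ≤ b * L := by
        have hWR : (W.card : ℝ) ≤ B * (w + 1) := by exact_mod_cast hW
        set w' : ℝ := max (w : ℝ) 1 with hw'
        have hw1 : 1 ≤ w' := le_max_right _ _
        have hw2 : (w : ℝ) ≤ w' := le_max_left _ _
        have h5 : 2 * ((W.card : ℝ) + 1) ≤ (2 * (2 * B + 1)) * w' := by
          have g1 : (B : ℝ) * (w + 1) ≤ B * (w' + w') :=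
            mul_le_mul_of_nonneg_left (by linarith) hB0
          linarith
        have h6 : Real.log w' = L - 1 := by
          rw [hw', hL]
          rcases Nat.eq_zero_or_pos w with h1 | h1
          · rw [h1]
            simp
          · have : (1 : ℝ) ≤ w := by exact_mod_cast h1
            rw [max_eq_left this]
            ring
        have h7 : Real.log (2 * ((W.card : ℝ) + 1)) ≤ Real.log ((2 * (2 * B + 1)) * w') :=
          Real.log_le_log (by positivity) h5
        have h10 : Real.log ((2 * (2 * (B : ℝ) + 1)) * w') =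
            Real.log (2 * (2 * (B : ℝ) + 1)) + Real.log w' :=
          Real.log_mul (by positivity) (by positivity)
        rw [h10, h6] at h7
        have h8 : 0 ≤ (b - 1) * (L - 1) := mul_nonneg (by linarith) (by linarith)
        have h9 : Real.log (2 * (2 * (B : ℝ) + 1)) = b - 1 := by rw [hb]; ring
        rw [h9] at h7
        nlinarith
      have hWpos : (0 : ℝ) < 2 * ((W.card : ℝ) + 1) := by positivity
      have e1 : (2 * ((W.card : ℝ) + 1)) ^ a =
          Real.exp ((a : ℝ) * Real.log (2 * ((W.card : ℝ) + 1))) := by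
        rw [Real.exp_nat_mul, Real.exp_log hWpos]
      rw [e1, Real.exp_le_exp]
      have ha' : (a : ℝ) ≤ 8 * D / (C * L) + 1 := by
        rw [ha]
        push_cast
        have g1 : ((8 * D / Kw : ℕ) : ℝ) ≤ ((8 * D : ℕ) : ℝ) / (Kw : ℝ) := Nat.cast_div_le
        push_cast at g1
        have g2 : 8 * (D : ℝ) / Kw ≤ 8 * D / (C * L) :=
          div_le_div_of_nonneg_left (by positivity) (by positivity) hKw1
        linarith
      have h5 : (a : ℝ) * Real.log (2 * ((W.card : ℝ) + 1)) ≤
          (8 * D / (C * L) + 1) * (b * L) := by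
        refine mul_le_mul ha' hWlog ?_ (by positivity)
        refine Real.log_nonneg ?_
        have : (0 : ℝ) ≤ W.card := Nat.cast_nonneg _
        linarith
      have h6 : (8 * D / (C * L) + 1) * (b * L) = 8 * b * D / C + b * L := by
        field_simp
      have h7 : b * L ≤ b * D / C := by
        rw [mul_div_assoc]
        refine mul_le_mul_of_nonneg_left ?_ (by linarith)
        rw [le_div_iff₀ hCpos]
        linarith
      have h8 : 18 * b ≤ C * τ := by
        rw [div_le_iff₀ hτ] at hC4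
        exact hC4
      have h9 : 8 * b * D / C + b * D / C ≤ τ * D / 2 := by
        rw [← add_div, div_le_iff₀ hCpos]
        nlinarith
      linarith

/-- P1c: the closed bonds through a vertex, with different traces on `W`, are few. -/
theorem local_count {δ τ : ℝ} (hδ : 0 < δ) (hτ : 0 < τ) (B : ℕ) : ∃ C₀ : ℝ, 1 ≤ C₀ ∧
    ∀ C : ℝ, C₀ ≤ C → ∀ {V : Type} [Fintype V] [DecidableEq V] (G : SimpleGraph V)
    [DecidableRel G.Adj], (∀ v, G.degree v = 3) → ∀ w : ℕ, Iso G δ C w →
    ∀ W : Finset V, W.card ≤ B * (w + 1) → ∀ D₁ : ℕ, C ≤ D₁ → ∀ (K : ℕ) (c : V → V), 1 ≤ K →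
    (∀ x, Joined G (cls c x)) → (∀ x, K ≤ (cls c x).card) →
    LocBd G W D₁ (8 / Real.sqrt K + τ) c := by
  obtain ⟨h, C₁, h0, hanti, hb, hC1, hlog⟩ := exists_h hδ (τ := τ / 4) (by positivity)
  set τ' : ℝ := τ / 2 with hτ'
  have hτ'0 : 0 < τ' := by positivity
  refine ⟨max (max C₁ 2) (max (16 / τ' ^ 2) (18 * (1 + Real.log (2 * (2 * B + 1))) / τ')),
    hC1.trans ((le_max_left _ _).trans (le_max_left _ _)), ?_⟩
  intro C hC V _ _ G _ h3 w hiso W hW D₁ hD₁ K c hK hj hcK t D F hD hF hinj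
  have e1 : C₁ ≤ C := ((le_max_left _ _).trans (le_max_left _ _)).trans hC
  have e2 : 2 ≤ C := ((le_max_right _ _).trans (le_max_left _ _)).trans hC
  have e3 : 16 / τ' ^ 2 ≤ C := ((le_max_left _ _).trans (le_max_right _ _)).trans hC
  have e4 : 18 * (1 + Real.log (2 * (2 * B + 1))) / τ' ≤ C :=
    ((le_max_right _ _).trans (le_max_right _ _)).trans hC
  have hDR : C ≤ (D : ℝ) := hD₁.trans (by exact_mod_cast hD)
  have h1 := iso_count (G := G) h3 hδ hτ'0 h0 hanti hlog e1 e2 e3 e4 hiso hj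
    (η := 4 / Real.sqrt K + τ / 4)
    (fun x => (hanti K _ hK (hcK x)).trans (hb K hK)) hW F (t₀ := t) hDR
    (fun S hS => ⟨(hF S hS).2.2.1, (hF S hS).2.2.2.1, (hF S hS).1, (hF S hS).2.1⟩)
    (fun S hS => (hF S hS).2.2.2.2.1) (fun S hS => (hF S hS).2.2.2.2.2) hinj
  refine h1.trans (Real.exp_le_exp.2 (le_of_eq ?_))
  rw [hτ']
  ring

end Pool.Agent.Iso5
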