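import Mathlib
import Pool.Agent.Work.MP_974d84_co_log.Small
import Pool.Agent.Work.MP_974d84_co_log.BigOf

/-!
# Small bonds with two sides which are not tiny contain few points of a scattered set
-/

set_option linter.unusedSectionVars false

namespace Pool.Agent.Iso5

open Finset SimpleGraph Pool.Agent.Exp Pool.Agent.Log5

variable {V : Type} [Fintype V] [DecidableEq V] {G : SimpleGraph V} [DecidableRel G.Adj]

/-- A scattered set has few points in a joined set which is not tiny. -/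
theorem scattered_mul {A T : Finset V} (hA : Joined G A) {n : ℕ}
    (hT : ∀ t ∈ T, ∀ u ∈ T, t ≠ u → Disjoint (Bl G.Adj n t) (Bl G.Adj n u))
    (h1 : n + 1 ≤ A.card) : (n + 1) * (T ∩ A).card ≤ A.card := by
  rcases scattered_card hA hT with h | h
  · exact (Nat.mul_le_mul_left (n + 1) h).trans (by omega)
  · exact h

/-- A bond with fewer than `k` edges and two sides with more than `n` vertices has a side with few
points of a scattered set. -/
theorem small_closed (h3 : ∀ v, G.degree v = 3) {k : ℕ} (hc : CycConn G k) {T : Finset V} {n : ℕ}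
    (hT : ∀ u ∈ T, ∀ v ∈ T, u ≠ v → Disjoint (Bl G.Adj n u) (Bl G.Adj n v)) {S : Finset V}
    (hS : Bond G S) (hk : dd G S < k) (h1 : n + 1 ≤ S.card) (h2 : n + 1 ≤ Sᶜ.card) :
    ∃ A : Finset V, (A = S ∨ A = Sᶜ) ∧ (n + 1) * (T ∩ A).card ≤ dd G S := by
  obtain ⟨j1, j2, n1, n2⟩ := hS
  by_cases a1 : (G.induce (S : Set V)).IsAcyclic
  · have h3 := dd_of_acyclic G h3 n1 a1
    exact ⟨S, Or.inl rfl, (scattered_mul j1 hT h1).trans (by omega)⟩
  · by_cases a2 : (G.induce ((Sᶜ : Finset V) : Set V)).IsAcyclic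
    · have h3 := dd_of_acyclic G h3 n2 a2
      rw [dd_compl] at h3
      exact ⟨Sᶜ, Or.inr rfl, (scattered_mul j2 hT h2).trans (by omega)⟩
    · exact absurd (hc S a1 a2) (by omega)

/-- The same for the signed sums. -/
theorem small_closed_sg (h3 : ∀ v, G.degree v = 3) {k : ℕ} (hc : CycConn G k) {n : ℕ}
    {m : ℕ} {p q : Fin m → V} (hp : Function.Injective p) (hq : Function.Injective q)
    (hpq : ∀ i j, p i ≠ q j) {ε : Fin m → ℤ} (hε : ∀ j, ε j = 1 ∨ ε j = -1)
    (hT : ∀ u ∈ univ.image p ∪ univ.image q, ∀ v ∈ univ.image p ∪ univ.image q, u ≠ v →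
      Disjoint (Bl G.Adj n u) (Bl G.Adj n v)) {S : Finset V}
    (hS : Bond G S) (hk : dd G S < k) (h1 : n + 1 ≤ S.card) (h2 : n + 1 ≤ Sᶜ.card) :
    ((n : ℝ) + 1) * |(sg p q ε S : ℝ)| ≤ dd G S := by
  obtain ⟨A, hA, h⟩ := small_closed h3 hc hT hS hk h1 h2
  have hmem : ∀ v, v ∈ univ.image p ∪ univ.image q ↔ (∃ j, p j = v) ∨ ∃ j, q j = v := by
    intro v; simp
  have h5 := sg_le hp hq hpq hmem hε hA
  have h6 : |(sg p q ε S : ℝ)| ≤ (((univ.image p ∪ univ.image q) ∩ A).card : ℝ) := by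
    exact_mod_cast h5
  have h7 : ((n : ℝ) + 1) * (((univ.image p ∪ univ.image q) ∩ A).card : ℝ) ≤ dd G S := by
    exact_mod_cast h
  exact (mul_le_mul_of_nonneg_left h6 (by positivity)).trans h7

end Pool.Agent.Iso5
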