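import Mathlib
import Pool.Agent.Work.MP_974d84_co_log.Flow
import Pool.Agent.Work.MP_974d84_co_log.Small
import Pool.Agent.Work.MP_974d84_co_log.BigOf
import Pool.Agent.Work.MP_974d84_co_log.Transversal
import Pool.Agent.Work.MP_974d84_co_log.Comp
import Pool.Agent.Work.MP_974d84_co_log.SmallCase
import Pool.Agent.Work.MP_974d84_co_log.Girth
import Pool.Agent.Work.MP_974d84_co_iso.Part
import Pool.Agent.Work.MP_974d84_co_iso.SmallClosed
import Pool.Agent.Work.MP_974d84_co_iso.Split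
import Pool.Agent.Work.MP_974d84_co_iso.Tools
import Pool.Agent.Work.MP_974d84_co_iso.Pick
import Pool.Agent.Work.MP_974d84_co_iso.Signs
import Pool.Agent.Work.MP_974d84_co_iso.Count

/-!
# The isoperimetric flow theorem: assembly
-/

set_option linter.unusedSectionVars false

namespace Pool.Agent.Iso5

open Finset SimpleGraph Pool.Agent.Exp Pool.Agent.Log5 Pool.Agent.Log5.Clu MP974d84

/-- The parameters. -/
theorem params : ∃ (ρ m s n : ℕ) (b τ : ℝ), 4 * ρ ≤ 2 ^ m ∧ 8 * s + 4 * m + 7 ≤ ρ ∧ 0 < b ∧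
    b ≤ 1 ∧ 0 < τ ∧ b * (1 + 3 * (9 * ρ * 2 ^ (m + 1))) ≤ 1 / 20 ∧
    8 / Real.sqrt ((2 ^ s : ℕ) : ℝ) + τ ≤ b ^ 2 / 8 ∧ 1 ≤ b * (n + 1) ∧ n + 1 ≤ 2 ^ s := by
  refine ⟨2048, 13, 248, 2 ^ 35 - 1, 1 / 2 ^ 35, 1 / 2 ^ 80, by norm_num, by norm_num,
    by positivity, ?_, by positivity, by norm_num, ?_, ?_, ?_⟩
  · norm_num
  · have h1 : Real.sqrt (((2 ^ 248 : ℕ)) : ℝ) = 2 ^ 124 := by
      rw [show (((2 ^ 248 : ℕ)) : ℝ) = ((2 : ℝ) ^ 124) ^ 2 by norm_num]
      exact Real.sqrt_sq (by positivity)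
    rw [h1]
    norm_num
  · norm_num
  · norm_num

variable {V : Type} [Fintype V] [DecidableEq V] {G : SimpleGraph V} [DecidableRel G.Adj]

theorem sg_union {m : ℕ} {p q : Fin m → V} {ε : Fin m → ℤ} {A B : Finset V} (h : Disjoint A B) :
    sg p q ε (A ∪ B) = sg p q ε A + sg p q ε B := by
  have key : ∀ v : V, (if v ∈ A ∪ B then (1 : ℤ) else 0)
      = (if v ∈ A then 1 else 0) + (if v ∈ B then 1 else 0) := by
    intro v
    by_cases h1 : v ∈ A
    · have h2 : v ∉ B := Finset.disjoint_left.1 h h1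
      simp [h1, h2]
    · simp [h1]
  unfold sg
  rw [← sum_add_distrib]
  refine sum_congr rfl fun j _ => ?_
  rw [key, key]
  ring

theorem sg_univ {m : ℕ} {p q : Fin m → V} {ε : Fin m → ℤ} : sg p q ε univ = 0 := by
  unfold sg
  simp

theorem assemble {ρ s n q R k w w₀ : ℕ} {b B : ℝ} (h3 : ∀ v, G.degree v = 3)
    (hc : CycConn G k) (hg : Gir G k) (F : SimpleGraph V) (hF : F ≤ G)
    (hF2 : ∀ v, (F.neighborSet v).ncard = 2)
    (hw : {c : F.ConnectedComponent | Odd c.supp.ncard}.ncard = w) (hww : w ≤ w₀)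
    (hk2 : 2 ≤ k) (hqk : q * (12 * 4 ^ R) ≤ k) (hR5 : 5 ≤ R) (hRρ : ρ ≤ R) (hRn : n ≤ R)
    (hb0 : 0 < b) (hn : 1 ≤ b * (n + 1)) (hns : n + 1 ≤ 2 ^ s)
    (hbB : b * (1 + 3 * B) ≤ 1 / 20)
    (hpick : ∀ u : Fin w → Fin q → V,
      (∀ i a j b, (i, a) ≠ (j, b) → Disjoint (Bl G.Adj ρ (u i a)) (Bl G.Adj ρ (u j b))) →
      ∃ t : Fin w → Fin q, ∀ S, Joined G S → Joined G Sᶜ → k ≤ dd G S →
        ∀ A : Finset (Fin w), (∀ i ∈ A, Spl G ρ S (u i (t i))) → 20 * A.card ≤ dd G S)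
    (Ξ : Type) [Fintype Ξ] [Nonempty Ξ] (c : Ξ → V → V)
    (hcj : ∀ ξ x, Joined G (cls (c ξ) x)) (hcs : ∀ ξ x, 2 ^ s ≤ (cls (c ξ) x).card)
    (hcb : ∀ ξ v, c ξ v ∈ Bl G.Adj ρ v)
    (hcB : ∀ S : Finset V, ∑ ξ, ((univ.filter fun v => ¬ (v ∈ S ↔ c ξ v ∈ S)).card : ℝ) ≤
      B * dd G S * Fintype.card Ξ)
    (hsigns : ∀ (m : ℕ) (p q : Fin m → V), Function.Injective p → Function.Injective q →
      (∀ i j, p i ≠ q j) → (∀ (S : Finset V) (J : Finset (Fin m)),
        (∀ j ∈ J, ¬ (p j ∈ S ↔ q j ∈ S)) → J.card ≤ dd G S) →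
      (univ.image p ∪ univ.image q).card ≤ w →
      ∃ ε : Fin m → ℤ, (∀ j, ε j = 1 ∨ ε j = -1) ∧
        ∀ ξ X, Bond G X → Clo (c ξ) X → k ≤ dd G X → |(sg p q ε X : ℝ)| ≤ b * dd G X) :
    ∀ i : ℕ, 5 ≤ i → HasNZFlow (ZMod i) G := by
  classical
  obtain ⟨C, hCd, hCk, hC1, hC2⟩ := exists_classes hF hF2 hg hw
  obtain ⟨u, huC, hu⟩ := exists_candidates h3 (q := q) (R := R) C hCd
    fun i => hqk.trans (hCk i)
  obtain ⟨t', hpk⟩ := hpick u fun i a j b hne =>
    (hu i a j b hne).mono (Bl_mono hRρ _) (Bl_mono hRρ _)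
  set t : Fin w → V := fun i => u i (t' i) with ht
  have htd : ∀ i j, i ≠ j → Disjoint (Bl G.Adj R (t i)) (Bl G.Adj R (t j)) := fun i j hij =>
    hu i (t' i) j (t' j) fun h => hij (Prod.mk.inj h).1
  have htinj : Function.Injective t := by
    intro i j hij
    by_contra h
    have h1 : t i ∈ Bl G.Adj R (t j) := by rw [hij]; exact Bl_self R (t j)
    exact Finset.disjoint_left.1 (htd i j h) (Bl_self R (t i)) h1
  set T : Finset V := univ.image t with hT
  have hbr := no_bridge h3 hc hk2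
  obtain ⟨m, p, p', hp, hp', hpp, hpT, hJ, hflow⟩ := flow G h3 F hF hF2 T
    (by
      intro c hc
      obtain ⟨i, hi⟩ := hC2 c hc
      refine ⟨t i, ⟨mem_image_of_mem _ (mem_univ _), hi ▸ huC i (t' i)⟩, ?_⟩
      rintro v ⟨hv, hvc⟩
      obtain ⟨j, -, rfl⟩ := mem_image.1 hv
      by_contra h
      have hij : j ≠ i := fun h' => h (by rw [h'])
      have h1 : t j ∈ C i := by
        have : t j ∈ ((C i : Finset V) : Set V) := hi ▸ hvc
        exact this
      exact Finset.disjoint_left.1 (hCd j i hij) (huC j (t' j)) h1)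
    (by
      intro c hc v hvc hv
      obtain ⟨j, -, rfl⟩ := mem_image.1 hv
      obtain ⟨c', hc', hj⟩ := hC1 j
      have h1 : t j ∈ c'.supp := hj ▸ huC j (t' j)
      rw [ConnectedComponent.mem_supp_iff] at h1 hvc
      exact hc (by rw [← hvc, h1]; exact hc')) hbr
  have hsel : ∀ v ∈ T, ∃ i, t i = v := fun v hv => by
    obtain ⟨i, -, hi⟩ := mem_image.1 hv
    exact ⟨i, hi⟩
  have hTT : univ.image p ∪ univ.image p' = T := by
    ext v
    rw [hpT]
    simp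
  have hTd : ∀ N, N ≤ R → ∀ x ∈ T, ∀ y ∈ T, x ≠ y → Disjoint (Bl G.Adj N x) (Bl G.Adj N y) := by
    intro N hN x hx y hy hxy
    obtain ⟨i, rfl⟩ := hsel x hx
    obtain ⟨j, rfl⟩ := hsel y hy
    exact (htd i j fun h => hxy (by rw [h])).mono (Bl_mono hN _) (Bl_mono hN _)
  have hTw : T.card ≤ w := by
    have := card_image_le (s := (univ : Finset (Fin w))) (f := t)
    rwa [card_univ, Fintype.card_fin] at this
  obtain ⟨ε, hε, hbig⟩ := hsigns m p p' hp hp' hpp hJ (by rw [hTT]; exact hTw)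
  -- closed bonds
  have hclb : ∀ ξ X, Bond G X → Closed (c ξ) X → |(sg p p' ε X : ℝ)| ≤ b * dd G X := by
    intro ξ X hX hcl
    by_cases hk : k ≤ dd G X
    · exact hbig ξ X hX hcl hk
    · have hcard : ∀ Y : Finset V, Y.Nonempty → Closed (c ξ) Y → n + 1 ≤ Y.card := by
        intro Y hY hYc
        obtain ⟨y, hy⟩ := hY
        refine hns.trans ((hcs ξ y).trans (card_le_card ?_))
        intro z hz
        rw [mem_cls] at hz
        exact (hYc z y hz).2 hy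
      have h1 := small_closed_sg h3 hc (n := n) hp hp' hpp hε
        (by rw [hTT]; exact hTd n hRn) hX (not_le.1 hk) (hcard X hX.2.2.1 hcl)
        (hcard Xᶜ hX.2.2.2 hcl.compl)
      have h2 := mul_le_mul_of_nonneg_left h1 hb0.le
      have h3 : |(sg p p' ε X : ℝ)| ≤ b * (((n : ℝ) + 1) * |(sg p p' ε X : ℝ)|) := by
        rw [← mul_assoc]
        exact le_mul_of_one_le_left (abs_nonneg _) hn
      exact h3.trans h2
  have hcl : ∀ ξ X, Closed (c ξ) X → |(sg p p' ε X : ℝ)| ≤ b * dd G X := by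
    intro ξ X hX
    refine closed_bonds (c := c ξ) (hcj ξ) (fun S h1 h2 => (by norm_num : 1 ≤ 2).trans (hbr S h1 h2))
      (σ := fun X => (sg p p' ε X : ℝ)) ?_ ?_ (hclb ξ) X hX
    · intro A B hAB
      show ((sg p p' ε (A ∪ B) : ℤ) : ℝ) = _
      rw [sg_union hAB]
      push_cast
      rfl
    · show ((sg p p' ε univ : ℤ) : ℝ) = 0
      rw [sg_univ]
      norm_num
  refine hflow ε hε fun S hS => ?_
  by_cases hk : dd G S < k
  · exact sg_small hp hp' hpp hpT hε (small_bond h3 hc T (hTd 5 hR5) hS hk)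
  · right
    have h1 := average h3 c hb0.le (ρ := ρ) (h := 20) (by norm_num) hcb S (hcB S) hp hp' hpp hpT hε
      (fun ξ => hcl ξ _ (by
        intro x y hxy
        simp only [mem_filter, mem_univ, true_and, hxy]))
      (by
        intro A hA hAs
        have hA' : A = (univ.filter fun i => t i ∈ A).image t := by
          ext v
          rw [mem_image]
          constructor
          · intro hv
            obtain ⟨i, rfl⟩ := hsel v (hA hv)
            exact ⟨i, mem_filter.2 ⟨mem_univ _, hv⟩, rfl⟩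
          · rintro ⟨i, hi, rfl⟩
            exact (mem_filter.1 hi).2
        rw [hA', card_image_of_injective _ htinj]
        exact hpk S hS.1 hS.2.1 (not_lt.1 hk) _ fun i hi => hAs _ (mem_filter.1 hi).2)
    have h2 : b * (1 + 3 * B) * dd G S ≤ 1 / 20 * dd G S :=
      mul_le_mul_of_nonneg_right hbB (Nat.cast_nonneg _)
    have h4 : (0 : ℝ) ≤ dd G S := Nat.cast_nonneg _
    have h5 : 5 * |(sg p p' ε S : ℝ)| ≤ dd G S := by
      push_cast at h1
      linarith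
    exact_mod_cast h5

/-- **The isoperimetric flow theorem.** -/
theorem main {δ : ℝ} (hδ : 0 < δ) : ∃ C : ℝ, 0 < C ∧ ∀ {V : Type} [Fintype V] [DecidableEq V]
    (G : SimpleGraph V) [DecidableRel G.Adj], (∀ v, G.degree v = 3) → ∀ w : ℕ, Iso G δ C w →
    ∀ F : SimpleGraph V, F ≤ G → (∀ v, (F.neighborSet v).ncard = 2) →
    {c : F.ConnectedComponent | Odd c.supp.ncard}.ncard ≤ w →
    ∀ i : ℕ, 5 ≤ i → HasNZFlow (ZMod i) G := by
  obtain ⟨ρ, m, s, n, b, τ, hm, hs, hb0, hb1, hτ, hbB, hτb, hn, hns⟩ := params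
  obtain ⟨q, D₁, hq0, hpick⟩ := pick ρ 20 (by norm_num) (8 / Real.sqrt ((1 : ℕ) : ℝ) + τ)
  obtain ⟨D₂, hsigns⟩ := signs hb0 hb1 hτb ((2 ^ ρ) ^ (3 * 2 ^ (4 * ρ)))
  obtain ⟨C₁, hC₁, hcnt₁⟩ := local_count hδ hτ (q * (3 * 2 ^ ρ))
  obtain ⟨C₂, hC₂, hcnt₂⟩ := local_count hδ hτ 1
  obtain ⟨R, hR⟩ : ∃ R, R = max ρ (max n 5) := ⟨_, rfl⟩
  obtain ⟨k, hk⟩ : ∃ k : ℕ, k = ⌈C₁⌉₊ + ⌈C₂⌉₊ + D₁ + D₂ + 2 + q * (12 * 4 ^ R) + (2 * ρ + 2) :=
    ⟨_, rfl⟩
  have hkC₁ : C₁ ≤ k := (Nat.le_ceil C₁).trans (by exact_mod_cast (by omega : ⌈C₁⌉₊ ≤ k))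
  have hkC₂ : C₂ ≤ k := (Nat.le_ceil C₂).trans (by exact_mod_cast (by omega : ⌈C₂⌉₊ ≤ k))
  refine ⟨k, by exact_mod_cast (by omega : 0 < k), ?_⟩
  intro V _ _ G _ h3 w₀ hI F hF hF2 hw
  have hc : CycConn G k := iso_cyc hδ hI le_rfl
  rcases gir_of_cyc h3 hc with hg | hn6
  · by_cases hV : Nonempty V
    · obtain ⟨Ξ, hΞ1, hΞ2, c, hΞ, hcj, hcs, hcb, -, hcB, -⟩ := exists_partitions h3 hm hs
        (fun A hA => hg A (hA.trans_le (by omega : 2 * ρ + 2 ≤ k)))
      refine assemble (B := 9 * ρ * 2 ^ (m + 1)) (ρ := ρ) (s := s) (n := n) (q := q) (R := R)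
        (k := k) h3 hc hg F hF hF2 rfl hw (by omega) (by omega) (by omega) (by omega) (by omega)
        hb0 hn hns hbB ?_ Ξ c hcj hcs hcb hcB ?_
      · intro u hu
        refine hpick G h3 _ u hu k (by omega) ?_
        refine hcnt₁ k hkC₁ G h3 w₀ hI _ ?_ k le_rfl 1 id le_rfl ?_ ?_
        · refine card_biUnion_le.trans ?_
          have h1 : ∀ p : Fin ({c : F.ConnectedComponent | Odd c.supp.ncard}.ncard) × Fin q,
              (Bl G.Adj ρ (u p.1 p.2)).card ≤ 3 * 2 ^ ρ := fun p => by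
            have := Bl_card G h3 ρ (u p.1 p.2)
            omega
          refine (sum_le_sum fun p _ => h1 p).trans ?_
          rw [sum_const, card_univ, Fintype.card_prod, Fintype.card_fin, Fintype.card_fin,
            smul_eq_mul]
          calc _ ≤ (w₀ + 1) * q * (3 * 2 ^ ρ) :=
                Nat.mul_le_mul_right _ (Nat.mul_le_mul_right _ (by omega))
            _ = q * (3 * 2 ^ ρ) * (w₀ + 1) := by ring
        · intro x
          have : cls (id : V → V) x = {x} := by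
            ext y; rw [mem_cls, mem_singleton]; rfl
          rw [this]
          exact joined_singleton x
        · intro x
          exact cls_card_pos id x
      · intro m' p p' hp hp' hpp hJ hcard
        refine hsigns G Ξ hΞ c m' p p' hp hp' hpp hJ k (by omega) fun ξ => ?_
        exact hcnt₂ k hkC₂ G h3 w₀ hI _ (by omega) k le_rfl (2 ^ s) (c ξ)
          (Nat.one_le_two_pow) (hcj ξ) (hcs ξ)
    · rw [not_nonempty_iff] at hV
      have : Fintype.card V = 0 := Fintype.card_eq_zero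
      exact small_case h3 (by omega) (fun S a b => (by omega : 2 ≤ k).trans (hc S a b)) F hF hF2
  · exact small_case h3 hn6 (fun S a b => (by omega : 2 ≤ k).trans (hc S a b)) F hF hF2

end Pool.Agent.Iso5
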