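import Mathlib
import Pool.Agent.Work.MP_974d84_co_iso.NumH
import Pool.Agent.Work.MP_974d84_co_log.Steiner

/-!
# The local count

Bonds with `D` edges through a vertex in their small side, under squared logarithmic isoperimetry.
-/

set_option linter.unusedSectionVars false

namespace Pool.Agent.Iso5.Two

open Finset SimpleGraph
open Pool.Agent.Exp Pool.Agent.Log5 Pool.Agent.Log5.Clu Pool.Agent.Iso5
open Pool.Agent.Work.MP_314beb_co

variable {V : Type} [Fintype V] [DecidableEq V] (G : SimpleGraph V) [DecidableRel G.Adj]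

/-- The isoperimetric hypothesis. -/
def Iso (C : ℝ) (w : ℕ) : Prop :=
  ∀ S : Finset V, ¬ (G.induce (S : Set V)).IsAcyclic →
    ¬ (G.induce ((Sᶜ : Finset V) : Set V)).IsAcyclic → 2 * S.card ≤ Fintype.card V →
    C * min ((1 + Real.log S.card) ^ 2) (1 + Real.log w) ≤ dd G S

variable {G}

theorem iso_cases (h3 : ∀ v, G.degree v = 3) {C : ℝ} {w : ℕ} (hI : Iso G C w) {A : Finset V}
    (hA : A.Nonempty) (h2 : 2 * A.card ≤ Fintype.card V) :
    A.card + 2 ≤ dd G A ∨ C * min ((1 + Real.log A.card) ^ 2) (1 + Real.log w) ≤ dd G A := by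
  by_cases a1 : (G.induce (A : Set V)).IsAcyclic
  · exact Or.inl (dd_of_acyclic G h3 hA a1)
  · by_cases a2 : (G.induce ((Aᶜ : Finset V) : Set V)).IsAcyclic
    · left
      have h4 := card_add_card_compl A
      have h5 := hA.card_pos
      have := dd_of_acyclic G h3 (S := Aᶜ) (by rw [← card_pos]; omega) a2
      rw [dd_compl] at this
      omega
    · exact Or.inr (hI A a1 a2 h2)

theorem min_ge_one {a w : ℕ} : 1 ≤ min ((1 + Real.log (a : ℝ)) ^ 2) (1 + Real.log w) := by
  have h1 := log_nat_nonneg a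
  have h2 := log_nat_nonneg w
  apply le_min
  · nlinarith
  · linarith

theorem iso_pos (h3 : ∀ v, G.degree v = 3) {C : ℝ} (hC : 0 < C) {w : ℕ} (hI : Iso G C w)
    {A : Finset V} (hA : A.Nonempty) (hA' : Aᶜ.Nonempty) : 1 ≤ dd G A := by
  have key : ∀ B : Finset V, B.Nonempty → 2 * B.card ≤ Fintype.card V → 1 ≤ dd G B := by
    intro B hB h2
    rcases iso_cases h3 hI hB h2 with h | h
    · omega
    · have h4 : C * 1 ≤ C * min ((1 + Real.log B.card) ^ 2) (1 + Real.log w) :=
        mul_le_mul_of_nonneg_left min_ge_one hC.le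
      have h5 : (0 : ℝ) < dd G B := by linarith
      exact_mod_cast h5
  have h4 := card_add_card_compl A
  by_cases h : 2 * A.card ≤ Fintype.card V
  · exact key A hA h
  · rw [← dd_compl]
    exact key Aᶜ hA' (by omega)

/-- The size at which the classes are well separated. -/
noncomputable def Ns (C : ℝ) (w : ℕ) : ℕ :=
  max ⌈Real.exp (Real.sqrt (1 + Real.log w) - 1)⌉₊ ⌈C * (1 + Real.log w)⌉₊

theorem lt_Ns {C : ℝ} {w a : ℕ} (ha : 1 ≤ a) (h : a < Ns C w) :
    (1 + Real.log a) ^ 2 ≤ 1 + Real.log w ∨ (a : ℝ) < C * (1 + Real.log w) := by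
  unfold Ns at h
  rcases lt_max_iff.1 h with h | h
  · left
    rw [Nat.lt_ceil] at h
    have hl := log_nat_nonneg w
    have h1 : Real.log a ≤ Real.sqrt (1 + Real.log w) - 1 := by
      have := Real.log_le_log (by exact_mod_cast ha) h.le
      rwa [Real.log_exp] at this
    have h2 := log_nat_nonneg a
    calc (1 + Real.log a) ^ 2 ≤ Real.sqrt (1 + Real.log w) ^ 2 :=
          pow_le_pow_left₀ (by linarith) (by linarith) 2
      _ = 1 + Real.log w := Real.sq_sqrt (by linarith)
  · right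
    exact Nat.lt_ceil.1 h

theorem Ns_le {C : ℝ} {w a : ℕ} (h : Ns C w ≤ a) :
    1 + Real.log w ≤ (1 + Real.log a) ^ 2 ∧ C * (1 + Real.log w) ≤ a := by
  unfold Ns at h
  have h1 := (le_max_left _ _).trans h
  have h2 := (le_max_right _ _).trans h
  rw [Nat.ceil_le] at h1 h2
  refine ⟨?_, h2⟩
  have hl := log_nat_nonneg w
  have h4 := Real.log_le_log (Real.exp_pos _) h1
  rw [Real.log_exp] at h4
  calc 1 + Real.log w = Real.sqrt (1 + Real.log w) ^ 2 := (Real.sq_sqrt (by linarith)).symm
    _ ≤ (1 + Real.log a) ^ 2 := pow_le_pow_left₀ (Real.sqrt_nonneg _) (by linarith) 2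

/-- The step, below the size `Ns`. -/
theorem iso_step (h3 : ∀ v, G.degree v = 3) {C : ℝ} (hC : 0 < C) {w : ℕ} (hI : Iso G C w)
    {A : Finset V} (hA : A.Nonempty) (h2 : 2 * A.card ≤ Fintype.card V)
    (hN : A.card < Ns C w) :
    A.card ≤ dd G A ∨ C * (1 + Real.log A.card) ^ 2 ≤ dd G A := by
  rcases iso_cases h3 hI hA h2 with h | h
  · left; omega
  · rcases le_total ((1 + Real.log (A.card : ℝ)) ^ 2) (1 + Real.log w) with h4 | h4
    · right
      rwa [min_eq_left h4] at h
    · rw [min_eq_right h4] at h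
      rcases lt_Ns hA.card_pos hN with h5 | h5
      · right
        exact (mul_le_mul_of_nonneg_left h5 hC.le).trans h
      · left
        exact_mod_cast (h5.le.trans h)

/-- Large sets are separated by many edges. -/
theorem iso_sep (h3 : ∀ v, G.degree v = 3) {C : ℝ} {w : ℕ} (hC : 0 < C) (hI : Iso G C w)
    {X : Finset V} (h1 : Ns C w ≤ X.card) (h2 : Ns C w ≤ Xᶜ.card) :
    C * (1 + Real.log w) ≤ dd G X := by
  have hNs : 0 < Ns C w := by
    have h := log_nat_nonneg w
    have : (0 : ℝ) < C * (1 + Real.log w) := by positivity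
    exact lt_of_lt_of_le (Nat.ceil_pos.2 this) (le_max_right _ _)
  have key : ∀ B : Finset V, Ns C w ≤ B.card → 2 * B.card ≤ Fintype.card V →
      C * (1 + Real.log w) ≤ dd G B := by
    intro B hB h2B
    obtain ⟨h4, h5⟩ := Ns_le hB
    rcases iso_cases h3 hI (card_pos.1 (hNs.trans_le hB)) h2B with h | h
    · have : ((B.card + 2 : ℕ) : ℝ) ≤ dd G B := by exact_mod_cast h
      push_cast at this
      linarith
    · rwa [min_eq_right h4] at h
  have h4 := card_add_card_compl X
  by_cases h : 2 * X.card ≤ Fintype.card V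
  · exact key X h1 h
  · rw [← dd_compl]
    exact key Xᶜ h2 (by omega)

/-- The size of the small side of a small bond. -/
noncomputable def sD (C : ℝ) (D : ℕ) : ℕ := max D ⌊Real.exp (Real.sqrt (D / C) - 1)⌋₊

theorem iso_size (h3 : ∀ v, G.degree v = 3) {C : ℝ} (hC : 0 < C) {w : ℕ} (hI : Iso G C w)
    {S : Finset V} (hS : S.Nonempty) (h2 : 2 * S.card ≤ Fintype.card V)
    (hD : (dd G S : ℝ) < C * (1 + Real.log w)) : S.card ≤ sD C (dd G S) := by
  unfold sD
  rcases iso_cases h3 hI hS h2 with h | h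
  · exact le_max_of_le_left (by omega)
  · apply le_max_of_le_right
    rw [Nat.le_floor_iff (Real.exp_pos _).le]
    have h4 : ¬ 1 + Real.log w ≤ (1 + Real.log (S.card : ℝ)) ^ 2 := by
      intro h4
      rw [min_eq_right h4] at h
      linarith
    push Not at h4
    rw [min_eq_left h4.le] at h
    have hs : (0 : ℝ) < S.card := by exact_mod_cast hS.card_pos
    have h5 := log_nat_nonneg S.card
    have h6 : (1 + Real.log (S.card : ℝ)) ^ 2 ≤ dd G S / C := by
      rw [le_div_iff₀ hC]; linarith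
    have h7 : 1 + Real.log (S.card : ℝ) ≤ Real.sqrt (dd G S / C) := Real.le_sqrt_of_sq_le h6
    calc (S.card : ℝ) = Real.exp (Real.log S.card) := (Real.exp_log hs).symm
      _ ≤ _ := Real.exp_le_exp.2 (by linarith)

theorem sD_lt {C : ℝ} (hC : 0 < C) {w D : ℕ} (hD : (D : ℝ) < C * (1 + Real.log w)) :
    sD C D < Ns C w := by
  have hl := log_nat_nonneg w
  unfold sD Ns
  apply max_lt
  · exact lt_max_of_lt_right (Nat.lt_ceil.2 hD)
  · apply lt_max_of_lt_left
    have h1 : Real.sqrt (D / C) < Real.sqrt (1 + Real.log w) := by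
      apply Real.sqrt_lt_sqrt (by positivity)
      rw [div_lt_iff₀ hC]
      linarith
    rw [Nat.lt_ceil]
    exact lt_of_le_of_lt (Nat.floor_le (Real.exp_pos _).le)
      (Real.exp_lt_exp.2 (by linarith))

open Classical in
/-- The local count. -/
theorem local_count (h3 : ∀ v, G.degree v = 3) {C : ℝ} (hC : 1 ≤ C) {w : ℕ} (hiso : Iso G C w)
    {c : ℝ} (hc : 0 ≤ c) (hcC : 20 ≤ c * Real.sqrt (Real.sqrt C) ^ 3)
    {K : ℕ} (hK : 1 ≤ K) {c0 : V → V} (hc0 : ∀ x, Joined G (cls c0 x))
    (hcK : ∀ x, K ≤ (cls c0 x).card) (t0 : V) (W : Finset V) {D : ℕ} (F : Finset (Finset V))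
    (hF : ∀ S ∈ F, t0 ∈ S ∧ Joined G S ∧ Joined G Sᶜ ∧ 2 * S.card ≤ Fintype.card V)
    (hcl : ∀ S ∈ F, Clo c0 S) (hD : ∀ S ∈ F, dd G S = D)
    (hinj : ∀ S ∈ F, ∀ S' ∈ F, (∀ v ∈ W, (v ∈ S ↔ v ∈ S')) → S = S') :
    (F.card : ℝ) ≤ Real.exp (2 * hI c K * D) *
      (if (D : ℝ) < C * (1 + Real.log w) then ((Nat.log 2 (sD C D + 1) + 1 : ℕ) : ℝ)
        else (2 * (W.card + 1)) ^ (8 * D / ⌊C * (1 + Real.log w)⌋₊ + 1)
          + ((Nat.log 2 (Ns C w) + 1 : ℕ) : ℝ)) := by
  have hC0 : 0 < C := by linarith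
  have hlw := log_nat_nonneg w
  have hpos : ∀ A : Finset V, A.Nonempty → Aᶜ.Nonempty → 1 ≤ dd G A :=
    fun A h1 h2 => iso_pos h3 hC0 hiso h1 h2
  have hgen : ∀ (N : ℕ) (M : ℝ), N ≤ Ns C w → 0 ≤ M →
      (∀ c' : V → V, (∀ x, Joined G (cls c' x)) → (∀ x, N ≤ (cls c' x).card) →
      (∀ x, cls c0 x ⊆ cls c' x) → ((F.filter fun S => Clo c' S).card : ℝ) ≤ M) →
      (F.card : ℝ) ≤ Real.exp (2 * hI c K * D) * (M + (Nat.log 2 N + 1 : ℕ)) := by
    intro N M hN hM0 hM
    have h1 := local_cluster (G := G) (h := hI c) (hI_nonneg hc) (hI_anti hc) (K := K) (N := N)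
      (fun A hA _ _ hAN h2 q hq => hI_step hc hC0 hcC hA.card_pos
        (iso_step h3 hC0 hiso hA h2 (hAN.trans_le hN)) hq)
      hpos t0 F hF hc0 hcK hM0 hM
    have h2 : F.filter (fun S => Clo c0 S) = F := filter_true_of_mem hcl
    rw [h2] at h1
    have h4 : (F.card : ℝ) * Real.exp (-(2 * hI c K * D)) ≤
        ∑ S ∈ F, Real.exp (- PhiH G (hI c) c0 S) := by
      rw [← nsmul_eq_mul, ← sum_const]
      refine sum_le_sum fun S hS => ?_
      apply Real.exp_le_exp.2
      have := PhiH_le (G := G) (hI_anti hc) hK hcK S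
      rw [hD S hS] at this
      linarith
    have h5 := h4.trans h1
    have h6 : (F.card : ℝ) = Real.exp (2 * hI c K * D) *
        ((F.card : ℝ) * Real.exp (-(2 * hI c K * D))) := by
      rw [mul_comm (F.card : ℝ), ← mul_assoc, ← Real.exp_add]
      simp
    rw [h6]
    exact mul_le_mul_of_nonneg_left h5 (Real.exp_pos _).le
  split_ifs with hlt
  · -- few edges: the sets are small
    have h1 := hgen (sD C D + 1) 0 (sD_lt hC0 hlt) le_rfl (by
      intro c' _ hc2 _
      have : F.filter (fun S => Clo c' S) = ∅ := by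
        rw [filter_eq_empty_iff]
        intro S hS hcl'
        obtain ⟨k1, -, -, k4⟩ := hF S hS
        have h5 : S.card ≤ sD C D := by
          have := iso_size h3 hC0 hiso ⟨t0, k1⟩ k4 (by rw [hD S hS]; exact hlt)
          rwa [hD S hS] at this
        have h6 : cls c' t0 ⊆ S := fun z hz => (hcl' z t0 (mem_cls.1 hz)).2 k1
        have h7 := card_le_card h6
        have h8 := hc2 t0
        omega
      rw [this]
      simp)
    rw [zero_add] at h1
    exact h1
  · -- many edges: large classes are well separated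
    set Kw := ⌊C * (1 + Real.log w)⌋₊ with hKw
    have hCw : 1 ≤ C * (1 + Real.log w) := by nlinarith
    have hKw0 : 0 < Kw := Nat.floor_pos.2 hCw
    refine hgen (Ns C w) _ le_rfl (by positivity) ?_
    intro c' hc1 hc2 _
    have h1 := steiner_karger (G := G) (ι := {x // x ∈ W}) (fun i => cls c' i)
      (fun i => ⟨i, self_mem_cls c' i⟩) (K := Kw) (D := D) (a := 8 * D / Kw + 1) hKw0
      (by
        intro X i j hi hj
        have e1 : Ns C w ≤ X.card := (hc2 i).trans (card_le_card hi)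
        have e2 : Ns C w ≤ Xᶜ.card := (hc2 j).trans (card_le_card (by
          intro z hz
          rw [mem_compl]
          exact fun h => (Finset.disjoint_left.1 hj) hz h))
        have e3 := iso_sep h3 hC0 hiso e1 e2
        exact Nat.floor_le_of_le e3)
      (F.filter fun S => Clo c' S)
      (by
        intro S hS i
        have hcl' := (mem_filter.1 hS).2
        by_cases h : (i : V) ∈ S
        · exact Or.inl fun z hz => (hcl' z i (mem_cls.1 hz)).2 h
        · right
          rw [Finset.disjoint_left]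
          exact fun z hz hzS => h ((hcl' z i (mem_cls.1 hz)).1 hzS))
      (by
        intro S hS S' hS' h
        rw [mem_filter] at hS hS'
        refine hinj S hS.1 S' hS'.1 fun v hv => ?_
        have key : ∀ T : Finset V, Clo c' T → (cls c' v ⊆ T ↔ v ∈ T) := by
          intro T hT
          exact ⟨fun h => h (self_mem_cls c' v), fun h z hz => (hT z v (mem_cls.1 hz)).2 h⟩
        rw [← key S hS.2, ← key S' hS'.2]
        exact h ⟨v, hv⟩)
      (fun S hS => (hD S (mem_filter.1 hS).1).le)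
      (by
        have e1 := Nat.div_add_mod (8 * D) Kw
        have e2 := Nat.mod_lt (8 * D) hKw0
        nlinarith)
      (Nat.le_add_left 1 _)
    rw [Fintype.card_coe] at h1
    exact_mod_cast h1

end Pool.Agent.Iso5.Two
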