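import Mathlib
import Pool.Agent.Work.MP_974d84_co_iso.Part
import Pool.Agent.Work.MP_974d84_co_log.Cluster

/-!
# Letter F: finitely many partitions which cut no set too much
-/

set_option linter.unusedSectionVars false

namespace Pool.Agent.Iso5

open Finset SimpleGraph Pool.Agent.Exp Pool.Agent.Log5 Pool.Agent.Log5.Clu

theorem dd_le_of_diff {V : Type} [Fintype V] [DecidableEq V] (G : SimpleGraph V)
    [DecidableRel G.Adj] (h3 : ∀ v, G.degree v = 3) (S S' : Finset V) :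
    dd G S' ≤ dd G S + 3 * (univ.filter fun v => ¬ (v ∈ S ↔ v ∈ S')).card := by
  classical
  have hstar : ∀ u : V, (univ.filter fun p : V × V => p.1 = u ∧ G.Adj p.1 p.2).card ≤ 3 := by
    intro u
    rw [← h3 u, ← card_neighborFinset_eq_degree]
    refine card_le_card_of_injOn (fun p => p.2) ?_ ?_
    · intro p hp
      simp only [coe_filter, mem_univ, true_and, Set.mem_ofPred_eq] at hp
      rw [mem_coe, mem_neighborFinset, ← hp.1]; exact hp.2
    · intro p hp q hq h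
      simp only [coe_filter, mem_univ, true_and, Set.mem_ofPred_eq] at hp hq
      exact Prod.ext (hp.1.trans hq.1.symm) h
  have hstar' : ∀ u : V, (univ.filter fun p : V × V => p.2 = u ∧ G.Adj p.1 p.2).card ≤ 3 := by
    intro u
    rw [← h3 u, ← card_neighborFinset_eq_degree]
    refine card_le_card_of_injOn (fun p => p.1) ?_ ?_
    · intro p hp
      simp only [coe_filter, mem_univ, true_and, Set.mem_ofPred_eq] at hp
      rw [mem_coe, mem_neighborFinset, ← hp.1]; exact hp.2.symm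
    · intro p hp q hq h
      simp only [coe_filter, mem_univ, true_and, Set.mem_ofPred_eq] at hp hq
      exact Prod.ext h (hp.1.trans hq.1.symm)
  have hsub : Pool.Agent.Work.MP_314beb_co.cut G S' ⊆
      Pool.Agent.Work.MP_314beb_co.cut G S ∪
      ((S' \ S).biUnion (fun u => univ.filter fun p : V × V => p.1 = u ∧ G.Adj p.1 p.2) ∪
      (S \ S').biUnion (fun u => univ.filter fun p : V × V => p.2 = u ∧ G.Adj p.1 p.2)) := by
    intro p hp
    rw [mem_cut] at hp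
    by_cases h1 : p.1 ∈ S
    · by_cases h2 : p.2 ∈ S
      · refine mem_union_right _ (mem_union_right _ (mem_biUnion.2 ⟨p.2, mem_sdiff.2 ⟨h2, hp.2.1⟩,
          mem_filter.2 ⟨mem_univ _, rfl, hp.2.2⟩⟩))
      · exact mem_union_left _ ((mem_cut G).2 ⟨h1, h2, hp.2.2⟩)
    · refine mem_union_right _ (mem_union_left _ (mem_biUnion.2 ⟨p.1, mem_sdiff.2 ⟨hp.1, h1⟩,
          mem_filter.2 ⟨mem_univ _, rfl, hp.2.2⟩⟩))
  have h1 := card_le_card hsub
  have h2 := card_union_le (Pool.Agent.Work.MP_314beb_co.cut G S)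
    ((S' \ S).biUnion (fun u => univ.filter fun p : V × V => p.1 = u ∧ G.Adj p.1 p.2) ∪
      (S \ S').biUnion (fun u => univ.filter fun p : V × V => p.2 = u ∧ G.Adj p.1 p.2))
  have h4 := card_union_le
    ((S' \ S).biUnion (fun u => univ.filter fun p : V × V => p.1 = u ∧ G.Adj p.1 p.2))
    ((S \ S').biUnion (fun u => univ.filter fun p : V × V => p.2 = u ∧ G.Adj p.1 p.2))
  have h5 : ((S' \ S).biUnion
      (fun u => univ.filter fun p : V × V => p.1 = u ∧ G.Adj p.1 p.2)).card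
      ≤ (S' \ S).card * 3 := card_biUnion_le_card_mul _ _ _ fun u _ => hstar u
  have h6 : ((S \ S').biUnion
      (fun u => univ.filter fun p : V × V => p.2 = u ∧ G.Adj p.1 p.2)).card
      ≤ (S \ S').card * 3 := card_biUnion_le_card_mul _ _ _ fun u _ => hstar' u
  have h7 : (S' \ S).card + (S \ S').card =
      (univ.filter fun v => ¬ (v ∈ S ↔ v ∈ S')).card := by
    rw [← card_union_of_disjoint]
    · congr 1
      ext v
      simp only [mem_union, mem_sdiff, mem_filter, mem_univ, true_and]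
      tauto
    · rw [Finset.disjoint_left]
      intro v hv hv'
      rw [mem_sdiff] at hv hv'
      exact hv.2 hv'.1
  unfold dd
  omega

theorem clog_facts {s : ℕ} (hs : 8 ≤ s) : 4 * (16 * s) ≤ 2 ^ Nat.clog 2 (64 * s) ∧
    2 ^ Nat.clog 2 (64 * s) ≤ 128 * s ∧ 8 * s + 4 * Nat.clog 2 (64 * s) + 7 ≤ 16 * s := by
  have h1 : 64 * s ≤ 2 ^ Nat.clog 2 (64 * s) := Nat.le_pow_clog (by norm_num) _
  have h2 : 2 ^ (Nat.clog 2 (64 * s) - 1) < 64 * s :=
    Nat.pow_pred_clog_lt_self (by norm_num) (by omega)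
  have h3 : 0 < Nat.clog 2 (64 * s) := Nat.clog_pos (by norm_num) (by omega)
  have h4 : 2 ^ Nat.clog 2 (64 * s) = 2 * 2 ^ (Nat.clog 2 (64 * s) - 1) := by
    rw [← pow_succ']; congr 1; omega
  refine ⟨by omega, by omega, ?_⟩
  by_contra h
  push Not at h
  have h5 : 2 * s - 1 ≤ Nat.clog 2 (64 * s) := by omega
  have h6 : 2 ^ (2 * s - 1) ≤ 2 ^ Nat.clog 2 (64 * s) := Nat.pow_le_pow_right (by norm_num) h5
  have h7 : ∀ n, 8 ≤ n → 128 * n < 2 ^ (2 * n - 1) := by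
    intro n hn
    induction n, hn using Nat.le_induction with
    | base => norm_num
    | succ n hn ih =>
      have : 2 ^ (2 * (n + 1) - 1) = 4 * 2 ^ (2 * n - 1) := by
        rw [show (4 : ℕ) = 2 ^ 2 by norm_num, ← pow_add]; congr 1; omega
      omega
  have := h7 s hs
  omega

theorem exists_parts : ∃ s₀ : ℕ, ∀ s, s₀ ≤ s → ∃ N₀ g : ℕ, ∀ {V : Type} [Fintype V]
    [DecidableEq V] (G : SimpleGraph V) [DecidableRel G.Adj], (∀ v, G.degree v = 3) → Gir G g →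
    ∃ (Ξ : Type) (_ : Fintype Ξ) (_ : Nonempty Ξ) (c : Ξ → V → V), Fintype.card Ξ ≤ N₀ ∧
      (∀ ξ x, Joined G (cls (c ξ) x)) ∧ (∀ ξ x, 2 ^ s ≤ (cls (c ξ) x).card) ∧
      (∀ ξ v, c ξ v ∈ Bl G.Adj (16 * s) v) ∧
      ∀ S : Finset V, ∑ ξ, (dd G (univ.filter fun v => c ξ v ∈ S) : ℝ) ≤
        128000 * (s : ℝ) ^ 2 * dd G S * Fintype.card Ξ := by
  classical
  refine ⟨8, fun s hs => ⟨(2 ^ (16 * s)) ^ (3 * 2 ^ (4 * (16 * s))), 2 * (16 * s) + 2, ?_⟩⟩
  intro V _ _ G _ h3 hg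
  obtain ⟨hm, hm2, hms⟩ := clog_facts hs
  obtain ⟨Ξ, i1, i2, c, hcard, hJ, hK, hB, -, hsum, -⟩ :=
    exists_partitions (G := G) (s := s) h3 hm hms hg
  refine ⟨Ξ, i1, i2, c, hcard, fun ξ x => hJ ξ x, fun ξ x => hK ξ x, hB, fun S => ?_⟩
  have h1 : ∀ ξ ∈ (univ : Finset Ξ), (dd G (univ.filter fun v => c ξ v ∈ S) : ℝ) ≤
      dd G S + 3 * ((univ.filter fun v => ¬ (v ∈ S ↔ c ξ v ∈ S)).card : ℝ) := by
    intro ξ _
    have := dd_le_of_diff G h3 S (univ.filter fun v => c ξ v ∈ S)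
    simp only [mem_filter, mem_univ, true_and] at this
    exact_mod_cast this
  refine (sum_le_sum h1).trans ?_
  rw [sum_add_distrib, ← mul_sum, sum_const, card_univ, nsmul_eq_mul]
  have h2 := hsum S
  have h4 : (2 : ℝ) ^ (Nat.clog 2 (64 * s) + 1) ≤ 256 * s := by
    rw [pow_succ]
    have : ((2 ^ Nat.clog 2 (64 * s) : ℕ) : ℝ) ≤ ((128 * s : ℕ) : ℝ) := by exact_mod_cast hm2
    push_cast at this
    linarith
  have hs1 : (1 : ℝ) ≤ s := by
    have : 1 ≤ s := by omega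
    exact_mod_cast this
  have h5 : (9 : ℝ) * ((16 * s : ℕ) : ℝ) * 2 ^ (Nat.clog 2 (64 * s) + 1) ≤ 36864 * (s : ℝ) ^ 2 := by
    calc (9 : ℝ) * ((16 * s : ℕ) : ℝ) * 2 ^ (Nat.clog 2 (64 * s) + 1)
        ≤ 9 * ((16 * s : ℕ) : ℝ) * (256 * s) := by gcongr
      _ = 36864 * (s : ℝ) ^ 2 := by push_cast; ring
  have h6 : (0 : ℝ) ≤ dd G S * Fintype.card Ξ := by positivity
  have h7 : ∑ ξ, ((univ.filter fun v => ¬ (v ∈ S ↔ c ξ v ∈ S)).card : ℝ) ≤
      36864 * (s : ℝ) ^ 2 * (dd G S * Fintype.card Ξ) := by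
    refine h2.trans ?_
    rw [mul_assoc _ (dd G S : ℝ)]
    exact mul_le_mul_of_nonneg_right h5 h6
  have h8 : (1 : ℝ) ≤ (s : ℝ) ^ 2 := one_le_pow₀ hs1
  have h9 : (dd G S * Fintype.card Ξ : ℝ) ≤ (s : ℝ) ^ 2 * (dd G S * Fintype.card Ξ) :=
    le_mul_of_one_le_left h6 h8
  calc (Fintype.card Ξ : ℝ) * dd G S +
      3 * ∑ ξ, ((univ.filter fun v => ¬ (v ∈ S ↔ c ξ v ∈ S)).card : ℝ)
      ≤ (s : ℝ) ^ 2 * (dd G S * Fintype.card Ξ) +
        3 * (36864 * (s : ℝ) ^ 2 * (dd G S * Fintype.card Ξ)) := by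
        refine add_le_add ?_ (by gcongr)
        rw [mul_comm (Fintype.card Ξ : ℝ)]; exact h9
    _ ≤ 128000 * (s : ℝ) ^ 2 * (dd G S * Fintype.card Ξ) := by
        have : (0 : ℝ) ≤ (s : ℝ) ^ 2 * (dd G S * Fintype.card Ξ) := by positivity
        nlinarith
    _ = 128000 * (s : ℝ) ^ 2 * dd G S * Fintype.card Ξ := by ring

end Pool.Agent.Iso5
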