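import Mathlib
import Pool.Agent.Work.MP_974d84_co.Defs
import Pool.Agent.Work.MP_974d84_co_iso.Defs3

/-!
# ROOM 5FLOW, theorem (U*): the statements of the modules (nobody imports this file)
-/

set_option linter.unusedSectionVars false

namespace Pool.Agent.Iso5.Plan

open Finset SimpleGraph Pool.Agent.Exp Pool.Agent.Log5 Pool.Agent.Log5.Clu Pool.Agent.Iso5 MP974d84

/-- P1b (helper28), file Num.lean -/
theorem exists_h {δ τ : ℝ} (hδ : 0 < δ) (hτ : 0 < τ) : ∃ (h : ℕ → ℝ) (C : ℝ),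
    (∀ a, 0 ≤ h a) ∧ (∀ a b : ℕ, 1 ≤ a → a ≤ b → h b ≤ h a) ∧
    (∀ a : ℕ, 1 ≤ a → h a ≤ 4 / Real.sqrt a + τ) ∧ 1 ≤ C ∧
    ∀ a m : ℕ, 1 ≤ a → 1 ≤ m → (a ≤ m ∨ C * (1 + Real.log a) ^ (1 + δ) ≤ m) →
      Real.log m ≤ ((m : ℝ) - 1) * (h a - h (2 * a)) := by
  sorry

/-- P1c (helper82), file Count.lean -/
theorem local_count {δ τ : ℝ} (hδ : 0 < δ) (hτ : 0 < τ) (B : ℕ) : ∃ C₀ : ℝ, 1 ≤ C₀ ∧
    ∀ C : ℝ, C₀ ≤ C → ∀ {V : Type} [Fintype V] [DecidableEq V] (G : SimpleGraph V)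
    [DecidableRel G.Adj], (∀ v, G.degree v = 3) → ∀ w : ℕ, Iso G δ C w →
    ∀ W : Finset V, W.card ≤ B * (w + 1) → ∀ D₁ : ℕ, C ≤ D₁ → ∀ (K : ℕ) (c : V → V), 1 ≤ K →
    (∀ x, Joined G (cls c x)) → (∀ x, K ≤ (cls c x).card) →
    LocBd G W D₁ (8 / Real.sqrt K + τ) c := by
  sorry

/-- P3 (helper87), file Pick.lean -/
theorem pick (ρ h : ℕ) (hh : 0 < h) (κ : ℝ) : ∃ q D₀ : ℕ, 0 < q ∧
    ∀ {V : Type} [Fintype V] [DecidableEq V] (G : SimpleGraph V) [DecidableRel G.Adj],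
    (∀ v, G.degree v = 3) → ∀ (w : ℕ) (u : Fin w → Fin q → V),
    (∀ i a j b, (i, a) ≠ (j, b) → Disjoint (Bl G.Adj ρ (u i a)) (Bl G.Adj ρ (u j b))) →
    ∀ D₁, D₀ ≤ D₁ →
    LocBd G (univ.biUnion fun p : Fin w × Fin q => Bl G.Adj ρ (u p.1 p.2)) D₁ κ id →
    ∃ t : Fin w → Fin q, ∀ S, Joined G S → Joined G Sᶜ → D₁ ≤ dd G S →
      ∀ A : Finset (Fin w), (∀ i ∈ A, Spl G ρ S (u i (t i))) → h * A.card ≤ dd G S := by
  sorry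

/-- P4 (helper47), file Part.lean (the last conjunct of his statement is not used) -/
theorem exists_partitions {V : Type} [Fintype V] [DecidableEq V] {G : SimpleGraph V}
    [DecidableRel G.Adj] [Nonempty V] (h3 : ∀ v, G.degree v = 3) {ρ m s : ℕ} (hm : 4 * ρ ≤ 2 ^ m)
    (hs : 8 * s + 4 * m + 7 ≤ ρ) (hg : Gir G (2 * ρ + 4)) :
    ∃ (Ξ : Type) (_ : Fintype Ξ) (_ : Nonempty Ξ) (c : Ξ → V → V),
      Fintype.card Ξ ≤ (2 ^ ρ) ^ (3 * 2 ^ (4 * ρ)) ∧ (∀ ξ x, Joined G (cls (c ξ) x)) ∧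
      (∀ ξ x, 2 ^ s ≤ (cls (c ξ) x).card) ∧ (∀ ξ v, c ξ v ∈ Bl G.Adj ρ v) ∧
      ∀ S : Finset V, ∑ ξ, ((univ.filter fun v => ¬ (v ∈ S ↔ c ξ v ∈ S)).card : ℝ) ≤
        9 * ρ * 2 ^ (m + 1) * dd G S * Fintype.card Ξ := by
  sorry

/-- P5 (helper68), file Signs.lean -/
theorem signs {b κ : ℝ} (hb : 0 < b) (hb1 : b ≤ 1) (hκ : κ ≤ b ^ 2 / 8) (N₀ : ℕ) :
    ∃ D₀ : ℕ, ∀ {V : Type} [Fintype V] [DecidableEq V] (G : SimpleGraph V) [DecidableRel G.Adj]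
    (Ξ : Type) [Fintype Ξ], Fintype.card Ξ ≤ N₀ → ∀ (c : Ξ → V → V) (m : ℕ) (p q : Fin m → V),
    Function.Injective p → Function.Injective q → (∀ i j, p i ≠ q j) →
    (∀ (S : Finset V) (J : Finset (Fin m)), (∀ j ∈ J, ¬ (p j ∈ S ↔ q j ∈ S)) →
      J.card ≤ dd G S) →
    ∀ D₁, D₀ ≤ D₁ → (∀ ξ, LocBd G (univ.image p ∪ univ.image q) D₁ κ (c ξ)) →
    ∃ ε : Fin m → ℤ, (∀ j, ε j = 1 ∨ ε j = -1) ∧
      ∀ ξ X, Bond G X → Clo (c ξ) X → D₁ ≤ dd G X → |(sg p q ε X : ℝ)| ≤ b * dd G X := by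
  sorry

section
variable {V : Type} [Fintype V] [DecidableEq V] {G : SimpleGraph V} [DecidableRel G.Adj]

/-- P5b (helper87), file Split.lean: landed -/
theorem closed_bonds {κ : Type*} [DecidableEq κ] {c : V → κ}
    (hc : ∀ x, Joined G (univ.filter fun y => c y = c x))
    (hbr : ∀ S : Finset V, S.Nonempty → Sᶜ.Nonempty → 1 ≤ dd G S) {σ : Finset V → ℝ}
    (hadd : ∀ A B, Disjoint A B → σ (A ∪ B) = σ A + σ B) (h0 : σ univ = 0) {b : ℝ}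
    (hb : ∀ X, Bond G X → (∀ x y, c x = c y → (x ∈ X ↔ y ∈ X)) → |σ X| ≤ b * dd G X)
    (S : Finset V) (hS : ∀ x y, c x = c y → (x ∈ S ↔ y ∈ S)) : |σ S| ≤ b * dd G S := by
  sorry

/-- P5c (helper48), file SmallClosed.lean -/
theorem small_closed (h3 : ∀ v, G.degree v = 3) {k : ℕ} (hc : CycConn G k) {m : ℕ}
    {p q : Fin m → V} (hp : Function.Injective p) (hq : Function.Injective q)
    (hpq : ∀ i j, p i ≠ q j) {T : Finset V} (hT : ∀ v, v ∈ T ↔ (∃ j, p j = v) ∨ ∃ j, q j = v)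
    {ε : Fin m → ℤ} (hε : ∀ j, ε j = 1 ∨ ε j = -1) {n : ℕ}
    (hTn : ∀ u ∈ T, ∀ v ∈ T, u ≠ v → Disjoint (Bl G.Adj n u) (Bl G.Adj n v)) {S : Finset V}
    (hS : Bond G S) (hk : dd G S < k) (h1 : n + 1 ≤ S.card) (h2 : n + 1 ≤ Sᶜ.card) :
    (n + 1) * |sg p q ε S| ≤ dd G S := by
  sorry

/-- P6a (helper76), file Tools.lean -/
theorem iso_cyc {δ C : ℝ} {w k : ℕ} (hδ : 0 < δ) (hi : Iso G δ C w) (hk : (k : ℝ) ≤ C) :
    CycConn G k := by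
  sorry

/-- P6a (helper76), file Tools.lean -/
theorem average (h3 : ∀ v, G.degree v = 3) {Ξ : Type} [Fintype Ξ] [Nonempty Ξ] (c : Ξ → V → V)
    {B b : ℝ} (hb0 : 0 ≤ b) {ρ h : ℕ} (hh : 0 < h) (hball : ∀ ξ v, c ξ v ∈ Bl G.Adj ρ v)
    (S : Finset V)
    (hB : ∑ ξ, ((univ.filter fun v => ¬ (v ∈ S ↔ c ξ v ∈ S)).card : ℝ) ≤
      B * dd G S * Fintype.card Ξ) {m : ℕ} {p q : Fin m → V} (hp : Function.Injective p)
    (hq : Function.Injective q) (hpq : ∀ i j, p i ≠ q j) {T : Finset V}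
    (hT : ∀ v, v ∈ T ↔ (∃ j, p j = v) ∨ ∃ j, q j = v) {ε : Fin m → ℤ}
    (hε : ∀ j, ε j = 1 ∨ ε j = -1)
    (hσ : ∀ ξ, |(sg p q ε (univ.filter fun v => c ξ v ∈ S) : ℝ)| ≤
      b * dd G (univ.filter fun v => c ξ v ∈ S))
    (hsp : ∀ A ⊆ T, (∀ t ∈ A, Spl G ρ S t) → h * A.card ≤ dd G S) :
    |(sg p q ε S : ℝ)| ≤ b * (1 + 3 * B) * dd G S + dd G S / h := by
  sorry

end

/-- P6 (helper53), file Final3.lean -/
theorem main {δ : ℝ} (hδ : 0 < δ) : ∃ C : ℝ, 0 < C ∧ ∀ {V : Type} [Fintype V] [DecidableEq V]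
    (G : SimpleGraph V) [DecidableRel G.Adj], (∀ v, G.degree v = 3) → ∀ w : ℕ, Iso G δ C w →
    ∀ F : SimpleGraph V, F ≤ G → (∀ v, (F.neighborSet v).ncard = 2) →
    {c : F.ConnectedComponent | Odd c.supp.ncard}.ncard ≤ w →
    ∀ i : ℕ, 5 ≤ i → HasNZFlow (ZMod i) G := by
  sorry

/-- P6b (helper23 or helper71), file Results/MP_974d84_co/IsoperimetricFlow.lean -/
theorem result {δ : ℝ} (hδ : 0 < δ) : ∃ C : ℝ, 0 < C ∧ ∀ {V : Type} [Fintype V] [DecidableEq V]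
    (G : SimpleGraph V) [DecidableRel G.Adj], G.IsRegularOfDegree 3 →
    ((∀ S : Finset V, 2 * S.card ≤ Fintype.card V → ¬ (G.induce (S : Set V)).IsAcyclic →
      ¬ (G.induce ((Sᶜ : Finset V) : Set V)).IsAcyclic →
      C * (1 + Real.log S.card) ^ (1 + δ) ≤ (G.interedges S Sᶜ).card) ∨
    ∃ (F : SimpleGraph V) (w : ℕ), F ≤ G ∧ (∀ v, (F.neighborSet v).ncard = 2) ∧
      {c : F.ConnectedComponent | Odd c.supp.ncard}.ncard ≤ w ∧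
      ∀ S : Finset V, 2 * S.card ≤ Fintype.card V → ¬ (G.induce (S : Set V)).IsAcyclic →
      ¬ (G.induce ((Sᶜ : Finset V) : Set V)).IsAcyclic →
      C * min ((1 + Real.log S.card) ^ (1 + δ)) (1 + Real.log w) ≤ (G.interedges S Sᶜ).card) →
    ∀ i : ℕ, 5 ≤ i → HasNZFlow (ZMod i) G := by
  sorry

end Pool.Agent.Iso5.Plan
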