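import Mathlib
import Pool.Agent.Work.MP_974d84_co_log.Crit

/-!
# Closed sets are sums of closed bonds
-/

set_option linter.unusedSectionVars false

namespace Pool.Agent.Iso5

open Finset SimpleGraph Pool.Agent.Exp Pool.Agent.Log5

variable {V : Type} [Fintype V] [DecidableEq V] {G : SimpleGraph V} [DecidableRel G.Adj]

/-- Unions of classes. -/
def Closed {κ : Type*} (c : V → κ) (S : Finset V) : Prop := ∀ x y, c x = c y → (x ∈ S ↔ y ∈ S)

theorem Closed.compl {κ : Type*} {c : V → κ} {S : Finset V} (h : Closed c S) : Closed c Sᶜ := by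
  intro x y hxy
  rw [mem_compl, mem_compl, h x y hxy]

theorem Closed.sdiff {κ : Type*} {c : V → κ} {S A : Finset V} (h : Closed c S) (hA : Closed c A) :
    Closed c (S \ A) := by
  intro x y hxy
  rw [mem_sdiff, mem_sdiff, h x y hxy, hA x y hxy]

/-- A part of a closed set without edges to the rest is closed. -/
theorem Closed.part {κ : Type*} [DecidableEq κ] {c : V → κ}
    (hc : ∀ x, Joined G (univ.filter fun y => c y = c x)) {S A : Finset V} (h : Closed c S)
    (hA : A ⊆ S) (hno : ∀ x ∈ A, ∀ y ∈ S, y ∉ A → ¬ G.Adj x y) : Closed c A := by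
  have key : ∀ x y, c x = c y → x ∈ A → y ∈ A := by
    intro x y hxy hx
    by_contra hy
    have hsub : (univ.filter fun z => c z = c x) ∩ A ⊆ univ.filter fun z => c z = c x :=
      inter_subset_left
    obtain ⟨u, hu, v, hv, hv', huv⟩ := hc x _ hsub
      ⟨x, mem_inter.2 ⟨mem_filter.2 ⟨mem_univ _, rfl⟩, hx⟩⟩
      (fun he => by
        have : y ∈ (univ.filter fun z => c z = c x) ∩ A := by
          rw [he]
          exact mem_filter.2 ⟨mem_univ _, hxy.symm⟩
        exact hy (mem_inter.1 this).2)
    have hu1 := mem_inter.1 hu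
    have hvS : v ∈ S := by
      have e : c v = c u := by
        rw [(mem_filter.1 hv).2, (mem_filter.1 hu1.1).2]
      exact (h v u e).2 (hA hu1.2)
    exact hno u hu1.2 v hvS (fun hvA => hv' (mem_inter.2 ⟨hv, hvA⟩)) huv
  intro x y hxy
  exact ⟨key x y hxy, key y x hxy.symm⟩

/-- A bound for an additive function on the closed bonds holds for all closed sets. -/
theorem closed_bonds {κ : Type*} [DecidableEq κ] {c : V → κ}
    (hc : ∀ x, Joined G (univ.filter fun y => c y = c x))
    (hbr : ∀ S : Finset V, S.Nonempty → Sᶜ.Nonempty → 1 ≤ dd G S) {σ : Finset V → ℝ}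
    (hadd : ∀ A B, Disjoint A B → σ (A ∪ B) = σ A + σ B) (h0 : σ univ = 0) {b : ℝ}
    (hb : ∀ X, Bond G X → Closed c X → |σ X| ≤ b * dd G X) (S : Finset V) (hS : Closed c S) :
    |σ S| ≤ b * dd G S := by
  have hemp : σ ∅ = 0 := by
    have := hadd ∅ ∅ (disjoint_empty_left _)
    rw [union_empty] at this
    linarith
  have hcompl : ∀ A, σ Aᶜ = - σ A := by
    intro A
    have := hadd A Aᶜ disjoint_compl_right
    rw [union_compl, h0] at this
    linarith
  have hsplit : ∀ Z A : Finset V, A ⊆ Z → σ Z = σ A + σ (Z \ A) := by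
    intro Z A hA
    rw [← hadd _ _ disjoint_sdiff, union_sdiff_of_subset hA]
  suffices key : ∀ (n : ℕ) (Z : Finset V), Closed c Z → dd G Z = n → |σ Z| ≤ b * dd G Z from
    key _ S hS rfl
  intro n
  induction n using Nat.strong_induction_on with
  | _ n ih =>
    intro Z hZc hZ
    rcases Z.eq_empty_or_nonempty with rfl | hne
    · have : dd G (∅ : Finset V) = 0 := by
        unfold dd
        rw [card_eq_zero]
        ext p; rw [mem_cut]; simp
      rw [hemp, this]; simp
    rcases Zᶜ.eq_empty_or_nonempty with he | hne'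
    · have hZu := (compl_eq_empty_iff _).1 he
      have : dd G Z = 0 := by
        unfold dd
        rw [card_eq_zero]
        ext p
        rw [mem_cut, hZu]
        simp
      rw [this, hZu, h0]; simp
    by_cases hJ : Joined G Z
    · by_cases hJ' : Joined G Zᶜ
      · exact hb Z ⟨hJ, hJ', hne, hne'⟩ hZc
      · obtain ⟨A, h1, h2, h3, h4⟩ := not_joined hJ'
        obtain ⟨e1, e2⟩ := cut_split h1 h4
        have k1 : dd G Zᶜ = dd G A + dd G (Zᶜ \ A) := by
          unfold dd
          rw [e1, card_union_of_disjoint e2]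
        have c1 : Aᶜ.Nonempty := by
          obtain ⟨x, hx⟩ := hne
          exact ⟨x, mem_compl.2 fun h => (mem_compl.1 (h1 h)) hx⟩
        have c2 : (Zᶜ \ A)ᶜ.Nonempty := by
          obtain ⟨x, hx⟩ := hne
          exact ⟨x, mem_compl.2 fun h => (mem_compl.1 (mem_sdiff.1 h).1) hx⟩
        have k2 := hbr A h2 c1
        have k3 := hbr (Zᶜ \ A) h3 c2
        rw [dd_compl, hZ] at k1
        have hAc : Closed c A := hZc.compl.part hc h1 h4
        have g1 := ih (dd G A) (by omega) A hAc rfl
        have g2 := ih (dd G (Zᶜ \ A)) (by omega) (Zᶜ \ A) (hZc.compl.sdiff hAc) rfl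
        have g3 : σ Z = - (σ A + σ (Zᶜ \ A)) := by
          rw [← hsplit _ _ h1, hcompl]
          ring
        rw [g3, abs_neg, hZ, k1]
        push_cast
        have := abs_add_le (σ A) (σ (Zᶜ \ A))
        linarith
    · obtain ⟨A, h1, h2, h3, h4⟩ := not_joined hJ
      obtain ⟨e1, e2⟩ := cut_split h1 h4
      have k1 : dd G Z = dd G A + dd G (Z \ A) := by
        unfold dd
        rw [e1, card_union_of_disjoint e2]
      have c1 : Aᶜ.Nonempty := by
        obtain ⟨x, hx⟩ := hne'
        exact ⟨x, mem_compl.2 fun h => (mem_compl.1 hx) (h1 h)⟩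
      have c2 : (Z \ A)ᶜ.Nonempty := by
        obtain ⟨x, hx⟩ := hne'
        exact ⟨x, mem_compl.2 fun h => (mem_compl.1 hx) (mem_sdiff.1 h).1⟩
      have k2 := hbr A h2 c1
      have k3 := hbr (Z \ A) h3 c2
      have hAc : Closed c A := hZc.part hc h1 h4
      have g1 := ih (dd G A) (by omega) A hAc rfl
      have g2 := ih (dd G (Z \ A)) (by omega) (Z \ A) (hZc.sdiff hAc) rfl
      rw [hsplit _ _ h1, k1]
      push_cast
      have := abs_add_le (σ A) (σ (Z \ A))
      linarith

end Pool.Agent.Iso5
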